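import Pool.Agent.H99V.Lat

set_option autoImplicit false

/-!
# A Gram matrix near that of a basis is the Gram matrix of a near basis
-/

namespace Pool.Agent.H99V

open MeasureTheory Matrix Pool.Agent.D4Q

variable {n : ℕ}

open scoped MatrixOrder ComplexOrder in
/-- The positive square root. -/
theorem exists_sqrt {S : Matrix (Fin n) (Fin n) ℝ} (hS : S.PosSemidef) :
    ∃ R : Matrix (Fin n) (Fin n) ℝ, R.PosSemidef ∧ R * R = S := by
  refine ⟨CFC.sqrt S, ?_, ?_⟩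
  · exact Matrix.nonneg_iff_posSemidef.1 (CFC.sqrt_nonneg S)
  · exact CFC.sqrt_mul_sqrt_self S hS.nonneg

theorem sqrt_sub_le {R S : Matrix (Fin n) (Fin n) ℝ} (hR : R.PosSemidef) (hRS : R * R = S)
    (x : Fin n → ℝ) :
    (R *ᵥ x - x) ⬝ᵥ (R *ᵥ x - x) ≤ (S *ᵥ x - x) ⬝ᵥ (S *ᵥ x - x) := by
  obtain ⟨w, hw⟩ : ∃ w, w = R *ᵥ x - x := ⟨_, rfl⟩
  have h1 : S *ᵥ x - x = R *ᵥ w + w := by
    rw [hw, ← hRS, ← mulVec_mulVec, mulVec_sub]
    abel
  have h2 : 0 ≤ w ⬝ᵥ (R *ᵥ w) := by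
    have := hR.dotProduct_mulVec_nonneg w
    rwa [star_trivial] at this
  have h3 : 0 ≤ (R *ᵥ w) ⬝ᵥ (R *ᵥ w) := by
    rw [dotProduct]
    exact Finset.sum_nonneg fun i _ => mul_self_nonneg _
  rw [h1, ← hw, dotProduct_add, add_dotProduct, add_dotProduct, dotProduct_comm (R *ᵥ w) w]
  linarith

theorem near_basis {b : Fin n → EuclideanSpace ℝ (Fin n)} (hb : LinearIndependent ℝ b) {η : ℝ}
    (hη : 0 < η) : ∃ δ : ℝ, 0 < δ ∧ ∀ Q : Matrix (Fin n) (Fin n) ℝ, Q.PosDef →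
      (∀ i j, |Q i j - gram b i j| < δ) → ∃ b' : Fin n → EuclideanSpace ℝ (Fin n),
        LinearIndependent ℝ b' ∧ gram b' = Q ∧ ∀ i, ‖b' i - b i‖ < η := by
  obtain ⟨B, hB⟩ : ∃ B : Matrix (Fin n) (Fin n) ℝ, B = Matrix.of fun k i => b i k := ⟨_, rfl⟩
  have hG : gram b = Bᵀ * B := by
    ext i j
    unfold gram
    rw [Matrix.mul_apply, Matrix.of_apply, PiLp.inner_apply, hB]
    refine Finset.sum_congr rfl fun k _ => ?_
    simp [mul_comm]
  have hdB : B.det ≠ 0 := by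
    intro h
    have h1 := (gram_posDef hb).det_pos
    rw [hG, det_mul, h, mul_zero] at h1
    exact lt_irrefl _ h1
  have hBA : B * B⁻¹ = 1 := mul_nonsing_inv B (isUnit_iff_ne_zero.2 hdB)
  have hAB : B⁻¹ * B = 1 := nonsing_inv_mul B (isUnit_iff_ne_zero.2 hdB)
  obtain ⟨A, hA⟩ : ∃ A, A = B⁻¹ := ⟨_, rfl⟩
  rw [← hA] at hBA hAB
  obtain ⟨K, hK⟩ : ∃ K : ℝ, K = ∑ k, ∑ j, |A j k| := ⟨_, rfl⟩
  have hK0 : 0 ≤ K := by
    rw [hK]
    exact Finset.sum_nonneg fun k _ => Finset.sum_nonneg fun j _ => abs_nonneg _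
  have hn : (0 : ℝ) ≤ n := Nat.cast_nonneg n
  refine ⟨η / ((n + 1) * (K + 1)), by positivity, fun Q hQ hclose => ?_⟩
  obtain ⟨δ, hδ⟩ : ∃ δ : ℝ, δ = η / ((n + 1) * (K + 1)) := ⟨_, rfl⟩
  rw [← hδ] at hclose
  have hδ0 : 0 < δ := by rw [hδ]; positivity
  obtain ⟨S, hS⟩ : ∃ S : Matrix (Fin n) (Fin n) ℝ, S = Aᵀ * Q * A := ⟨_, rfl⟩
  have hSp : S.PosSemidef := by
    have h1 := hQ.posSemidef.conjTranspose_mul_mul_same A
    rwa [conjTranspose_eq_transpose_of_trivial, ← hS] at h1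
  obtain ⟨R, hR, hRS⟩ := exists_sqrt hSp
  have hRt : Rᵀ = R := by
    have h1 := hR.isHermitian
    rwa [Matrix.IsHermitian, conjTranspose_eq_transpose_of_trivial] at h1
  obtain ⟨b', hb'⟩ : ∃ b' : Fin n → EuclideanSpace ℝ (Fin n),
    b' = fun i => WithLp.toLp 2 fun k => (R * B) k i := ⟨_, rfl⟩
  have hgram : gram b' = Q := by
    have h1 : gram b' = (R * B)ᵀ * (R * B) := by
      ext i j
      unfold gram
      rw [Matrix.mul_apply, Matrix.of_apply, PiLp.inner_apply, hb']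
      refine Finset.sum_congr rfl fun k _ => ?_
      simp [mul_comm]
    have hAt : Bᵀ * Aᵀ = 1 := by rw [← transpose_mul, hAB, transpose_one]
    calc gram b' = (R * B)ᵀ * (R * B) := h1
      _ = Bᵀ * (R * R) * B := by rw [transpose_mul, hRt]; simp only [Matrix.mul_assoc]
      _ = (Bᵀ * Aᵀ) * Q * (A * B) := by rw [hRS, hS]; simp only [Matrix.mul_assoc]
      _ = Q := by rw [hAt, hAB, Matrix.one_mul, Matrix.mul_one]
  refine ⟨b', ?_, hgram, fun i => ?_⟩
  · rw [Fintype.linearIndependent_iff]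
    intro x hx
    by_contra hcon
    have hx0 : x ≠ 0 := by
      intro h0
      exact hcon fun i => congrFun h0 i
    have h1 := hQ.dotProduct_mulVec_pos hx0
    rw [star_trivial] at h1
    have h2 := norm_sq_comb (b := b') (Q := gram b') (fun _ _ => rfl) x
    rw [hx, norm_zero, hgram] at h2
    unfold qf at h2
    rw [← h2] at h1
    norm_num at h1
  · obtain ⟨x, hx⟩ : ∃ x : Fin n → ℝ, x = fun k => B k i := ⟨_, rfl⟩
    have hn1 : ‖b' i - b i‖ ^ 2 = (R *ᵥ x - x) ⬝ᵥ (R *ᵥ x - x) := by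
      rw [EuclideanSpace.norm_sq_eq, dotProduct]
      refine Finset.sum_congr rfl fun k _ => ?_
      have e1 : (R *ᵥ x - x) k = (b' i - b i) k := by
        rw [hb', hx, hB]
        simp [Matrix.mul_apply, mulVec, dotProduct]
      rw [e1, Real.norm_eq_abs, sq_abs, sq]
    have hle := sqrt_sub_le hR hRS x
    have hAx : A *ᵥ x = fun j => (1 : Matrix (Fin n) (Fin n) ℝ) j i := by
      funext j
      rw [← hAB, Matrix.mul_apply, hx]
      rfl
    have hSx : ∀ k, (S *ᵥ x - x) k = ∑ j, A j k * (Q j i - gram b j i) := by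
      intro k
      have h1 : x = (Aᵀ * gram b * A) *ᵥ x := by
        have h2 : Aᵀ * gram b * A = 1 := by
          have h3 : Aᵀ * Bᵀ = 1 := by rw [← transpose_mul, hBA, transpose_one]
          calc Aᵀ * gram b * A = (Aᵀ * Bᵀ) * (B * A) := by
                rw [hG]
                simp only [Matrix.mul_assoc]
            _ = 1 := by rw [h3, hBA, Matrix.one_mul]
        rw [h2, one_mulVec]
      have h4 : S *ᵥ x - x = Aᵀ *ᵥ ((Q - gram b) *ᵥ (A *ᵥ x)) := by
        have h1' : (Aᵀ * (gram b * A)) *ᵥ x = x := by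
          rw [← Matrix.mul_assoc]
          exact h1.symm
        rw [hS, sub_mulVec, mulVec_sub]
        simp only [mulVec_mulVec, Matrix.mul_assoc]
        rw [h1']
      rw [h4, hAx]
      show ∑ j, Aᵀ k j * _ = _
      refine Finset.sum_congr rfl fun j _ => ?_
      rw [transpose_apply]
      congr 1
      simp [mulVec, dotProduct, Matrix.one_apply]
    have hbound : ∀ k, |(S *ᵥ x - x) k| ≤ K * δ := by
      intro k
      rw [hSx k]
      refine (Finset.abs_sum_le_sum_abs _ _).trans ?_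
      have h1 : ∑ j, |A j k * (Q j i - gram b j i)| ≤ ∑ j, |A j k| * δ := by
        refine Finset.sum_le_sum fun j _ => ?_
        rw [abs_mul]
        exact mul_le_mul_of_nonneg_left (hclose j i).le (abs_nonneg _)
      refine h1.trans ?_
      rw [← Finset.sum_mul]
      refine mul_le_mul_of_nonneg_right ?_ hδ0.le
      rw [hK]
      exact Finset.single_le_sum (f := fun k => ∑ j, |A j k|)
        (fun k _ => Finset.sum_nonneg fun j _ => abs_nonneg _) (Finset.mem_univ k)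
    have hsum : (S *ᵥ x - x) ⬝ᵥ (S *ᵥ x - x) ≤ n * (K * δ) ^ 2 := by
      rw [dotProduct]
      have h1 : ∀ k ∈ (Finset.univ : Finset (Fin n)),
          (S *ᵥ x - x) k * (S *ᵥ x - x) k ≤ (K * δ) ^ 2 := by
        intro k _
        rw [← sq, ← sq_abs]
        exact pow_le_pow_left₀ (abs_nonneg _) (hbound k) 2
      refine (Finset.sum_le_card_nsmul _ _ _ h1).trans ?_
      simp
    have hlt : (n : ℝ) * (K * δ) ^ 2 < η ^ 2 := by
      have h1 : δ * ((n + 1) * (K + 1)) = η := by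
        rw [hδ]
        field_simp
      rw [← h1]
      have h2 : (n : ℝ) * (K * δ) ^ 2 = δ ^ 2 * (n * K ^ 2) := by ring
      have h3 : (δ * ((n + 1) * (K + 1))) ^ 2 = δ ^ 2 * (((n : ℝ) + 1) ^ 2 * (K + 1) ^ 2) := by
        ring
      rw [h2, h3]
      refine mul_lt_mul_of_pos_left ?_ (by positivity)
      have h4 : (n : ℝ) ≤ (n + 1) ^ 2 := by nlinarith
      have h5 : K ^ 2 < (K + 1) ^ 2 := by nlinarith
      have h6 : (n : ℝ) * K ^ 2 ≤ (n + 1) ^ 2 * K ^ 2 :=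
        mul_le_mul_of_nonneg_right h4 (sq_nonneg _)
      have h7 : ((n : ℝ) + 1) ^ 2 * K ^ 2 < (n + 1) ^ 2 * (K + 1) ^ 2 :=
        mul_lt_mul_of_pos_left h5 (by positivity)
      linarith
    have hfin : ‖b' i - b i‖ ^ 2 < η ^ 2 := by
      rw [hn1]
      exact (hle.trans hsum).trans_lt hlt
    exact lt_of_pow_lt_pow_left₀ 2 hη.le hfin

end Pool.Agent.H99V
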