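import Pool.Agent.H99V.Num

set_option autoImplicit false

/-!
# The second derivative test
-/

namespace Pool.Agent.H99V

open Filter Topology

theorem second_order {f g f' g' : ℝ → ℝ} {f2 g2 : ℝ} (p q : ℕ) (hf : ∀ t, HasDerivAt f (f' t) t)
    (hg : ∀ t, HasDerivAt g (g' t) t) (hf2 : HasDerivAt f' f2 0) (hg2 : HasDerivAt g' g2 0)
    (f0 : 0 < f 0) (g0 : 0 < g 0) (h1 : p * (f' 0 / f 0) = q * (g' 0 / g 0))
    (h2 : p * (f2 / f 0 - (f' 0 / f 0) ^ 2) < q * (g2 / g 0 - (g' 0 / g 0) ^ 2)) :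
    ∃ t₀ > 0, ∀ t, 0 < t → t < t₀ → f t ^ p * g 0 ^ q < f 0 ^ p * g t ^ q := by
  have hψ : HasDerivAt (fun t => p * (f' t / f t) - q * (g' t / g t))
      (p * ((f2 * f 0 - f' 0 * f' 0) / f 0 ^ 2) - q * ((g2 * g 0 - g' 0 * g' 0) / g 0 ^ 2)) 0 :=
    ((hf2.div (hf 0) f0.ne').const_mul (p : ℝ)).sub ((hg2.div (hg 0) g0.ne').const_mul (q : ℝ))
  have hc : p * ((f2 * f 0 - f' 0 * f' 0) / f 0 ^ 2) -
      q * ((g2 * g 0 - g' 0 * g' 0) / g 0 ^ 2) < 0 := by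
    have e1 : (f2 * f 0 - f' 0 * f' 0) / f 0 ^ 2 = f2 / f 0 - (f' 0 / f 0) ^ 2 := by
      field_simp
    have e2 : (g2 * g 0 - g' 0 * g' 0) / g 0 ^ 2 = g2 / g 0 - (g' 0 / g 0) ^ 2 := by
      field_simp
    rw [e1, e2]
    linarith
  have hs := hasDerivAt_iff_tendsto_slope.1 hψ
  have hneg : ∀ᶠ t in 𝓝[≠] (0 : ℝ),
      slope (fun t => p * (f' t / f t) - q * (g' t / g t)) 0 t < 0 := hs.eventually_lt_const hc
  have hneg' : ∀ᶠ t in 𝓝[>] (0 : ℝ), p * (f' t / f t) - q * (g' t / g t) < 0 := by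
    have h3 : ∀ᶠ t in 𝓝[>] (0 : ℝ),
        slope (fun t => p * (f' t / f t) - q * (g' t / g t)) 0 t < 0 :=
      hneg.filter_mono (nhdsWithin_mono _ fun x hx => ne_of_gt hx)
    have h4 : ∀ᶠ t in 𝓝[>] (0 : ℝ), 0 < t := self_mem_nhdsWithin
    filter_upwards [h3, h4] with t h5 h6
    rw [slope_def_field] at h5
    have h7 : p * (f' 0 / f 0) - q * (g' 0 / g 0) = 0 := sub_eq_zero.2 h1
    rw [h7, sub_zero, sub_zero] at h5
    by_contra h8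
    exact absurd h5 (not_lt.2 (div_nonneg (not_lt.1 h8) h6.le))
  have hfp : ∀ᶠ t in 𝓝[>] (0 : ℝ), 0 < f t :=
    ((hf 0).continuousAt.eventually_const_lt f0).filter_mono nhdsWithin_le_nhds
  have hgp : ∀ᶠ t in 𝓝[>] (0 : ℝ), 0 < g t :=
    ((hg 0).continuousAt.eventually_const_lt g0).filter_mono nhdsWithin_le_nhds
  obtain ⟨u, hu, hu'⟩ := (nhdsGT_basis (0 : ℝ)).eventually_iff.1 (hneg'.and (hfp.and hgp))
  refine ⟨u, hu, fun t ht htu => ?_⟩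
  have hfx : ∀ x ∈ Set.Icc 0 t, 0 < f x := by
    intro x hx
    rcases hx.1.eq_or_lt with h | h
    · rw [← h]
      exact f0
    · exact (hu' ⟨h, lt_of_le_of_lt hx.2 htu⟩).2.1
  have hgx : ∀ x ∈ Set.Icc 0 t, 0 < g x := by
    intro x hx
    rcases hx.1.eq_or_lt with h | h
    · rw [← h]
      exact g0
    · exact (hu' ⟨h, lt_of_le_of_lt hx.2 htu⟩).2.2
  have hd : ∀ x ∈ Set.Icc 0 t, HasDerivAt (fun x => p * Real.log (f x) - q * Real.log (g x))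
      (p * (f' x / f x) - q * (g' x / g x)) x := fun x hx =>
    (((hf x).log (hfx x hx).ne').const_mul (p : ℝ)).sub
      (((hg x).log (hgx x hx).ne').const_mul (q : ℝ))
  have hanti : StrictAntiOn (fun x => p * Real.log (f x) - q * Real.log (g x)) (Set.Icc 0 t) := by
    refine strictAntiOn_of_deriv_neg (convex_Icc 0 t)
      (fun x hx => (hd x hx).continuousAt.continuousWithinAt) fun x hx => ?_
    rw [interior_Icc] at hx
    rw [(hd x ⟨hx.1.le, hx.2.le⟩).deriv]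
    exact (hu' ⟨hx.1, hx.2.trans htu⟩).1
  have h9 := hanti (Set.left_mem_Icc.2 ht.le) (Set.right_mem_Icc.2 ht.le) ht
  have hft := hfx t (Set.right_mem_Icc.2 ht.le)
  have hgt := hgx t (Set.right_mem_Icc.2 ht.le)
  simp only at h9
  have h10 : Real.log (f t ^ p * g 0 ^ q) < Real.log (f 0 ^ p * g t ^ q) := by
    rw [Real.log_mul (pow_pos hft p).ne' (pow_pos g0 q).ne',
      Real.log_mul (pow_pos f0 p).ne' (pow_pos hgt q).ne', Real.log_pow, Real.log_pow,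
      Real.log_pow, Real.log_pow]
    linarith
  exact (Real.log_lt_log_iff (mul_pos (pow_pos hft p) (pow_pos g0 q))
    (mul_pos (pow_pos f0 p) (pow_pos hgt q))).1 h10

/-- The second derivatives: `P = N ^ m`, `N = m + 2`, `a = AA m N`. -/
theorem second_ineq {m P a f0 f1 f2 g0 g1 g2 : ℝ} (hm : 1 < m) (hP : 0 < P)
    (ha : a < (m + 2) * P)
    (hE : 0 < P - 2 * (a - P) / m - 2 * ((m + 2) * (a - P) - m * P) / (m * (m - 1)))
    (e0 : f0 = (m + 1) * ((m + 2) * P - a)) (e1 : f1 = -(2 * (m + 2) / m) * ((m + 2) * P - a))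
    (e2 : f2 = 2 * ((2 * (m + 1) ^ 2 * P / (m * (m + 2)) -
        (m + 1) * (2 / m ^ 2 * (a - P) - 2 * P / (m * (m + 2))) + a / m ^ 2) -
      2 / m * (-2 * (m + 1) ^ 2 * P / m + 2 * (m + 1) / m * (a - P)) +
      (m + 1) * ((m + 2) * P - a) / m ^ 2 +
      2 * (-2 * (m + 1) * P / (m + 2) + 2 / m * (a - P)) - 2 / m * ((m + 1) * P - a) -
      4 * P / m - 4 * P / (m + 2) + 2 * P / (m + 2)))
    (d0 : g0 = P) (d1 : g1 = -(2 / m) * P)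
    (d2 : g2 = 2 * (P / m ^ 2 + 2 * P / (m * (m + 2)) - 2 * (m - 1) * P / (m * (m + 2) ^ 2))) :
    (m + 1) * (f2 / f0 - (f1 / f0) ^ 2) < (m + 2) * (g2 / g0 - (g1 / g0) ^ 2) := by
  have h0 : m ≠ 0 := by positivity
  have h1 : m - 1 ≠ 0 := by linarith
  have h2 : m + 1 ≠ 0 := by positivity
  have h3 : m + 2 ≠ 0 := by positivity
  have h4 : (m + 2) * P - a ≠ 0 := by linarith
  have h5 : P ≠ 0 := hP.ne'
  have key : (m + 2) * (g2 / g0 - (g1 / g0) ^ 2) - (m + 1) * (f2 / f0 - (f1 / f0) ^ 2) =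
      2 * (m - 1) / ((m + 1) * (m + 2)) *
        (P - 2 * (a - P) / m - 2 * ((m + 2) * (a - P) - m * P) / (m * (m - 1))) /
          ((m + 2) * P - a) := by
    subst e0 e1 e2 d0 d1 d2
    field_simp
    ring
  have h6 : 0 < 2 * (m - 1) / ((m + 1) * (m + 2)) *
        (P - 2 * (a - P) / m - 2 * ((m + 2) * (a - P) - m * P) / (m * (m - 1))) /
          ((m + 2) * P - a) := by
    refine div_pos (mul_pos (div_pos ?_ ?_) hE) ?_
    · linarith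
    · positivity
    · linarith
  linarith

private theorem an_nonneg (m : ℕ) {C : ℝ} (hC : 0 ≤ C) : 0 ≤ AA m C := by
  induction m with
  | zero => simp [AA]
  | succ m ih =>
    simp only [AA]
    positivity

/-- The consequences of `num_ineq` for `P = N ^ m`, `a = AA m N`, `N = m + 2`. -/
theorem num_E {m : ℕ} (hm : 5 ≤ m) {P a : ℝ} (hP : P = ((m : ℝ) + 2) ^ m)
    (ha : a = AA m ((m : ℝ) + 2)) :
    0 < P ∧ a < ((m : ℝ) + 2) * P ∧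
      0 < P - 2 * (a - P) / m - 2 * (((m : ℝ) + 2) * (a - P) - m * P) / (m * (m - 1)) := by
  obtain ⟨k, rfl⟩ : ∃ k, m = k + 2 := ⟨m - 2, by omega⟩
  have hk : (((k + 2 : ℕ) : ℝ) + 2) = (k : ℝ) + 4 := by
    push_cast
    ring
  rw [hk] at hP ha ⊢
  have h1 := num_ineq k (by omega)
  have hb := an_nonneg k (C := (k : ℝ) + 4) (by positivity)
  have e1 : AA (k + 1) ((k : ℝ) + 4) = ((k : ℝ) + 4) ^ (k + 1) + (k + 1) * AA k ((k : ℝ) + 4) := by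
    simp only [AA]
  have e2 : AA (k + 2) ((k : ℝ) + 4) =
      ((k : ℝ) + 4) ^ (k + 2) + (k + 2) * AA (k + 1) ((k : ℝ) + 4) := by
    simp only [AA]
    push_cast
    ring
  have hPP : P = ((k : ℝ) + 4) * ((k : ℝ) + 4) ^ (k + 1) := by
    rw [hP]
    ring
  have hpos : 0 < ((k : ℝ) + 4) ^ (k + 1) := by positivity
  have hP0 : 0 < P := by
    rw [hP]
    positivity
  have hkm : ((k + 2 : ℕ) : ℝ) = (k : ℝ) + 2 := by push_cast; ring
  rw [← hP] at h1 e2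
  rw [e2] at ha
  set A := AA (k + 1) ((k : ℝ) + 4) with hA
  set b := AA k ((k : ℝ) + 4) with hbd
  have hk0 : (0 : ℝ) ≤ k := Nat.cast_nonneg k
  refine ⟨hP0, ?_, ?_⟩
  · rw [ha]
    have h2 : A < P := by nlinarith
    nlinarith
  · rw [hkm]
    have h2 : P - 2 * (a - P) / ((k : ℝ) + 2) - 2 * (((k : ℝ) + 4) * (a - P) -
        ((k : ℝ) + 2) * P) / (((k : ℝ) + 2) * ((k : ℝ) + 2 - 1)) =
        P - 2 * (A + (k + 4) * b) := by
      have h3 : (k : ℝ) + 2 ≠ 0 := by positivity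
      have h4 : (k : ℝ) + 2 - 1 ≠ 0 := by
        have : (k : ℝ) + 2 - 1 = k + 1 := by ring
        rw [this]
        positivity
      rw [ha]
      field_simp
      rw [hPP, e1]
      ring
    rw [h2]
    linarith

/-- The form used in `Ana2`: `N = k + 4`, `m = k + 2`, `a = AA m N`. -/
theorem h2_final (k : ℕ) (hk : 3 ≤ k) {a f0 f1 f2 g0 g1 g2 : ℝ}
    (ha : a = AA (k + 2) ((k : ℝ) + 4))
    (e0 : f0 = ((k : ℝ) + 3) * (((k : ℝ) + 4) ^ (k + 3) - a))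
    (e1 : f1 = -(2 * ((k : ℝ) + 4) / ((k : ℝ) + 2)) * (((k : ℝ) + 4) ^ (k + 3) - a))
    (e2 : f2 = ((2 * ((k : ℝ) + 2) ^ 3 + 26 * ((k : ℝ) + 2) ^ 2 + 60 * ((k : ℝ) + 2) + 48) *
      ((k : ℝ) + 4) ^ (k + 1) - (2 * ((k : ℝ) + 2) + 12) * a) / ((k : ℝ) + 2) ^ 2)
    (d0 : g0 = ((k : ℝ) + 4) ^ (k + 2)) (d1 : g1 = -(2 / ((k : ℝ) + 2)) * ((k : ℝ) + 4) ^ (k + 2))
    (d2 : g2 = (6 * ((k : ℝ) + 2) + 4) / ((k : ℝ) + 2) ^ 2 * ((k : ℝ) + 4) ^ (k + 1) -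
      4 * ((k : ℝ) + 2 - 1) / ((k : ℝ) + 2) * ((k : ℝ) + 4) ^ k) :
    0 < f0 ∧ 0 < g0 ∧ ((k : ℝ) + 3) * (f1 / f0) = ((k : ℝ) + 4) * (g1 / g0) ∧
      ((k : ℝ) + 3) * (f2 / f0 - (f1 / f0) ^ 2) < ((k : ℝ) + 4) * (g2 / g0 - (g1 / g0) ^ 2) := by
  obtain ⟨hP, haP, hE⟩ := num_E (m := k + 2) (by omega) (P := ((k : ℝ) + 4) ^ (k + 2)) (a := a)
    (by push_cast; ring_nf) (by rw [ha]; congr 1; push_cast; ring)
  have hcast : ((k + 2 : ℕ) : ℝ) = (k : ℝ) + 2 := by push_cast; ring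
  rw [hcast] at haP hE
  have hr : 0 < ((k : ℝ) + 4) ^ k := by positivity
  set r : ℝ := ((k : ℝ) + 4) ^ k with hrd
  have p1 : ((k : ℝ) + 4) ^ (k + 1) = ((k : ℝ) + 4) * r := by rw [hrd]; ring
  have p2 : ((k : ℝ) + 4) ^ (k + 2) = ((k : ℝ) + 4) ^ 2 * r := by rw [hrd]; ring
  have p3 : ((k : ℝ) + 4) ^ (k + 3) = ((k : ℝ) + 4) ^ 3 * r := by rw [hrd]; ring
  rw [p2] at hP haP hE
  rw [p3] at e0 e1
  rw [p1] at e2 d2
  rw [p2] at d0 d1
  have hk0 : (0 : ℝ) ≤ k := Nat.cast_nonneg k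
  have hD : 0 < ((k : ℝ) + 4) ^ 3 * r - a := by nlinarith
  have hf0 : 0 < f0 := by
    rw [e0]
    exact mul_pos (by positivity) hD
  have hg0 : 0 < g0 := by
    rw [d0]
    exact hP
  have h2 : (k : ℝ) + 2 ≠ 0 := by positivity
  have h3 : (k : ℝ) + 3 ≠ 0 := by positivity
  have h4 : (k : ℝ) + 4 ≠ 0 := by positivity
  have h1 : (k : ℝ) + 1 ≠ 0 := by positivity
  have hr0 : r ≠ 0 := hr.ne'
  have hD0 : ((k : ℝ) + 4) ^ 3 * r - a ≠ 0 := hD.ne'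
  refine ⟨hf0, hg0, ?_, ?_⟩
  · subst e0 e1 d0 d1
    field_simp
  · have key : ((k : ℝ) + 4) * (g2 / g0 - (g1 / g0) ^ 2) -
        ((k : ℝ) + 3) * (f2 / f0 - (f1 / f0) ^ 2) =
        2 * ((k : ℝ) + 1) / (((k : ℝ) + 3) * ((k : ℝ) + 4)) *
        (((k : ℝ) + 4) ^ 2 * r - 2 * (a - ((k : ℝ) + 4) ^ 2 * r) / ((k : ℝ) + 2) -
          2 * (((k : ℝ) + 2 + 2) * (a - ((k : ℝ) + 4) ^ 2 * r) -
            ((k : ℝ) + 2) * (((k : ℝ) + 4) ^ 2 * r)) / (((k : ℝ) + 2) * ((k : ℝ) + 2 - 1))) /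
          (((k : ℝ) + 4) ^ 3 * r - a) := by
      have h5 : (k : ℝ) + 2 - 1 = k + 1 := by ring
      rw [h5] at d2 ⊢
      subst e0 e1 e2 d0 d1 d2
      field_simp
      ring
    have h6 : 0 < 2 * ((k : ℝ) + 1) / (((k : ℝ) + 3) * ((k : ℝ) + 4)) *
        (((k : ℝ) + 4) ^ 2 * r - 2 * (a - ((k : ℝ) + 4) ^ 2 * r) / ((k : ℝ) + 2) -
          2 * (((k : ℝ) + 2 + 2) * (a - ((k : ℝ) + 4) ^ 2 * r) -
            ((k : ℝ) + 2) * (((k : ℝ) + 4) ^ 2 * r)) / (((k : ℝ) + 2) * ((k : ℝ) + 2 - 1))) /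
          (((k : ℝ) + 4) ^ 3 * r - a) :=
      div_pos (mul_pos (by positivity) hE) hD
    linarith

end Pool.Agent.H99V
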