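import Pool.Agent.H99V.Ana1

set_option autoImplicit false

/-!
# The derivatives along the curve
-/

namespace Pool.Agent.H99V

open MeasureTheory Matrix Pool.Agent.D4Q

noncomputable def PP (m : ℕ) (x t : ℝ) : ℝ :=
  RR m x (m + 2 * x) + t * (2 * x * ((m + 1) * (m + 2 * x) ^ m - AA m (m + 2 * x)) +
    2 * (x ^ 2 * (m + 2 * x) ^ m)) + t ^ 2 * (2 * x * (m + 2 * x) ^ (m - 1))
noncomputable def DD (m : ℕ) (x t : ℝ) : ℝ :=
  x ^ 2 * (m + 2 * x) ^ m + t * (2 * x * (m + 2 * x) ^ (m - 1))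

/-- The derivative of `AA m`. -/
theorem hasDerivAt_AA (m : ℕ) (C : ℝ) : HasDerivAt (AA m) (AA m C - C ^ m) C := by
  induction m with
  | zero =>
    have h : HasDerivAt (fun _ : ℝ => (1 : ℝ)) 0 C := hasDerivAt_const C 1
    have e : AA 0 C - C ^ 0 = 0 := by simp [AA]
    rw [e]
    exact h
  | succ m ih =>
    have h1 : HasDerivAt (fun C : ℝ => C ^ (m + 1)) (((m + 1 : ℕ) : ℝ) * C ^ m) C := by
      simpa using hasDerivAt_pow (m + 1) C
    have h2 := h1.add (ih.const_mul ((m : ℝ) + 1))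
    have e : AA (m + 1) C - C ^ (m + 1) =
        ((m + 1 : ℕ) : ℝ) * C ^ m + ((m : ℝ) + 1) * (AA m C - C ^ m) := by
      simp only [AA]
      push_cast
      ring
    rw [e]
    exact h2

section Curve

variable (k : ℕ)

/-- the coordinate `x` -/
noncomputable def cX (t : ℝ) : ℝ := 1 - t / ((k : ℝ) + 2)

/-- the parameter `C = m + 2 x` -/
noncomputable def cC (t : ℝ) : ℝ := (k : ℝ) + 2 + 2 * cX k t

/-- the slope -/
noncomputable def cp : ℝ := -(1 / ((k : ℝ) + 2))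

theorem der_X (t : ℝ) : HasDerivAt (cX k) (cp k) t := by
  have h := ((hasDerivAt_id t).div_const ((k : ℝ) + 2)).const_sub 1
  exact h

theorem der_C (t : ℝ) : HasDerivAt (cC k) (2 * cp k) t :=
  ((der_X k t).const_mul 2).const_add ((k : ℝ) + 2)

theorem der_Q (j : ℕ) (t : ℝ) :
    HasDerivAt (fun t => cC k t ^ (j + 1)) (((j : ℝ) + 1) * cC k t ^ j * (2 * cp k)) t := by
  have h := (der_C k t).pow (j + 1)
  have e : ((j : ℝ) + 1) * cC k t ^ j * (2 * cp k) =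
      ((j + 1 : ℕ) : ℝ) * cC k t ^ (j + 1 - 1) * (2 * cp k) := by
    push_cast
    rfl
  rw [e]
  exact h

theorem der_A (t : ℝ) : HasDerivAt (fun t => AA (k + 2) (cC k t))
    ((AA (k + 2) (cC k t) - cC k t ^ (k + 2)) * (2 * cp k)) t :=
  (hasDerivAt_AA (k + 2) (cC k t)).comp t (der_C k t)

/-- the numerator along the curve, in terms of the building blocks -/
theorem PP_eq (t : ℝ) : PP (k + 2) (1 - t / ((k : ℝ) + 2)) t =
    cX k t ^ 2 * (((k : ℝ) + 3) * cC k t ^ (k + 3) -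
      (cC k t - cX k t ^ 2) * AA (k + 2) (cC k t)) +
    t * (2 * cX k t * (((k : ℝ) + 3) * cC k t ^ (k + 2) - AA (k + 2) (cC k t)) +
      2 * (cX k t ^ 2 * cC k t ^ (k + 2))) + t ^ 2 * (2 * cX k t * cC k t ^ (k + 1)) := by
  have e : ((k + 2 : ℕ) : ℝ) + 2 * (1 - t / ((k : ℝ) + 2)) = cC k t := by
    unfold cC cX
    push_cast
    ring
  have e2 : (1 - t / ((k : ℝ) + 2)) = cX k t := rfl
  unfold PP RR
  rw [e, e2]
  have e3 : cC k t - cX k t - ((k + 2 : ℕ) : ℝ) = cX k t := by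
    unfold cC
    push_cast
    ring
  rw [e3, show k + 2 - 1 = k + 1 from rfl]
  push_cast
  ring

/-- the denominator along the curve, in terms of the building blocks -/
theorem DD_eq (t : ℝ) : DD (k + 2) (1 - t / ((k : ℝ) + 2)) t =
    cX k t ^ 2 * cC k t ^ (k + 2) + t * (2 * cX k t * cC k t ^ (k + 1)) := by
  have e : ((k + 2 : ℕ) : ℝ) + 2 * (1 - t / ((k : ℝ) + 2)) = cC k t := by
    unfold cC cX
    push_cast
    ring
  have e2 : (1 - t / ((k : ℝ) + 2)) = cX k t := rfl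
  unfold DD
  rw [e, e2, show k + 2 - 1 = k + 1 from rfl]

/-- the first derivative of the numerator -/
noncomputable def fP (t : ℝ) : ℝ :=
  2 * cX k t * cp k * (((k : ℝ) + 3) * cC k t ^ (k + 3) -
      (cC k t - cX k t ^ 2) * AA (k + 2) (cC k t)) +
  cX k t ^ 2 * (((k : ℝ) + 3) * (((k : ℝ) + 3) * cC k t ^ (k + 2) * (2 * cp k)) -
      ((2 * cp k - 2 * cX k t * cp k) * AA (k + 2) (cC k t) +
        (cC k t - cX k t ^ 2) * ((AA (k + 2) (cC k t) - cC k t ^ (k + 2)) * (2 * cp k)))) +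
  (2 * cX k t * (((k : ℝ) + 3) * cC k t ^ (k + 2) - AA (k + 2) (cC k t)) +
      2 * (cX k t ^ 2 * cC k t ^ (k + 2))) +
  t * (2 * cp k * (((k : ℝ) + 3) * cC k t ^ (k + 2) - AA (k + 2) (cC k t)) +
      2 * cX k t * (((k : ℝ) + 3) * (((k : ℝ) + 2) * cC k t ^ (k + 1) * (2 * cp k)) -
        (AA (k + 2) (cC k t) - cC k t ^ (k + 2)) * (2 * cp k)) +
      2 * (2 * cX k t * cp k * cC k t ^ (k + 2) +
        cX k t ^ 2 * (((k : ℝ) + 2) * cC k t ^ (k + 1) * (2 * cp k)))) +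
  2 * t * (2 * cX k t * cC k t ^ (k + 1)) +
  t ^ 2 * (2 * cp k * cC k t ^ (k + 1) + 2 * cX k t * (((k : ℝ) + 1) * cC k t ^ k * (2 * cp k)))

/-- the first derivative of the denominator -/
noncomputable def gP (t : ℝ) : ℝ :=
  2 * cX k t * cp k * cC k t ^ (k + 2) +
  cX k t ^ 2 * (((k : ℝ) + 2) * cC k t ^ (k + 1) * (2 * cp k)) +
  2 * cX k t * cC k t ^ (k + 1) +
  t * (2 * cp k * cC k t ^ (k + 1) + 2 * cX k t * (((k : ℝ) + 1) * cC k t ^ k * (2 * cp k)))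

theorem der_Q3 (t : ℝ) : HasDerivAt (fun t => cC k t ^ (k + 3))
    (((k : ℝ) + 3) * cC k t ^ (k + 2) * (2 * cp k)) t := by
  have h := der_Q k (k + 2) t
  have e : (((k + 2 : ℕ) : ℝ) + 1) = (k : ℝ) + 3 := by push_cast; ring
  rw [e] at h
  exact h

theorem der_Q2 (t : ℝ) : HasDerivAt (fun t => cC k t ^ (k + 2))
    (((k : ℝ) + 2) * cC k t ^ (k + 1) * (2 * cp k)) t := by
  have h := der_Q k (k + 1) t
  have e : (((k + 1 : ℕ) : ℝ) + 1) = (k : ℝ) + 2 := by push_cast; ring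
  rw [e] at h
  exact h

theorem der_Q1 (t : ℝ) : HasDerivAt (fun t => cC k t ^ (k + 1))
    (((k : ℝ) + 1) * cC k t ^ k * (2 * cp k)) t := der_Q k k t

theorem der_Q0 (t : ℝ) : ∃ d : ℝ, HasDerivAt (fun t => cC k t ^ k) d t :=
  ⟨_, (der_C k t).pow k⟩

theorem der_X2 (t : ℝ) : HasDerivAt (fun t => cX k t ^ 2) (2 * cX k t * cp k) t := by
  have h := (der_X k t).pow 2
  have e : 2 * cX k t * cp k = ((2 : ℕ) : ℝ) * cX k t ^ (2 - 1) * cp k := by
    norm_num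
  rw [e]
  exact h

theorem der_f (t : ℝ) :
    HasDerivAt (fun t => PP (k + 2) (1 - t / ((k : ℝ) + 2)) t) (fP k t) t := by
  have hfun : (fun t => PP (k + 2) (1 - t / ((k : ℝ) + 2)) t) = fun t =>
    cX k t ^ 2 * (((k : ℝ) + 3) * cC k t ^ (k + 3) -
      (cC k t - cX k t ^ 2) * AA (k + 2) (cC k t)) +
    t * (2 * cX k t * (((k : ℝ) + 3) * cC k t ^ (k + 2) - AA (k + 2) (cC k t)) +
      2 * (cX k t ^ 2 * cC k t ^ (k + 2))) + t ^ 2 * (2 * cX k t * cC k t ^ (k + 1)) :=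
    funext fun t => PP_eq k t
  rw [hfun]
  have hX := der_X k t
  have hX2 := der_X2 k t
  have hC := der_C k t
  have hA := der_A k t
  have h3 := der_Q3 k t
  have h2 := der_Q2 k t
  have h1 := der_Q1 k t
  have ht := hasDerivAt_id t
  have ht2 : HasDerivAt (fun t : ℝ => t ^ 2) (2 * t) t := by
    simpa using hasDerivAt_pow 2 t
  have a1 := (hX2.mul ((h3.const_mul ((k : ℝ) + 3)).sub ((hC.sub hX2).mul hA)))
  have a2 := ht.mul (((hX.const_mul 2).mul ((h2.const_mul ((k : ℝ) + 3)).sub hA)).add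
    ((hX2.mul h2).const_mul 2))
  have a3 := ht2.mul ((hX.const_mul 2).mul h1)
  have a4 := (a1.add a2).add a3
  refine (a4.congr_deriv ?_)
  unfold fP
  simp only [id, Pi.mul_apply, Pi.add_apply, Pi.sub_apply]
  ring

theorem der_g (t : ℝ) :
    HasDerivAt (fun t => DD (k + 2) (1 - t / ((k : ℝ) + 2)) t) (gP k t) t := by
  have hfun : (fun t => DD (k + 2) (1 - t / ((k : ℝ) + 2)) t) = fun t =>
    cX k t ^ 2 * cC k t ^ (k + 2) + t * (2 * cX k t * cC k t ^ (k + 1)) :=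
    funext fun t => DD_eq k t
  rw [hfun]
  have hX := der_X k t
  have hX2 := der_X2 k t
  have h2 := der_Q2 k t
  have h1 := der_Q1 k t
  have ht := hasDerivAt_id t
  have a4 := (hX2.mul h2).add (ht.mul ((hX.const_mul 2).mul h1))
  refine (a4.congr_deriv ?_)
  unfold gP
  simp only [id, Pi.mul_apply]
  ring

theorem cX_zero : cX k 0 = 1 := by
  unfold cX
  simp

theorem cC_zero : cC k 0 = (k : ℝ) + 4 := by
  unfold cC
  rw [cX_zero]
  ring

theorem der_fP : HasDerivAt (fP k)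
    (((2 * ((k : ℝ) + 2) ^ 3 + 26 * ((k : ℝ) + 2) ^ 2 + 60 * ((k : ℝ) + 2) + 48) *
      ((k : ℝ) + 4) ^ (k + 1) - (2 * ((k : ℝ) + 2) + 12) * AA (k + 2) ((k : ℝ) + 4)) /
        ((k : ℝ) + 2) ^ 2) 0 := by
  have hX := der_X k 0
  have hX2 := der_X2 k 0
  have hC := der_C k 0
  have hA := der_A k 0
  have h3 := der_Q3 k 0
  have h2 := der_Q2 k 0
  have h1 := der_Q1 k 0
  obtain ⟨d, h0⟩ := der_Q0 k 0
  have ht := hasDerivAt_id (0 : ℝ)
  have ht2 : HasDerivAt (fun t : ℝ => t ^ 2) (2 * 0) 0 := by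
    simpa using hasDerivAt_pow 2 (0 : ℝ)
  -- the building blocks
  have b1 := ((hX.const_mul 2).mul_const (cp k)).mul
    ((h3.const_mul ((k : ℝ) + 3)).sub ((hC.sub hX2).mul hA))
  have b2 := hX2.mul (((((h2.const_mul ((k : ℝ) + 3)).mul_const (2 * cp k)).const_mul
    ((k : ℝ) + 3))).sub
      ((((((hX.const_mul 2).mul_const (cp k)).const_sub (2 * cp k))).mul hA).add
        ((hC.sub hX2).mul ((hA.sub h2).mul_const (2 * cp k)))))
  have b3 := ((hX.const_mul 2).mul ((h2.const_mul ((k : ℝ) + 3)).sub hA)).add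
    ((hX2.mul h2).const_mul 2)
  have b4 := ht.mul (((((h2.const_mul ((k : ℝ) + 3)).sub hA).const_mul (2 * cp k)).add
    ((hX.const_mul 2).mul (((((h1.const_mul ((k : ℝ) + 2)).mul_const (2 * cp k)).const_mul
      ((k : ℝ) + 3))).sub ((hA.sub h2).mul_const (2 * cp k))))).add
    (((((hX.const_mul 2).mul_const (cp k)).mul h2).add
      (hX2.mul ((h1.const_mul ((k : ℝ) + 2)).mul_const (2 * cp k)))).const_mul 2))
  have b5 := (ht.const_mul 2).mul ((hX.const_mul 2).mul h1)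
  have b6 := ht2.mul ((h1.const_mul (2 * cp k)).add
    ((hX.const_mul 2).mul ((h0.const_mul ((k : ℝ) + 1)).mul_const (2 * cp k))))
  have b := ((((b1.add b2).add b3).add b4).add b5).add b6
  refine b.congr_deriv ?_
  simp only [id, Pi.mul_apply, Pi.add_apply, Pi.sub_apply, cX_zero, cC_zero]
  have hk : (k : ℝ) + 2 ≠ 0 := by positivity
  unfold cp
  field_simp
  ring

theorem der_gP : HasDerivAt (gP k)
    ((6 * ((k : ℝ) + 2) + 4) / ((k : ℝ) + 2) ^ 2 * ((k : ℝ) + 4) ^ (k + 1) -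
      4 * ((k : ℝ) + 1) / ((k : ℝ) + 2) * ((k : ℝ) + 4) ^ k) 0 := by
  have hX := der_X k 0
  have hX2 := der_X2 k 0
  have h2 := der_Q2 k 0
  have h1 := der_Q1 k 0
  obtain ⟨d, h0⟩ := der_Q0 k 0
  have ht := hasDerivAt_id (0 : ℝ)
  have b1 := ((hX.const_mul 2).mul_const (cp k)).mul h2
  have b2 := hX2.mul ((h1.const_mul ((k : ℝ) + 2)).mul_const (2 * cp k))
  have b3 := (hX.const_mul 2).mul h1
  have b4 := ht.mul ((h1.const_mul (2 * cp k)).add
    ((hX.const_mul 2).mul ((h0.const_mul ((k : ℝ) + 1)).mul_const (2 * cp k))))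
  have b := ((b1.add b2).add b3).add b4
  refine b.congr_deriv ?_
  simp only [id, Pi.mul_apply, Pi.add_apply, cX_zero, cC_zero]
  have hk : (k : ℝ) + 2 ≠ 0 := by positivity
  unfold cp
  field_simp
  ring

theorem fP_zero : fP k 0 = -(2 * ((k : ℝ) + 4) / ((k : ℝ) + 2)) *
    (((k : ℝ) + 4) ^ (k + 3) - AA (k + 2) ((k : ℝ) + 4)) := by
  have hk : (k : ℝ) + 2 ≠ 0 := by positivity
  unfold fP
  rw [cX_zero, cC_zero]
  unfold cp
  field_simp
  ring

theorem gP_zero : gP k 0 = -(2 / ((k : ℝ) + 2)) * ((k : ℝ) + 4) ^ (k + 2) := by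
  have hk : (k : ℝ) + 2 ≠ 0 := by positivity
  unfold gP
  rw [cX_zero, cC_zero]
  unfold cp
  field_simp
  ring

theorem f_zero : PP (k + 2) (1 - 0 / ((k : ℝ) + 2)) 0 = ((k : ℝ) + 3) *
    (((k : ℝ) + 4) ^ (k + 3) - AA (k + 2) ((k : ℝ) + 4)) := by
  rw [PP_eq, cX_zero, cC_zero]
  ring

theorem g_zero : DD (k + 2) (1 - 0 / ((k : ℝ) + 2)) 0 = ((k : ℝ) + 4) ^ (k + 2) := by
  rw [DD_eq, cX_zero, cC_zero]
  ring

end Curve

theorem comp (m : ℕ) (hm : 5 ≤ m) : ∃ t₀ : ℝ, 0 < t₀ ∧ ∀ t : ℝ, 0 < t → t < t₀ →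
    (PP m (1 - t / m) t) ^ (m + 1) * (DD m 1 0) ^ (m + 2) <
      (PP m 1 0) ^ (m + 1) * (DD m (1 - t / m) t) ^ (m + 2) := by
  obtain ⟨k, rfl⟩ : ∃ k, m = k + 2 := ⟨m - 2, by omega⟩
  have hcast : ((k + 2 : ℕ) : ℝ) = (k : ℝ) + 2 := by push_cast; ring
  have hcast2 : (k : ℝ) + 2 + 2 = k + 4 := by ring
  obtain ⟨hP, ha, hE⟩ := num_E hm rfl rfl
  rw [hcast, hcast2] at hP ha hE
  have hk : (0 : ℝ) ≤ k := Nat.cast_nonneg k
  have hk2 : (k : ℝ) + 2 ≠ 0 := by positivity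
  have hk4 : (k : ℝ) + 4 ≠ 0 := by positivity
  have hPP0 : PP (k + 2) 1 0 = ((k : ℝ) + 3) *
      (((k : ℝ) + 4) ^ (k + 3) - AA (k + 2) ((k : ℝ) + 4)) := by
    have h := f_zero k
    rwa [zero_div, sub_zero] at h
  have hDD0 : DD (k + 2) 1 0 = ((k : ℝ) + 4) ^ (k + 2) := by
    have h := g_zero k
    rwa [zero_div, sub_zero] at h
  have hpow : ((k : ℝ) + 4) ^ (k + 3) = ((k : ℝ) + 4) * ((k : ℝ) + 4) ^ (k + 2) := by ring
  have hpos : 0 < ((k : ℝ) + 4) ^ (k + 3) - AA (k + 2) ((k : ℝ) + 4) := by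
    rw [hpow]
    linarith
  have key := second_ineq (m := (k : ℝ) + 2) (P := ((k : ℝ) + 4) ^ (k + 2))
    (a := AA (k + 2) ((k : ℝ) + 4))
    (f0 := PP (k + 2) 1 0) (f1 := fP k 0)
    (f2 := ((2 * ((k : ℝ) + 2) ^ 3 + 26 * ((k : ℝ) + 2) ^ 2 + 60 * ((k : ℝ) + 2) + 48) *
      ((k : ℝ) + 4) ^ (k + 1) - (2 * ((k : ℝ) + 2) + 12) * AA (k + 2) ((k : ℝ) + 4)) /
        ((k : ℝ) + 2) ^ 2)
    (g0 := DD (k + 2) 1 0) (g1 := gP k 0)
    (g2 := (6 * ((k : ℝ) + 2) + 4) / ((k : ℝ) + 2) ^ 2 * ((k : ℝ) + 4) ^ (k + 1) -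
      4 * ((k : ℝ) + 1) / ((k : ℝ) + 2) * ((k : ℝ) + 4) ^ k)
    (by linarith) hP (by rw [hcast2]; exact ha) (by rw [hcast2]; exact hE)
    (by rw [hPP0, hpow]; ring)
    (by
      rw [fP_zero, hcast2, hpow])
    (by
      rw [hcast2]
      have hm1 : (k : ℝ) + 2 + 1 = k + 3 := by ring
      rw [hm1]
      have hp1 : ((k : ℝ) + 4) ^ (k + 2) = ((k : ℝ) + 4) * ((k : ℝ) + 4) ^ (k + 1) := by ring
      rw [hp1]
      generalize ((k : ℝ) + 4) ^ (k + 1) = q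
      generalize AA (k + 2) ((k : ℝ) + 4) = a
      field_simp
      ring)
    (by rw [hDD0])
    (by rw [gP_zero])
    (by
      rw [hcast2]
      have hp1 : ((k : ℝ) + 4) ^ (k + 2) = ((k : ℝ) + 4) ^ 2 * ((k : ℝ) + 4) ^ k := by ring
      have hp2 : ((k : ℝ) + 4) ^ (k + 1) = ((k : ℝ) + 4) * ((k : ℝ) + 4) ^ k := by ring
      rw [hp1, hp2]
      generalize ((k : ℝ) + 4) ^ k = r
      field_simp
      ring)
  have hDDpos : 0 < DD (k + 2) 1 0 := by rw [hDD0]; exact hP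
  have hPPpos : 0 < PP (k + 2) 1 0 := by
    rw [hPP0]
    exact mul_pos (by positivity) hpos
  obtain ⟨t₀, ht₀, h⟩ := second_order (f := fun t => PP (k + 2) (1 - t / ((k : ℝ) + 2)) t)
    (g := fun t => DD (k + 2) (1 - t / ((k : ℝ) + 2)) t) (k + 2 + 1) (k + 2 + 2)
    (der_f k) (der_g k) (der_fP k) (der_gP k)
    (by
      rw [zero_div, sub_zero]
      exact hPPpos)
    (by
      rw [zero_div, sub_zero]
      exact hDDpos)
    (by
      rw [zero_div, sub_zero, hPP0, hDD0, fP_zero, gP_zero]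
      have hD : ((k : ℝ) + 4) ^ (k + 3) - AA (k + 2) ((k : ℝ) + 4) ≠ 0 := hpos.ne'
      have hPne : ((k : ℝ) + 4) ^ (k + 2) ≠ 0 := hP.ne'
      have hk3 : (k : ℝ) + 3 ≠ 0 := by positivity
      push_cast
      field_simp
      ring)
    (by
      rw [zero_div, sub_zero]
      have e1 : ((k + 2 + 1 : ℕ) : ℝ) = (k : ℝ) + 2 + 1 := by push_cast; ring
      have e2 : ((k + 2 + 2 : ℕ) : ℝ) = (k : ℝ) + 2 + 2 := by push_cast; ring
      rw [e1, e2]
      exact key)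
  refine ⟨t₀, ht₀, fun t h0 h1 => ?_⟩
  have h2 := h t h0 h1
  simp only [zero_div, sub_zero] at h2
  rw [hcast]
  exact h2

end Pool.Agent.H99V
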