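import Pool.Agent.H99V.Num

set_option autoImplicit false

/-!
# `AA m (m + 2)` is small (helper45)
-/

namespace Pool.Agent.H99V

theorem AA_nonneg (m : ℕ) {C : ℝ} (hC : 0 ≤ C) : 0 ≤ AA m C := by
  induction m with
  | zero => simp [AA]
  | succ m ih =>
    change 0 ≤ C ^ (m + 1) + (m + 1) * AA m C
    positivity

theorem AA_add_le (n K : ℕ) {C : ℝ} (hC : (n : ℝ) + K ≤ C) :
    AA (n + K) C ≤ K * C ^ (n + K) + C ^ K * AA n C := by
  have hC0 : 0 ≤ C := le_trans (by positivity) hC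
  induction K with
  | zero => simp
  | succ K ih =>
    have h1 : (n : ℝ) + K ≤ C := by
      push_cast at hC
      linarith
    have h2 := ih h1
    have h3 : AA (n + (K + 1)) C = C ^ (n + K + 1) + ((n + K : ℕ) + 1) * AA (n + K) C := rfl
    have h4 : (((n + K : ℕ) : ℝ) + 1) * AA (n + K) C ≤ C * AA (n + K) C := by
      refine mul_le_mul_of_nonneg_right ?_ (AA_nonneg _ hC0)
      push_cast at hC ⊢
      linarith
    have h5 : C * AA (n + K) C ≤ C * (K * C ^ (n + K) + C ^ K * AA n C) :=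
      mul_le_mul_of_nonneg_left h2 hC0
    rw [h3]
    have h6 : ((K + 1 : ℕ) : ℝ) * C ^ (n + (K + 1)) + C ^ (K + 1) * AA n C =
        C ^ (n + K + 1) + C * (K * C ^ (n + K) + C ^ K * AA n C) := by
      push_cast
      ring
    rw [h6]
    linarith

theorem AA_small (ε : ℝ) (hε : 0 < ε) :
    ∃ m0 : ℕ, ∀ m : ℕ, m0 ≤ m → AA m ((m : ℝ) + 2) ≤ ε * ((m : ℝ) + 2) ^ (m + 1) := by
  obtain ⟨K, hK⟩ := exists_nat_gt (2 / ε)
  obtain ⟨M, hM⟩ := exists_nat_gt (2 * K / ε)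
  refine ⟨max K M, fun m hm => ?_⟩
  have hKm : K ≤ m := (le_max_left _ _).trans hm
  have hMm : M ≤ m := (le_max_right _ _).trans hm
  obtain ⟨n, rfl⟩ : ∃ n, m = n + K := ⟨m - K, by omega⟩
  obtain ⟨C, hC⟩ : ∃ C : ℝ, C = ((n + K : ℕ) : ℝ) + 2 := ⟨_, rfl⟩
  have hC' : C = (n : ℝ) + K + 2 := by
    rw [hC]
    push_cast
    ring
  rw [← hC]
  have hC0 : 0 < C := by
    rw [hC']
    positivity
  have h1 := AA_add_le n K (C := C) (by rw [hC']; linarith)
  have h2 := AA_le n (C := C) (by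
    rw [hC']
    have : (0 : ℝ) ≤ K := Nat.cast_nonneg K
    linarith)
  have h3 : C - n = K + 2 := by
    rw [hC']
    ring
  rw [h3] at h2
  have hK0 : (0 : ℝ) < (K : ℝ) + 2 := by positivity
  -- `1 / (K + 2) ≤ ε / 2`
  have h4 : 1 ≤ ε / 2 * ((K : ℝ) + 2) := by
    have h5 := (div_lt_iff₀ hε).1 hK
    nlinarith
  have h5 : AA n C ≤ ε / 2 * C ^ (n + 1) := by
    have h6 : 0 ≤ AA n C := AA_nonneg n hC0.le
    have h7 : AA n C ≤ ε / 2 * ((K + 2) * AA n C) := by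
      have := mul_le_mul_of_nonneg_right h4 h6
      linarith
    refine h7.trans (mul_le_mul_of_nonneg_left h2 (by positivity))
  have h6 : C ^ K * AA n C ≤ ε / 2 * C ^ (n + K + 1) := by
    have h7 := mul_le_mul_of_nonneg_left h5 (pow_nonneg hC0.le K)
    refine h7.trans (le_of_eq ?_)
    ring
  have h7 : (K : ℝ) ≤ ε / 2 * C := by
    have h8 := (div_lt_iff₀ hε).1 hM
    have h9 : (M : ℝ) ≤ n + K := by exact_mod_cast hMm
    rw [hC']
    nlinarith
  have h8 : (K : ℝ) * C ^ (n + K) ≤ ε / 2 * C ^ (n + K + 1) := by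
    have h9 := mul_le_mul_of_nonneg_right h7 (pow_nonneg hC0.le (n + K))
    refine h9.trans (le_of_eq ?_)
    ring
  calc AA (n + K) C ≤ K * C ^ (n + K) + C ^ K * AA n C := h1
    _ ≤ ε / 2 * C ^ (n + K + 1) + ε / 2 * C ^ (n + K + 1) := add_le_add h8 h6
    _ = ε * C ^ (n + K + 1) := by ring

end Pool.Agent.H99V
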