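import Pool.Agent.D4Q.DsqA
import Pool.Agent.D4Q.Fub

set_option autoImplicit false

/-!
# Second moments of orthogonal sums
-/

namespace Pool.Agent.H99V

open MeasureTheory Matrix Pool.Agent.D4Q

variable {n k : ℕ}

/-- The two parts of a vector. -/
noncomputable def spl (n k : ℕ) :
    (Fin (n + k) → ℝ) ≃ᵐ (Fin n → ℝ) × (Fin k → ℝ) :=
  (MeasurableEquiv.piCongrLeft (fun _ => ℝ) (finSumFinEquiv (m := n) (n := k))).symm.trans
    (MeasurableEquiv.sumPiEquivProdPi fun _ : Fin n ⊕ Fin k => ℝ)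

theorem spl_fst (z : Fin (n + k) → ℝ) (i : Fin n) : (spl n k z).1 i = z (Fin.castAdd k i) := rfl

theorem spl_snd (z : Fin (n + k) → ℝ) (j : Fin k) : (spl n k z).2 j = z (Fin.natAdd n j) := rfl

theorem spl_pres : MeasurePreserving (spl n k) volume volume :=
  (volume_measurePreserving_piCongrLeft (fun _ => ℝ) (finSumFinEquiv (m := n) (n := k))).symm.trans
    (volume_measurePreserving_sumPiEquivProdPi fun _ : Fin n ⊕ Fin k => ℝ)

theorem cube_spl : cube (n + k) = spl n k ⁻¹' (cube n ×ˢ cube k) := by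
  ext z
  simp only [cube, Set.mem_pi, Set.mem_univ, true_imp_iff, Set.mem_preimage, Set.mem_prod,
    spl_fst, spl_snd]
  constructor
  · exact fun h => ⟨fun i => h _, fun j => h _⟩
  · rintro ⟨h1, h2⟩ i
    exact Fin.addCases h1 h2 i

theorem qf_sum (Q : Matrix (Fin n) (Fin n) ℝ) (R : Matrix (Fin k) (Fin k) ℝ)
    (z : Fin (n + k) → ℝ) :
    qf ((Matrix.fromBlocks Q 0 0 R).submatrix finSumFinEquiv.symm finSumFinEquiv.symm) z =
      qf Q (spl n k z).1 + qf R (spl n k z).2 := by
  unfold qf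
  simp only [dotProduct, mulVec]
  rw [← finSumFinEquiv.sum_comp, Fintype.sum_sum_type]
  congr 1
  · refine Finset.sum_congr rfl fun i _ => ?_
    rw [← finSumFinEquiv.sum_comp (g := fun j => _), Fintype.sum_sum_type]
    simp [spl_fst]
  · refine Finset.sum_congr rfl fun i _ => ?_
    rw [← finSumFinEquiv.sum_comp (g := fun j => _), Fintype.sum_sum_type]
    simp [spl_snd]

theorem dsq_sum_le {Q : Matrix (Fin n) (Fin n) ℝ} {R : Matrix (Fin k) (Fin k) ℝ} (hQ : Q.PosDef)
    (hR : R.PosDef) (z : Fin (n + k) → ℝ) :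
    dsq ((Matrix.fromBlocks Q 0 0 R).submatrix finSumFinEquiv.symm finSumFinEquiv.symm) z ≤
      dsq Q (spl n k z).1 + dsq R (spl n k z).2 := by
  obtain ⟨l, hl⟩ := dsq_attained hQ (spl n k z).1
  obtain ⟨m, hm⟩ := dsq_attained hR (spl n k z).2
  have h1 : dsq ((Matrix.fromBlocks Q 0 0 R).submatrix finSumFinEquiv.symm finSumFinEquiv.symm) z ≤
      qf ((Matrix.fromBlocks Q 0 0 R).submatrix finSumFinEquiv.symm finSumFinEquiv.symm)
        (z - ic (Fin.append l m)) := by
    refine ciInf_le ⟨0, ?_⟩ (Fin.append l m)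
    rintro _ ⟨m, rfl⟩
    show 0 ≤ qf _ _
    rw [qf_sum]
    exact add_nonneg (qf_nonneg hQ _) (qf_nonneg hR _)
  refine h1.trans (le_of_eq ?_)
  rw [qf_sum, hl, hm]
  congr 2
  · funext i
    rw [spl_fst]
    simp [ic, spl_fst]
  · funext i
    rw [spl_snd]
    simp [ic, spl_snd]

theorem meas_cube (n : ℕ) : MeasurableSet (cube n) :=
  MeasurableSet.univ_pi fun _ => measurableSet_Ico

theorem FF_sum {Q : Matrix (Fin n) (Fin n) ℝ} {R : Matrix (Fin k) (Fin k) ℝ} (hQ : Q.PosDef)
    (hR : R.PosDef) :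
    IntegrableOn (fun z => dsq Q (spl n k z).1 + dsq R (spl n k z).2) (cube (n + k)) ∧
    ∫ z in cube (n + k), (dsq Q (spl n k z).1 + dsq R (spl n k z).2) = FF Q + FF R := by
  have hv : (volume : Measure ((Fin n → ℝ) × (Fin k → ℝ))) (cube n ×ˢ cube k) = 1 := by
    rw [Measure.volume_eq_prod, Measure.prod_prod, vol_cube, vol_cube, one_mul]
  obtain ⟨C, hC⟩ := dsq_bdd hQ
  obtain ⟨D, hD⟩ := dsq_bdd hR
  have hint : IntegrableOn (fun p : (Fin n → ℝ) × (Fin k → ℝ) => dsq Q p.1 + dsq R p.2)
      (cube n ×ˢ cube k) := by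
    refine Measure.integrableOn_of_bounded (M := C + D) (by rw [hv]; exact ENNReal.one_ne_top)
      ?_ (Filter.Eventually.of_forall fun p => ?_)
    · exact (((dsq_cont hQ).comp continuous_fst).add
        ((dsq_cont hR).comp continuous_snd)).aestronglyMeasurable
    · rw [Real.norm_eq_abs, abs_of_nonneg (add_nonneg (dsq_nonneg hQ _) (dsq_nonneg hR _))]
      exact add_le_add (hC _) (hD _)
  constructor
  · rw [cube_spl]
    exact (spl_pres.integrableOn_comp_preimage (spl n k).measurableEmbedding).2 hint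
  · rw [cube_spl]
    rw [spl_pres.setIntegral_preimage_emb (spl n k).measurableEmbedding
      (fun p : (Fin n → ℝ) × (Fin k → ℝ) => dsq Q p.1 + dsq R p.2) (cube n ×ˢ cube k)]
    rw [Measure.volume_eq_prod] at hint ⊢
    rw [setIntegral_prod _ hint]
    have hf1 : IntegrableOn (dsq Q) (cube n) := by
      refine Measure.integrableOn_of_bounded (M := C) (by rw [vol_cube]; exact ENNReal.one_ne_top)
        (dsq_cont hQ).aestronglyMeasurable (Filter.Eventually.of_forall fun p => ?_)
      rw [Real.norm_eq_abs, abs_of_nonneg (dsq_nonneg hQ _)]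
      exact hC _
    have hf2 : IntegrableOn (dsq R) (cube k) := by
      refine Measure.integrableOn_of_bounded (M := D) (by rw [vol_cube]; exact ENNReal.one_ne_top)
        (dsq_cont hR).aestronglyMeasurable (Filter.Eventually.of_forall fun p => ?_)
      rw [Real.norm_eq_abs, abs_of_nonneg (dsq_nonneg hR _)]
      exact hD _
    have h1 : ∀ x : Fin n → ℝ, ∫ y in cube k, (dsq Q x + dsq R y) = dsq Q x + FF R := by
      intro x
      have hc : Integrable (fun _ : Fin k → ℝ => dsq Q x) (volume.restrict (cube k)) :=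
        integrableOn_const (by rw [vol_cube]; exact ENNReal.one_ne_top)
      rw [integral_add hc hf2,
        setIntegral_const, measureReal_def, vol_cube]
      simp [FF]
    simp only [h1]
    have hc : Integrable (fun _ : Fin n → ℝ => FF R) (volume.restrict (cube n)) :=
      integrableOn_const (by rw [vol_cube]; exact ENNReal.one_ne_top)
    rw [integral_add hf1 hc,
      setIntegral_const, measureReal_def, vol_cube]
    simp [FF]

/-- The second moment of an orthogonal sum. -/
theorem bs_FF' {Q : Matrix (Fin n) (Fin n) ℝ} {R : Matrix (Fin k) (Fin k) ℝ} (hQ : Q.PosDef)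
    (hR : R.PosDef) :
    FF ((Matrix.fromBlocks Q 0 0 R).submatrix (finSumFinEquiv (m := n) (n := k)).symm
      (finSumFinEquiv (m := n) (n := k)).symm) ≤ FF Q + FF R := by
  obtain ⟨h1, h2⟩ := FF_sum hQ hR
  rw [← h2]
  unfold FF
  refine integral_mono_of_nonneg (Filter.Eventually.of_forall fun z => ?_) h1
    (Filter.Eventually.of_forall fun z => dsq_sum_le hQ hR z)
  refine Real.iInf_nonneg fun l => ?_
  rw [qf_sum]
  exact add_nonneg (qf_nonneg hQ _) (qf_nonneg hR _)

end Pool.Agent.H99V
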