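import Pool.Agent.H99V.Frm
import Pool.Agent.H99V.Blf

set_option autoImplicit false

/-!
# Orthogonal sums of forms
-/

namespace Pool.Agent.H99V

open MeasureTheory Matrix Pool.Agent.D4Q Filter Topology

/-- The orthogonal sum of two forms. -/
def bs {n k : ℕ} (Q : Matrix (Fin n) (Fin n) ℝ) (R : Matrix (Fin k) (Fin k) ℝ) :
    Matrix (Fin (n + k)) (Fin (n + k)) ℝ :=
  (Matrix.fromBlocks Q 0 0 R).submatrix finSumFinEquiv.symm finSumFinEquiv.symm

theorem bs_det {n k : ℕ} (Q : Matrix (Fin n) (Fin n) ℝ) (R : Matrix (Fin k) (Fin k) ℝ) :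
    (bs Q R).det = Q.det * R.det := by
  unfold bs
  rw [Matrix.det_submatrix_equiv_self, Matrix.det_fromBlocks_zero₂₁]

theorem bs_fk {n k : ℕ} {Q : Matrix (Fin n) (Fin n) ℝ} {R : Matrix (Fin k) (Fin k) ℝ}
    (hQ : FK Q) (hR : FK R) : FK (bs Q R) := by
  obtain ⟨a1, a2, a3⟩ := hQ
  obtain ⟨b1, b2, b3⟩ := hR
  have key : ∀ s t : Fin n ⊕ Fin k, Matrix.fromBlocks Q 0 0 R s t = Matrix.fromBlocks Q 0 0 R t s := by
    rintro (s | s) (t | t)
    · exact a1 s t
    · rfl
    · rfl
    · exact b1 s t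
  refine ⟨fun i j => key _ _, fun i j hij => ?_, fun i => ?_⟩
  · have h : finSumFinEquiv.symm i ≠ finSumFinEquiv.symm j := fun h =>
      hij (finSumFinEquiv.symm.injective h)
    show Matrix.fromBlocks Q 0 0 R (finSumFinEquiv.symm i) (finSumFinEquiv.symm j) ≤ 0
    generalize finSumFinEquiv.symm i = s at h
    generalize finSumFinEquiv.symm j = t at h
    rcases s with s | s <;> rcases t with t | t
    · exact a2 s t fun h' => h (by rw [h'])
    · exact le_refl _
    · exact le_refl _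
    · exact b2 s t fun h' => h (by rw [h'])
  · have h1 : ∑ j, bs Q R i j =
        ∑ t : Fin n ⊕ Fin k, Matrix.fromBlocks Q 0 0 R (finSumFinEquiv.symm i) t :=
      Equiv.sum_comp finSumFinEquiv.symm
        fun t => Matrix.fromBlocks Q 0 0 R (finSumFinEquiv.symm i) t
    rw [h1, Fintype.sum_sum_type]
    generalize finSumFinEquiv.symm i = s
    rcases s with s | s
    · simpa using a3 s
    · simpa using b3 s

theorem bs_posDef {n k : ℕ} {Q : Matrix (Fin n) (Fin n) ℝ} {R : Matrix (Fin k) (Fin k) ℝ}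
    (hQ : Q.PosDef) (hR : R.PosDef) : (bs Q R).PosDef := by
  have h : (Matrix.fromBlocks Q 0 0 R).PosDef := by
    refine Matrix.PosDef.of_dotProduct_mulVec_pos ?_ fun x hx => ?_
    · rw [Matrix.isHermitian_fromBlocks_iff]
      exact ⟨hQ.1, by simp, by simp, hR.1⟩
    · obtain ⟨y, z, rfl⟩ : ∃ y z, x = Sum.elim y z :=
        ⟨x ∘ Sum.inl, x ∘ Sum.inr, (Sum.elim_comp_inl_inr x).symm⟩
      rw [star_trivial, Matrix.fromBlocks_mulVec, sumElim_dotProduct_sumElim]
      simp only [Matrix.zero_mulVec, add_zero, zero_add, Sum.elim_comp_inl, Sum.elim_comp_inr]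
      by_cases hy : y = 0
      · have hz : z ≠ 0 := fun hz => hx (by rw [hy, hz]; funext s; rcases s with s | s <;> rfl)
        have h1 := hR.dotProduct_mulVec_pos hz
        rw [star_trivial] at h1
        rw [hy]
        simpa using h1
      · have h1 := hQ.dotProduct_mulVec_pos hy
        have h2 := hR.posSemidef.dotProduct_mulVec_nonneg z
        rw [star_trivial] at h1 h2
        linarith
  exact h.submatrix finSumFinEquiv.symm.injective

theorem bs_FF {n k : ℕ} {Q : Matrix (Fin n) (Fin n) ℝ} {R : Matrix (Fin k) (Fin k) ℝ}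
    (hQ : Q.PosDef) (hR : R.PosDef) : FF (bs Q R) ≤ FF Q + FF R := bs_FF' hQ hR

end Pool.Agent.H99V
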