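import Pool.Agent.H99V.Defs

set_option autoImplicit false

/-!
# The family `fam c C = C diag(c) - c c^T`
-/

namespace Pool.Agent.H99V

open MeasureTheory Matrix Pool.Agent.D4Q

variable {n : ℕ}

theorem fam_apply (c : Fin n → ℝ) (C : ℝ) (i j : Fin n) :
    fam c C i j = (if i = j then C * c i else 0) - c i * c j := rfl

/-- The row sums of the family. -/
theorem fam_row (c : Fin n → ℝ) (C : ℝ) (i : Fin n) :
    ∑ j, fam c C i j = c i * (C - ∑ j, c j) := by
  simp only [fam_apply, Finset.sum_sub_distrib, Finset.sum_ite_eq, Finset.mem_univ, if_true]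
  rw [← Finset.mul_sum]
  ring

theorem fam_fk {c : Fin n → ℝ} {C : ℝ} (hc : ∀ i, 0 < c i) (hC : ∑ i, c i < C) :
    FK (fam c C) := by
  refine ⟨fun i j => ?_, fun i j hij => ?_, fun i => ?_⟩
  · by_cases hij : i = j
    · subst hij
      rfl
    · rw [fam_apply, fam_apply, if_neg hij, if_neg fun h => hij h.symm]
      ring
  · rw [fam_apply, if_neg hij]
    have := mul_pos (hc i) (hc j)
    linarith
  · rw [fam_row]
    exact mul_nonneg (hc i).le (by linarith)

/-- The value of a form of the family. -/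
theorem fam_value (c : Fin n → ℝ) (C : ℝ) (x : Fin n → ℝ) :
    x ⬝ᵥ (fam c C *ᵥ x) = C * ∑ i, c i * x i ^ 2 - (∑ i, c i * x i) ^ 2 := by
  have h1 : ∀ i, (fam c C *ᵥ x) i = C * (c i * x i) - c i * ∑ j, c j * x j := by
    intro i
    simp only [Matrix.mulVec, dotProduct, fam_apply, sub_mul, Finset.sum_sub_distrib, ite_mul,
      zero_mul, Finset.sum_ite_eq, Finset.mem_univ, if_true]
    rw [Finset.mul_sum]
    congr 1
    · ring
    · exact Finset.sum_congr rfl fun j _ => by ring
  have h2 : x ⬝ᵥ (fam c C *ᵥ x) =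
      ∑ i, (C * (c i * x i ^ 2) - c i * x i * ∑ j, c j * x j) := by
    unfold dotProduct
    refine Finset.sum_congr rfl fun i _ => ?_
    rw [h1]
    ring
  rw [h2, Finset.sum_sub_distrib, ← Finset.mul_sum, ← Finset.sum_mul]
  ring

theorem fam_posDef {c : Fin n → ℝ} {C : ℝ} (hc : ∀ i, 0 < c i) (hC : ∑ i, c i < C) :
    (fam c C).PosDef := by
  refine Matrix.PosDef.of_dotProduct_mulVec_pos ?_ ?_
  · ext i j
    rw [Matrix.conjTranspose_apply, star_trivial]
    exact (fam_fk hc hC).1 j i
  · intro x hx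
    rw [star_trivial, fam_value]
    obtain ⟨i, hi⟩ := Function.ne_iff.1 hx
    have hpos : 0 < ∑ j, c j * x j ^ 2 := by
      have e1 : 0 < c i * x i ^ 2 := by
        have h0 : x i ≠ 0 := hi
        have := hc i
        positivity
      have e2 : c i * x i ^ 2 ≤ ∑ j, c j * x j ^ 2 :=
        Finset.single_le_sum (f := fun j => c j * x j ^ 2)
          (fun j _ => mul_nonneg (hc j).le (sq_nonneg _)) (Finset.mem_univ i)
      linarith
    have hcs : (∑ j, c j * x j) ^ 2 ≤ (∑ j, c j) * ∑ j, c j * x j ^ 2 :=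
      Finset.sum_sq_le_sum_mul_sum_of_sq_le_mul Finset.univ (fun j _ => (hc j).le)
        (fun j _ => mul_nonneg (hc j).le (sq_nonneg _)) fun j _ => by
          have : (c j * x j) ^ 2 = c j * (c j * x j ^ 2) := by ring
          rw [this]
    have hlt : (∑ j, c j) * ∑ j, c j * x j ^ 2 < C * ∑ j, c j * x j ^ 2 :=
      mul_lt_mul_of_pos_right hC hpos
    linarith

theorem fam_eq_mul (c : Fin n → ℝ) (C : ℝ) :
    fam c C = diagonal c * (Matrix.scalar (Fin n) C - vecMulVec (fun _ => 1) c) := by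
  ext i j
  rw [Matrix.diagonal_mul, Matrix.sub_apply, Matrix.scalar_apply, Matrix.diagonal_apply,
    vecMulVec_apply, fam_apply]
  split_ifs
  · ring
  · ring

theorem fam_det (c : Fin (n + 1) → ℝ) (C : ℝ) :
    (fam c C).det = (∏ i, c i) * C ^ n * (C - ∑ i, c i) := by
  have h1 : (Matrix.scalar (Fin (n + 1)) C - vecMulVec (fun _ => 1) c).det =
      C ^ (n + 1) - (∑ i, c i) * C ^ n := by
    rw [← Matrix.eval_charpoly, Matrix.charpoly_vecMulVec]
    simp [dotProduct]
  rw [fam_eq_mul, det_mul, det_diagonal, h1]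
  ring

theorem fam_del (c : Fin (n + 1) → ℝ) (C : ℝ) (i : Fin (n + 1)) :
    del i (fam c C) = fam (fun j => c (i.succAbove j)) C := by
  ext a b
  unfold del
  rw [Matrix.submatrix_apply, fam_apply, fam_apply]
  simp only [Fin.succAbove_right_inj]

end Pool.Agent.H99V
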