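import Pool.Agent.H99V.Inc
import Pool.Agent.D4Q.DnB

set_option autoImplicit false

/-!
# The closed form
-/

namespace Pool.Agent.H99V

open MeasureTheory Matrix Pool.Agent.D4Q Filter Topology

/-- The derivative of `RR m z`. -/
private noncomputable def odeG (m : ℕ) (z C : ℝ) : ℝ :=
  z * (RR m 1 C + 2 * (z * C ^ (m + 1) * (C - (z + (m + 1))))) +
    (m + 1) * (RR m z C + 2 * (z * C ^ (m + 1) * (C - (z + (m + 1)))))

private theorem ode_AA (m : ℕ) (C : ℝ) : HasDerivAt (AA m) (AA m C - C ^ m) C := by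
  induction m with
  | zero =>
    have h : AA 0 = fun _ : ℝ => (1 : ℝ) := by
      funext x
      simp [AA]
    rw [h]
    simpa using hasDerivAt_const C (1 : ℝ)
  | succ m ih =>
    have h : AA (m + 1) = fun x : ℝ => x ^ (m + 1) + ((m : ℝ) + 1) * AA m x := by
      funext x
      simp [AA]
    have h0 : AA (m + 1) C = C ^ (m + 1) + ((m : ℝ) + 1) * AA m C := by simp [AA]
    have h1 := (hasDerivAt_pow (m + 1) C).add (ih.const_mul ((m : ℝ) + 1))
    have h2 : HasDerivAt (fun x : ℝ => x ^ (m + 1) + ((m : ℝ) + 1) * AA m x)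
        (AA (m + 1) C - C ^ (m + 1)) C := by
      refine HasDerivAt.congr_deriv h1 ?_
      rw [h0, Nat.add_sub_cancel]
      push_cast
      ring
    rw [h]
    rw [h] at h2
    exact h2

private theorem ode_RR (m : ℕ) (z C : ℝ) : HasDerivAt (RR (m + 1) z) (odeG m z C) C := by
  have hd : HasDerivAt (fun x : ℝ => x - z - ((m + 1 : ℕ) : ℝ)) 1 C :=
    ((hasDerivAt_id C).sub_const z).sub_const _
  have hA := ode_AA (m + 1) C
  have hp : HasDerivAt (fun x : ℝ => x ^ (m + 1 + 1)) (((m + 1 + 1 : ℕ) : ℝ) * C ^ (m + 1)) C := by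
    simpa using hasDerivAt_pow (m + 1 + 1) C
  have h1 := (hd.mul_const z)
  have h2 := ((hasDerivAt_id C).sub h1).mul hA
  have h3 := (hp.const_mul (((m + 1 : ℕ) : ℝ) + 1)).sub h2
  have h4 := h1.mul h3
  have h5 : RR (m + 1) z = fun x : ℝ => (x - z - ((m + 1 : ℕ) : ℝ)) * z *
      ((((m + 1 : ℕ) : ℝ) + 1) * x ^ (m + 1 + 1) -
        (x - (x - z - ((m + 1 : ℕ) : ℝ)) * z) * AA (m + 1) x) := by
    funext x
    simp only [RR]
  rw [h5]
  refine HasDerivAt.congr_deriv h4 ?_
  simp only [odeG, RR, AA, id, Pi.sub_apply, Pi.mul_apply]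
  push_cast
  ring

private theorem ode_pos {m : ℕ} {z : ℝ} (hz : 0 < z) (i : Fin (m + 1)) : 0 < cz m z i := by
  refine Fin.cases ?_ (fun j => ?_) i
  · simpa [cz] using hz
  · simp [cz]

private theorem ode_sum (m : ℕ) (z : ℝ) : ∑ i, cz m z i = z + m := by
  rw [Fin.sum_univ_succ]
  simp [cz]

private theorem ode_prod (m : ℕ) (z : ℝ) : ∏ i, cz m z i = z := by
  rw [Fin.prod_univ_succ]
  simp [cz]

private theorem ode_del0 (m : ℕ) (z : ℝ) :
    (fun j => cz (m + 1) z ((0 : Fin (m + 2)).succAbove j)) = cz m 1 := by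
  funext j
  refine Fin.cases ?_ (fun j => ?_) j <;> simp [cz]

private theorem ode_del1 (m : ℕ) (z : ℝ) (k : Fin (m + 1)) :
    (fun j => cz (m + 1) z (k.succ.succAbove j)) = cz m z := by
  funext j
  refine Fin.cases ?_ (fun j => ?_) j
  · simp [cz]
  · rw [Fin.succ_succAbove_succ]
    simp [cz]

private theorem ode_det (m : ℕ) (z C : ℝ) :
    (fam (cz (m + 1) z) C).det = z * C ^ (m + 1) * (C - (z + (m + 1))) := by
  rw [fam_det, ode_prod, ode_sum]
  push_cast
  ring

private theorem ode_sumG {m : ℕ} {z C : ℝ} (hz : 0 < z) (hC : z + (m + 1) < C)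
    (ih : ∀ {z C : ℝ}, 0 < z → z + m < C → P12 (fam (cz m z) C) = RR m z C) :
    ∑ i, cz (m + 1) z i * (P12 (fam (fun j => cz (m + 1) z (i.succAbove j)) C) +
      2 * (fam (cz (m + 1) z) C).det) = odeG m z C := by
  rw [Fin.sum_univ_succ, ode_det, ode_del0]
  simp only [ode_del1]
  rw [ih one_pos (by linarith), ih hz (by linarith)]
  simp [cz, odeG]
  ring

private theorem ode_squeeze {f g K : ℝ → ℝ} {S : ℝ} (hg : ∀ x, S < x → ContinuousAt g x)
    (hK : ∀ x, S < x → ContinuousAt K x)
    (h1 : ∀ x y, S < x → x ≤ y → (y - x) * g x ≤ f y - f x)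
    (h2 : ∀ x y, S < x → x ≤ y → f y - f x ≤ (y - x) * g y + (y - x) ^ 2 * K y) {x : ℝ}
    (hx : S < x) : HasDerivAt f (g x) x := by
  rw [hasDerivAt_iff_tendsto_slope]
  have hgx := (hg x hx).tendsto.mono_left (nhdsWithin_le_nhds (s := {x}ᶜ))
  have hKx := (hK x hx).tendsto.mono_left (nhdsWithin_le_nhds (s := {x}ᶜ))
  have hy : Tendsto (fun y : ℝ => |y - x|) (𝓝[≠] x) (𝓝 0) := by
    have : ContinuousAt (fun y : ℝ => |y - x|) x := by fun_prop
    have h3 := this.tendsto.mono_left (nhdsWithin_le_nhds (s := {x}ᶜ))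
    simpa using h3
  have hlow : Tendsto (fun y => min (g x) (g y)) (𝓝[≠] x) (𝓝 (g x)) := by
    simpa using (tendsto_const_nhds (x := g x)).min hgx
  have hup : Tendsto (fun y => max (g x) (g y) + |y - x| * (|K x| + |K y|)) (𝓝[≠] x)
      (𝓝 (g x)) := by
    have h3 := (tendsto_const_nhds (x := g x)).max hgx
    have h4 := hy.mul ((tendsto_const_nhds (x := |K x|)).add hKx.abs)
    have h5 := h3.add h4
    simpa using h5
  have hS : ∀ᶠ y in 𝓝[≠] x, S < y := (lt_mem_nhds hx).filter_mono nhdsWithin_le_nhds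
  have hne : ∀ᶠ y in 𝓝[≠] x, y ≠ x := self_mem_nhdsWithin
  refine tendsto_of_tendsto_of_tendsto_of_le_of_le' hlow hup ?_ ?_
  · filter_upwards [hS, hne] with y hy1 hy2
    rw [slope_def_field]
    rcases lt_or_gt_of_ne hy2 with h | h
    · have := h1 y x hy1 h.le
      refine (min_le_right _ _).trans ?_
      rw [le_div_iff_of_neg (by linarith)]
      linarith
    · have := h1 x y hx h.le
      refine (min_le_left _ _).trans ?_
      rw [le_div_iff₀ (by linarith)]
      linarith
  · filter_upwards [hS, hne] with y hy1 hy2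
    rw [slope_def_field]
    rcases lt_or_gt_of_ne hy2 with h | h
    · have h3 := h2 y x hy1 h.le
      rw [div_le_iff_of_neg (by linarith), abs_of_neg (by linarith : y - x < 0)]
      have h4 := le_max_left (g x) (g y)
      have h5 := le_abs_self (K x)
      have h6 := abs_nonneg (K y)
      nlinarith [mul_le_mul_of_nonneg_left h4 (by linarith : 0 ≤ x - y),
        mul_le_mul_of_nonneg_left (show K x ≤ |K x| + |K y| by linarith) (sq_nonneg (x - y))]
    · have h3 := h2 x y hx h.le
      rw [div_le_iff₀ (by linarith), abs_of_pos (by linarith : 0 < y - x)]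
      have h4 := le_max_right (g x) (g y)
      have h5 := le_abs_self (K y)
      have h6 := abs_nonneg (K x)
      nlinarith [mul_le_mul_of_nonneg_left h4 (by linarith : 0 ≤ y - x),
        mul_le_mul_of_nonneg_left (show K y ≤ |K x| + |K y| by linarith) (sq_nonneg (y - x))]

theorem closed (m : ℕ) {z C : ℝ} (hz : 0 < z) (hC : z + m < C) :
    P12 (fam (cz m z) C) = RR m z C := by
  induction m generalizing z C with
  | zero =>
    have h0 : z < C := by simpa using hC
    have hg : 0 ≤ C * z - z * z := by nlinarith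
    have h : fam (cz 0 z) C = Matrix.diagonal fun _ : Fin 1 => C * z - z * z := by
      refine Matrix.ext fun (i : Fin 1) (j : Fin 1) => ?_
      have hi : i = 0 := Subsingleton.elim _ _
      have hj : j = 0 := Subsingleton.elim _ _
      subst hi hj
      simp [fam, cz]
    have hd : (Matrix.diagonal fun _ : Fin 1 => C * z - z * z).det = C * z - z * z := by
      simp
    have hF : FF (Matrix.diagonal fun _ : Fin 1 => C * z - z * z) = (C * z - z * z) / 12 := by
      rw [FF_diag fun _ => hg]
      simp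
    rw [h]
    unfold P12
    rw [hd, hF]
    simp only [RR, AA]
    push_cast
    ring
  | succ m ih =>
    have hC' : z + (m + 1) < C := by
      push_cast at hC
      linarith
    have hc := fun i => ode_pos (m := m + 1) hz i
    have hs : ∑ i, cz (m + 1) z i = z + (m + 1) := by
      rw [ode_sum]
      push_cast
      ring
    set S : ℝ := z + (m + 1) with hSdef
    have hRc : ∀ x, ContinuousAt (RR (m + 1) z) x := fun x => (ode_RR m z x).continuousAt
    have hg : ∀ x : ℝ, S < x → ContinuousAt (odeG m z) x := by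
      intro x _
      have hA : ∀ k, Continuous (AA k) := fun k =>
        continuous_iff_continuousAt.2 fun y => (ode_AA k y).continuousAt
      have h1 := hA m
      unfold odeG RR
      exact Continuous.continuousAt (by fun_prop)
    have hder : ∀ x, S < x →
        HasDerivAt (fun y => P12 (fam (cz (m + 1) z) y)) (odeG m z x) x := by
      intro x hx
      refine ode_squeeze (S := S) (K := fun y => ∑ i, cz (m + 1) z i ^ 2 *
        (fam (fun j => cz (m + 1) z (i.succAbove j)) y).det) hg ?_ ?_ ?_ hx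
      · intro y _
        simp only [fam_det]
        exact Continuous.continuousAt (by fun_prop)
      · intro a b ha hab
        rw [← ode_sumG hz ha ih]
        exact inc_ge hc (by rw [hs]; exact ha) hab
      · intro a b ha hab
        rw [← ode_sumG hz (lt_of_lt_of_le ha hab) ih]
        exact inc_le hc (by rw [hs]; exact ha) hab
    have hΔ : ∀ x, S < x →
        HasDerivAt (fun y => P12 (fam (cz (m + 1) z) y) - RR (m + 1) z y) 0 x := by
      intro x hx
      have := (hder x hx).sub (ode_RR m z x)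
      rwa [sub_self] at this
    have hconst : ∀ x, S < x → P12 (fam (cz (m + 1) z) x) - RR (m + 1) z x =
        P12 (fam (cz (m + 1) z) C) - RR (m + 1) z C := by
      intro x hx
      refine IsOpen.is_const_of_deriv_eq_zero (s := Set.Ioi S) (𝕜 := ℝ)
        (f := fun y => P12 (fam (cz (m + 1) z) y) - RR (m + 1) z y) isOpen_Ioi
        isPreconnected_Ioi ?_ ?_ hx hC'
      · exact fun y hy => (hΔ y hy).differentiableAt.differentiableWithinAt
      · exact fun y hy => (hΔ y hy).deriv
    obtain ⟨K, hK⟩ := P12_lim hc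
    rw [hs] at hK
    have hR0 : RR (m + 1) z S = 0 := by
      simp only [RR]
      have : S - z - ((m + 1 : ℕ) : ℝ) = 0 := by
        rw [hSdef]
        push_cast
        ring
      rw [this]
      ring
    have hlim1 : Tendsto (fun y => P12 (fam (cz (m + 1) z) y)) (𝓝[>] S) (𝓝 0) := by
      have hb : Tendsto (fun y => K * (y - S)) (𝓝[>] S) (𝓝 0) := by
        have : ContinuousAt (fun y : ℝ => K * (y - S)) S := by fun_prop
        have h3 := this.tendsto.mono_left (nhdsWithin_le_nhds (s := Set.Ioi S))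
        simpa using h3
      refine squeeze_zero_norm' ?_ hb
      have h1 : ∀ᶠ y in 𝓝[>] S, S < y := self_mem_nhdsWithin
      have h2 : ∀ᶠ y in 𝓝[>] S, y < S + 1 :=
        (gt_mem_nhds (by linarith : S < S + 1)).filter_mono nhdsWithin_le_nhds
      filter_upwards [h1, h2] with y h3 h4
      rw [Real.norm_eq_abs]
      exact hK y h3 h4
    have hlim2 : Tendsto (RR (m + 1) z) (𝓝[>] S) (𝓝 0) := by
      have h3 := (hRc S).tendsto.mono_left (nhdsWithin_le_nhds (s := Set.Ioi S))
      rwa [hR0] at h3
    have hlim3 : Tendsto (fun y => P12 (fam (cz (m + 1) z) y) - RR (m + 1) z y) (𝓝[>] S)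
        (𝓝 0) := by
      simpa using hlim1.sub hlim2
    have hlim4 : Tendsto (fun y => P12 (fam (cz (m + 1) z) y) - RR (m + 1) z y) (𝓝[>] S)
        (𝓝 (P12 (fam (cz (m + 1) z) C) - RR (m + 1) z C)) := by
      refine tendsto_const_nhds.congr' ?_
      have h1 : ∀ᶠ y in 𝓝[>] S, S < y := self_mem_nhdsWithin
      filter_upwards [h1] with y h3
      exact (hconst y h3).symm
    exact sub_eq_zero.1 (tendsto_nhds_unique hlim4 hlim3)

end Pool.Agent.H99V
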