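import Pool.Agent.H99V.Defs

set_option autoImplicit false

/-!
# The packing side: among forms whose inverse is of Voronoi's first kind

For `Q` in the principal domain, `Q = ∑ r i • (x i) ^ 2 + ∑ p i j • (x i - x j) ^ 2` with
nonnegative weights, hence `trace (Q⁻¹ * Q)` is at least `μ` times the sum of the weights, while
`trace ((1 + J) * Q)` is twice the sum of the weights. The inequality of the means bounds the
determinant.
-/

namespace Pool.Agent.H99V

open MeasureTheory Matrix Pool.Agent.D4Q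

variable {n : ℕ}

/-- The inequality of the means for `n + 1` nonnegative numbers. -/
theorem amgm_pow (z : Fin (n + 1) → ℝ) (hz : ∀ i, 0 ≤ z i) :
    ((n : ℝ) + 1) ^ (n + 1) * ∏ i, z i ≤ (∑ i, z i) ^ (n + 1) := by
  have hn : (0 : ℝ) < (n : ℝ) + 1 := by positivity
  have hcard : ∑ _i : Fin (n + 1), (1 : ℝ) = (n : ℝ) + 1 := by simp
  have key := Real.geom_mean_le_arith_mean (Finset.univ : Finset (Fin (n + 1)))
    (fun _ => (1 : ℝ)) z (fun _ _ => zero_le_one) (by rw [hcard]; exact hn) (fun i _ => hz i)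
  rw [hcard] at key
  simp only [Real.rpow_one, one_mul] at key
  have hP : 0 ≤ ∏ i, z i := Finset.prod_nonneg fun i _ => hz i
  have h2 := pow_le_pow_left₀ (Real.rpow_nonneg hP _) key (n + 1)
  have h3 : ((∏ i, z i) ^ ((n : ℝ) + 1)⁻¹) ^ (n + 1) = ∏ i, z i := by
    rw [← Real.rpow_natCast, ← Real.rpow_mul hP]
    push_cast
    rw [inv_mul_cancel₀ hn.ne', Real.rpow_one]
  rw [h3, div_pow, le_div_iff₀ (by positivity)] at h2
  linarith

private theorem exists_sq {A : Matrix (Fin n) (Fin n) ℝ} (hA : A.PosDef) :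
    ∃ B : Matrix (Fin n) (Fin n) ℝ, A = Bᴴ * B := by
  open scoped MatrixOrder Matrix.Norms.L2Operator in
  obtain ⟨B, hB⟩ := CStarAlgebra.nonneg_iff_eq_star_mul_self.mp hA.posSemidef.nonneg
  exact ⟨B, hB⟩

/-- The inequality of the means for the trace of a product of two positive definite matrices. -/
theorem trace_amgm_pow {A Q : Matrix (Fin (n + 1)) (Fin (n + 1)) ℝ} (hA : A.PosDef)
    (hQ : Q.PosDef) :
    ((n : ℝ) + 1) ^ (n + 1) * (A.det * Q.det) ≤ (A * Q).trace ^ (n + 1) := by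
  obtain ⟨B, hB⟩ := exists_sq hA
  have hdA : A.det = B.det * B.det := by
    rw [hB, det_mul, det_conjTranspose, star_trivial]
  have hdB : B.det ≠ 0 := by
    intro h
    have h1 := hA.det_pos
    rw [hdA, h, mul_zero] at h1
    exact lt_irrefl _ h1
  have hu : IsUnit B := (isUnit_iff_isUnit_det B).2 (isUnit_iff_ne_zero.2 hdB)
  have hS : (B * Q * Bᴴ).PosDef := by
    refine hQ.mul_mul_conjTranspose_same ?_
    exact vecMul_injective_of_isUnit hu
  have htr : (B * Q * Bᴴ).trace = (A * Q).trace := by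
    rw [hB, trace_mul_comm, ← Matrix.mul_assoc]
  have hdet : (B * Q * Bᴴ).det = A.det * Q.det := by
    rw [det_mul, det_mul, det_conjTranspose, star_trivial, hdA]
    ring
  have t1 := hS.1.trace_eq_sum_eigenvalues
  have t2 := hS.1.det_eq_prod_eigenvalues
  rw [htr] at t1
  rw [hdet] at t2
  simp only [RCLike.ofReal_real_eq_id, id_eq] at t1 t2
  rw [t1, t2]
  exact amgm_pow _ fun i => (hS.eigenvalues_pos i).le

/-- The decomposition of the trace along the edges. -/
theorem trace_edges {S Q : Matrix (Fin n) (Fin n) ℝ} (hQ : ∀ i j, Q i j = Q j i) :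
    (S * Q).trace = ∑ i, (∑ j, Q i j) * S i i +
      2⁻¹ * ∑ i, ∑ j, (-Q i j) * (S i i + S j j - 2 * S i j) := by
  have h1 : (S * Q).trace = ∑ i, ∑ j, S i j * Q i j := by
    unfold Matrix.trace
    refine Finset.sum_congr rfl fun i _ => ?_
    rw [Matrix.diag_apply, Matrix.mul_apply]
    exact Finset.sum_congr rfl fun j _ => by rw [hQ j i]
  have h2 : ∑ i, ∑ j, Q i j * S j j = ∑ i, ∑ j, Q i j * S i i := by
    rw [Finset.sum_comm]
    refine Finset.sum_congr rfl fun i _ => Finset.sum_congr rfl fun j _ => ?_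
    rw [hQ j i]
  have h3 : ∑ i, ∑ j, (-Q i j) * (S i i + S j j - 2 * S i j) =
      -(∑ i, ∑ j, Q i j * S i i) - (∑ i, ∑ j, Q i j * S j j) +
        2 * ∑ i, ∑ j, S i j * Q i j := by
    rw [← Finset.sum_neg_distrib, ← Finset.sum_sub_distrib, Finset.mul_sum,
      ← Finset.sum_add_distrib]
    refine Finset.sum_congr rfl fun i _ => ?_
    rw [← Finset.sum_neg_distrib, ← Finset.sum_sub_distrib, Finset.mul_sum,
      ← Finset.sum_add_distrib]
    refine Finset.sum_congr rfl fun j _ => ?_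
    ring
  have h4 : ∑ i, (∑ j, Q i j) * S i i = ∑ i, ∑ j, Q i j * S i i := by
    refine Finset.sum_congr rfl fun i _ => ?_
    rw [Finset.sum_mul]
  rw [h1, h3, h2, h4]
  ring

/-- Comparison of two traces, edge by edge. -/
theorem trace_compare {S S' Q : Matrix (Fin n) (Fin n) ℝ} (h : FK Q) {a b : ℝ}
    (h1 : ∀ i, a * S' i i ≤ b * S i i)
    (h2 : ∀ i j, i ≠ j → a * (S' i i + S' j j - 2 * S' i j) ≤ b * (S i i + S j j - 2 * S i j)) :
    a * (S' * Q).trace ≤ b * (S * Q).trace := by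
  obtain ⟨hs, hn, hr⟩ := h
  rw [trace_edges hs, trace_edges hs, mul_add, mul_add]
  refine add_le_add ?_ ?_
  · rw [Finset.mul_sum, Finset.mul_sum]
    refine Finset.sum_le_sum fun i _ => ?_
    have := mul_le_mul_of_nonneg_left (h1 i) (hr i)
    linarith
  · have key : a * ∑ i, ∑ j, (-Q i j) * (S' i i + S' j j - 2 * S' i j) ≤
        b * ∑ i, ∑ j, (-Q i j) * (S i i + S j j - 2 * S i j) := by
      rw [Finset.mul_sum, Finset.mul_sum]
      refine Finset.sum_le_sum fun i _ => ?_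
      rw [Finset.mul_sum, Finset.mul_sum]
      refine Finset.sum_le_sum fun j _ => ?_
      by_cases hij : i = j
      · subst hij
        have e1 : S' i i + S' i i - 2 * S' i i = 0 := by ring
        have e2 : S i i + S i i - 2 * S i i = 0 := by ring
        rw [e1, e2, mul_zero, mul_zero, mul_zero]
      · have := mul_le_mul_of_nonneg_left (h2 i j hij)
          (show 0 ≤ -Q i j by have := hn i j hij; linarith)
        linarith
    linarith

/-- The matrix `1 + J`. -/
def oneJ (n : ℕ) : Matrix (Fin n) (Fin n) ℝ :=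
  Matrix.of fun i j => (if i = j then 1 else 0) + 1

theorem oneJ_eq (n : ℕ) : oneJ n =
    1 + replicateCol Unit (fun _ : Fin n => (1 : ℝ)) *
      replicateRow Unit (fun _ : Fin n => (1 : ℝ)) := by
  ext i j
  simp [oneJ, Matrix.one_apply, Matrix.mul_apply]

theorem oneJ_det (n : ℕ) : (oneJ n).det = (n : ℝ) + 1 := by
  rw [oneJ_eq, det_one_add_replicateCol_mul_replicateRow]
  simp [dotProduct]
  ring

/-- The value of the form `1 + J`. -/
theorem oneJ_qf (x : Fin n → ℝ) : qf (oneJ n) x = ∑ i, x i ^ 2 + (∑ i, x i) ^ 2 := by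
  unfold qf
  have h1 : ∀ i, (oneJ n *ᵥ x) i = x i + ∑ j, x j := by
    intro i
    simp [oneJ, Matrix.mulVec, dotProduct, add_mul, Finset.sum_add_distrib]
  have h2 : x ⬝ᵥ (oneJ n *ᵥ x) = ∑ i, (x i ^ 2 + x i * ∑ j, x j) := by
    unfold dotProduct
    refine Finset.sum_congr rfl fun i _ => ?_
    rw [h1]
    ring
  rw [h2, Finset.sum_add_distrib, ← Finset.sum_mul]
  ring

theorem oneJ_posDef (n : ℕ) : (oneJ n).PosDef := by
  refine Matrix.PosDef.of_dotProduct_mulVec_pos ?_ ?_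
  · ext i j
    simp [oneJ, Matrix.conjTranspose_apply, eq_comm]
  · intro x hx
    have h := oneJ_qf x
    unfold qf at h
    rw [star_trivial, h]
    obtain ⟨i, hi⟩ := Function.ne_iff.1 hx
    have h1 : 0 < x i ^ 2 := by
      have : x i ≠ 0 := hi
      positivity
    have h2 : x i ^ 2 ≤ ∑ j, x j ^ 2 :=
      Finset.single_le_sum (f := fun j => x j ^ 2) (fun j _ => sq_nonneg _) (Finset.mem_univ i)
    have h3 : 0 ≤ (∑ j, x j) ^ 2 := sq_nonneg _
    linarith

private theorem ic_single (i : Fin n) : ic (Pi.single i 1) = Pi.single i (1 : ℝ) := by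
  funext j
  unfold ic
  by_cases h : j = i
  · subst h
    simp
  · simp [Pi.single_eq_of_ne h]

private theorem ic_sub (i j : Fin n) :
    ic (Pi.single i 1 - Pi.single j 1) = Pi.single i (1 : ℝ) - Pi.single j (1 : ℝ) := by
  have h : ic (Pi.single i 1 - Pi.single j 1) = ic (Pi.single i 1) - ic (Pi.single j 1) := by
    funext k
    simp [ic]
  rw [h, ic_single, ic_single]

/-- **The packing bound in the principal domain.** -/
theorem pack_le {Q : Matrix (Fin (n + 1)) (Fin (n + 1)) ℝ} (hQ : Q.PosDef) (h : FK Q) {μ : ℝ}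
    (hμ : 0 ≤ μ) (hm : ∀ l : Fin (n + 1) → ℤ, l ≠ 0 → μ ≤ qf Q⁻¹ (ic l)) :
    μ ^ (n + 1) * ((n + 2) * Q.det) ≤ 2 ^ (n + 1) := by
  have hn : (0 : ℝ) < (n : ℝ) + 1 := by positivity
  have hsymm : ∀ i j, Q⁻¹ i j = Q⁻¹ j i := by
    intro i j
    have h1 : (Q⁻¹)ᵀ = Q⁻¹ := by
      rw [Matrix.transpose_nonsing_inv]
      congr 1
      ext a b
      exact h.1 b a
    exact (congrFun (congrFun h1 j) i)
  have hdiag : ∀ i, μ ≤ Q⁻¹ i i := by
    intro i
    have h1 := hm (Pi.single i 1) (by simp)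
    rw [ic_single] at h1
    unfold qf at h1
    simpa using h1
  have hoff : ∀ i j, i ≠ j → μ ≤ Q⁻¹ i i + Q⁻¹ j j - 2 * Q⁻¹ i j := by
    intro i j hij
    have h1 := hm (Pi.single i 1 - Pi.single j 1) (by
      intro h0
      have := congrFun h0 i
      simp [hij] at this)
    rw [ic_sub] at h1
    unfold qf at h1
    have e : (Pi.single i (1 : ℝ) - Pi.single j (1 : ℝ)) ⬝ᵥ
        (Q⁻¹ *ᵥ (Pi.single i (1 : ℝ) - Pi.single j (1 : ℝ))) =
        Q⁻¹ i i + Q⁻¹ j j - 2 * Q⁻¹ i j := by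
      rw [Matrix.mulVec_sub, sub_dotProduct, dotProduct_sub, dotProduct_sub]
      simp only [single_one_dotProduct, mulVec_single_one, Matrix.col_apply]
      rw [hsymm j i]
      ring
    rw [e] at h1
    exact h1
  have htr : μ * (oneJ (n + 1) * Q).trace ≤ 2 * (Q⁻¹ * Q).trace := by
    refine trace_compare h ?_ ?_
    · intro i
      have : oneJ (n + 1) i i = 2 := by
        simp [oneJ]
        norm_num
      rw [this]
      have := hdiag i
      linarith
    · intro i j hij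
      have e1 : oneJ (n + 1) i i = 2 := by
        simp [oneJ]
        norm_num
      have e2 : oneJ (n + 1) j j = 2 := by
        simp [oneJ]
        norm_num
      have e3 : oneJ (n + 1) i j = 1 := by
        simp [oneJ, hij]
      rw [e1, e2, e3]
      have := hoff i j hij
      linarith
  have hI : (Q⁻¹ * Q).trace = (n : ℝ) + 1 := by
    rw [Matrix.nonsing_inv_mul Q (isUnit_iff_ne_zero.2 hQ.det_pos.ne')]
    simp
  rw [hI] at htr
  have hag := trace_amgm_pow (oneJ_posDef (n + 1)) hQ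
  rw [oneJ_det] at hag
  push_cast at hag
  have hge : 0 ≤ (oneJ (n + 1) * Q).trace := by
    by_contra hneg
    push Not at hneg
    have h1 : (0 : ℝ) < ((n : ℝ) + 1) ^ (n + 1) * ((n + 1 + 1) * Q.det) := by
      have := hQ.det_pos
      positivity
    have h2 : (oneJ (n + 1) * Q).trace = ∑ i, (∑ j, Q i j) * oneJ (n + 1) i i +
      2⁻¹ * ∑ i, ∑ j, (-Q i j) * (oneJ (n + 1) i i + oneJ (n + 1) j j -
        2 * oneJ (n + 1) i j) := trace_edges h.1
    have h3 : 0 ≤ ∑ i, (∑ j, Q i j) * oneJ (n + 1) i i := by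
      refine Finset.sum_nonneg fun i _ => mul_nonneg (h.2.2 i) ?_
      simp [oneJ]
    have h4 : 0 ≤ ∑ i, ∑ j, (-Q i j) * (oneJ (n + 1) i i + oneJ (n + 1) j j -
        2 * oneJ (n + 1) i j) := by
      refine Finset.sum_nonneg fun i _ => Finset.sum_nonneg fun j _ => ?_
      by_cases hij : i = j
      · subst hij
        have e : oneJ (n + 1) i i + oneJ (n + 1) i i - 2 * oneJ (n + 1) i i = 0 := by ring
        rw [e, mul_zero]
      · refine mul_nonneg (by have := h.2.1 i j hij; linarith) ?_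
        simp [oneJ, hij]
        norm_num
    linarith
  have hpow : (μ * (oneJ (n + 1) * Q).trace) ^ (n + 1) ≤ (2 * ((n : ℝ) + 1)) ^ (n + 1) :=
    pow_le_pow_left₀ (mul_nonneg hμ hge) htr _
  rw [mul_pow, mul_pow] at hpow
  have hmul := mul_le_mul_of_nonneg_left hag (pow_nonneg hμ (n + 1))
  have hfin : ((n : ℝ) + 1) ^ (n + 1) * (μ ^ (n + 1) * ((n + 2) * Q.det)) ≤
      ((n : ℝ) + 1) ^ (n + 1) * 2 ^ (n + 1) := by
    calc ((n : ℝ) + 1) ^ (n + 1) * (μ ^ (n + 1) * ((n + 2) * Q.det)) =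
        μ ^ (n + 1) * (((n : ℝ) + 1) ^ (n + 1) * ((n + 1 + 1) * Q.det)) := by ring
      _ ≤ μ ^ (n + 1) * (oneJ (n + 1) * Q).trace ^ (n + 1) := hmul
      _ ≤ 2 ^ (n + 1) * ((n : ℝ) + 1) ^ (n + 1) := hpow
      _ = ((n : ℝ) + 1) ^ (n + 1) * 2 ^ (n + 1) := by ring
  exact le_of_mul_le_mul_left hfin (by positivity)

/-- the form of the polar of the root lattice -/
def star (n : ℕ) (κ : ℝ) : Matrix (Fin (n + 1)) (Fin (n + 1)) ℝ :=
  Matrix.of fun i j => if i = j then (n + 1) * κ else -κ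

theorem star_mul_oneJ (n : ℕ) (κ : ℝ) :
    star n κ * oneJ (n + 1) = ((n + 2) * κ) • (1 : Matrix (Fin (n + 1)) (Fin (n + 1)) ℝ) := by
  ext i j
  have h1 : ∀ k, star n κ i k = (if i = k then (n + 2) * κ else 0) - κ := by
    intro k
    by_cases hik : i = k
    · simp only [star, Matrix.of_apply, hik, if_true]
      ring
    · simp only [star, Matrix.of_apply, hik, if_false]
      ring
  have h2 : ∀ k, oneJ (n + 1) k j = (if k = j then 1 else 0) + 1 := fun k => rfl
  rw [Matrix.mul_apply]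
  simp only [h1, h2]
  have h3 : ∑ k, ((if i = k then ((n : ℝ) + 2) * κ else 0) - κ) * ((if k = j then 1 else 0) + 1) =
      ∑ k, (((if i = k then ((n : ℝ) + 2) * κ else 0) * (if k = j then 1 else 0)) +
        (if i = k then ((n : ℝ) + 2) * κ else 0) - (if k = j then κ else 0) - κ) := by
    refine Finset.sum_congr rfl fun k _ => ?_
    by_cases hkj : k = j
    · simp only [hkj, if_true]
      ring
    · simp only [hkj, if_false]
      ring
  rw [h3]
  simp only [Finset.sum_sub_distrib, Finset.sum_add_distrib]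
  by_cases hij : i = j
  · subst hij
    simp
    ring
  · simp [hij]
    ring

theorem star_det (n : ℕ) (κ : ℝ) : (star n κ).det = κ ^ (n + 1) * (n + 2) ^ n := by
  have h1 := congrArg Matrix.det (star_mul_oneJ n κ)
  rw [det_mul, oneJ_det, det_smul, det_one, Fintype.card_fin, mul_one, mul_pow] at h1
  push_cast at h1
  have hn : (0 : ℝ) < (n : ℝ) + 2 := by positivity
  have h2 : (star n κ).det * ((n : ℝ) + 2) = κ ^ (n + 1) * (n + 2) ^ n * (n + 2) := by
    calc (star n κ).det * ((n : ℝ) + 2) = (star n κ).det * (n + 1 + 1) := by ring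
      _ = (n + 2) ^ (n + 1) * κ ^ (n + 1) := h1
      _ = κ ^ (n + 1) * (n + 2) ^ n * (n + 2) := by ring
  exact mul_right_cancel₀ hn.ne' h2

theorem star_inv (n : ℕ) {κ : ℝ} (hκ : 0 < κ) :
    (star n κ)⁻¹ = ((n + 2) * κ)⁻¹ • oneJ (n + 1) := by
  have hc : ((n : ℝ) + 2) * κ ≠ 0 := by positivity
  refine Matrix.inv_eq_right_inv ?_
  rw [Matrix.mul_smul, star_mul_oneJ, smul_smul, inv_mul_cancel₀ hc, one_smul]

theorem star_min (n : ℕ) {κ : ℝ} (hκ : 0 < κ) {l : Fin (n + 1) → ℤ} (hl : l ≠ 0) :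
    2 / ((n + 2) * κ) ≤ qf (star n κ)⁻¹ (ic l) := by
  rw [star_inv n hκ]
  have h1 : qf (((n + 2) * κ)⁻¹ • oneJ (n + 1)) (ic l) =
      ((n + 2) * κ)⁻¹ * qf (oneJ (n + 1)) (ic l) := by
    unfold qf
    rw [Matrix.smul_mulVec, dotProduct_smul, smul_eq_mul]
  rw [h1, oneJ_qf, div_eq_mul_inv, mul_comm]
  refine mul_le_mul_of_nonneg_left ?_ (by positivity)
  have h2 : ∑ i, ic l i ^ 2 + (∑ i, ic l i) ^ 2 =
      ((∑ i, l i ^ 2 + (∑ i, l i) ^ 2 : ℤ) : ℝ) := by
    push_cast
    rfl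
  rw [h2]
  have hpos : 0 < ∑ i, l i ^ 2 + (∑ i, l i) ^ 2 := by
    obtain ⟨i, hi⟩ := Function.ne_iff.1 hl
    have e1 : 0 < l i ^ 2 := by
      have : l i ≠ 0 := hi
      positivity
    have e2 : l i ^ 2 ≤ ∑ j, l j ^ 2 :=
      Finset.single_le_sum (f := fun j => l j ^ 2) (fun j _ => sq_nonneg _) (Finset.mem_univ i)
    have e3 : 0 ≤ (∑ j, l j) ^ 2 := sq_nonneg _
    linarith
  have hev : Even (∑ i, l i ^ 2 + (∑ i, l i) ^ 2) := by
    have f1 : Even (∑ i, l i ^ 2 - ∑ i, l i) := by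
      rw [← Finset.sum_sub_distrib]
      refine Finset.even_sum _ fun i _ => ?_
      have : l i ^ 2 - l i = l i * (l i - 1) := by ring
      rw [this]
      exact Int.even_mul_pred_self (l i)
    have f2 : Even ((∑ i, l i) ^ 2 + ∑ i, l i) := by
      have : (∑ i, l i) ^ 2 + ∑ i, l i = (∑ i, l i) * ((∑ i, l i) + 1) := by ring
      rw [this]
      exact Int.even_mul_succ_self _
    have f3 := f1.add f2
    have : ∑ i, l i ^ 2 - ∑ i, l i + ((∑ i, l i) ^ 2 + ∑ i, l i) =
        ∑ i, l i ^ 2 + (∑ i, l i) ^ 2 := by ring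
    rwa [this] at f3
  obtain ⟨r, hr⟩ := hev
  have : (2 : ℤ) ≤ ∑ i, l i ^ 2 + (∑ i, l i) ^ 2 := by omega
  exact_mod_cast this

end Pool.Agent.H99V
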