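import Pool.Agent.H99V.Defs

set_option autoImplicit false

/-!
# The packing inequality in the principal domain and the case of equality
-/

namespace Pool.Agent.H99V.P2

open Matrix Pool.Agent.D4Q

variable {n : ℕ}

/-- The inequality of the means with the case of equality. -/
private theorem amgm {m : ℕ} (hm : 0 < m) (z : Fin m → ℝ) (hz : ∀ i, 0 < z i) :
    (m : ℝ) ^ m * ∏ i, z i ≤ (∑ i, z i) ^ m ∧
      ((m : ℝ) ^ m * ∏ i, z i = (∑ i, z i) ^ m → ∀ i, z i = (∑ i, z i) / m) := by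
  have : Nonempty (Fin m) := ⟨⟨0, hm⟩⟩
  have hm' : (0 : ℝ) < m := by exact_mod_cast hm
  set S : ℝ := ∑ i, z i with hS
  have hS0 : 0 < S := Finset.sum_pos (fun i _ => hz i) Finset.univ_nonempty
  set y : Fin m → ℝ := fun i => m * z i / S with hy
  have hy0 : ∀ i, 0 < y i := fun i => by
    have := hz i
    positivity
  have hprod : ∏ i, y i = (m : ℝ) ^ m * (∏ i, z i) / S ^ m := by
    simp only [hy]
    rw [Finset.prod_div_distrib, Finset.prod_mul_distrib]
    simp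
  have hsum : ∑ i, (y i - 1) = 0 := by
    simp only [hy]
    rw [Finset.sum_sub_distrib, ← Finset.sum_div, ← Finset.mul_sum, ← hS]
    simp only [Finset.sum_const, Finset.card_univ, Fintype.card_fin, nsmul_eq_mul, mul_one]
    field_simp
    ring
  have hlog : Real.log (∏ i, y i) = ∑ i, Real.log (y i) :=
    Real.log_prod fun i _ => (hy0 i).ne'
  have hle : ∀ i, Real.log (y i) ≤ y i - 1 := fun i => Real.log_le_sub_one_of_pos (hy0 i)
  have hpos : 0 < ∏ i, y i := Finset.prod_pos fun i _ => hy0 i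
  have h1 : ∏ i, y i ≤ 1 := by
    rw [← Real.log_nonpos_iff hpos.le, hlog, ← hsum]
    exact Finset.sum_le_sum fun i _ => hle i
  constructor
  · rw [hprod, div_le_one (by positivity)] at h1
    exact h1
  · intro h
    have h2 : ∏ i, y i = 1 := by
      rw [hprod, h]
      exact div_self (by positivity)
    have h3 : ∑ i, Real.log (y i) = ∑ i, (y i - 1) := by
      rw [← hlog, h2, Real.log_one, hsum]
    have h4 := (Finset.sum_eq_sum_iff_of_le fun i _ => hle i).1 h3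
    intro i
    have h5 := h4 i (Finset.mem_univ i)
    have h6 : y i = 1 := by
      by_contra hne
      exact absurd h5 (Real.log_lt_sub_one_of_pos (hy0 i) hne).ne
    have h7 : m * z i / S = 1 := h6
    rw [div_eq_one_iff_eq hS0.ne'] at h7
    rw [eq_div_iff hm'.ne', ← h7]
    ring

private theorem exists_sq {A : Matrix (Fin (n + 1)) (Fin (n + 1)) ℝ} (hA : A.PosDef) :
    ∃ B : Matrix (Fin (n + 1)) (Fin (n + 1)) ℝ, A = Bᴴ * B := by
  open scoped MatrixOrder Matrix.Norms.L2Operator in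
  obtain ⟨B, hB⟩ := CStarAlgebra.nonneg_iff_eq_star_mul_self.mp hA.posSemidef.nonneg
  exact ⟨B, hB⟩

/-- Trace inequality for two positive definite matrices, with the case of equality. -/
theorem trace_amgm {A Q : Matrix (Fin (n + 1)) (Fin (n + 1)) ℝ} (hA : A.PosDef)
    (hQ : Q.PosDef) :
    ((n : ℝ) + 1) ^ (n + 1) * (A.det * Q.det) ≤ (A * Q).trace ^ (n + 1) ∧
      (((n : ℝ) + 1) ^ (n + 1) * (A.det * Q.det) = (A * Q).trace ^ (n + 1) →
        ∃ c : ℝ, 0 < c ∧ Q = c • A⁻¹) := by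
  obtain ⟨B, hB⟩ := exists_sq hA
  have hdA : A.det = B.det * B.det := by
    rw [hB, det_mul, det_conjTranspose, star_trivial]
  have hdB : B.det ≠ 0 := by
    intro h
    have h1 := hA.det_pos
    rw [hdA, h, mul_zero] at h1
    exact lt_irrefl _ h1
  have hu : IsUnit B := (isUnit_iff_isUnit_det B).2 (isUnit_iff_ne_zero.2 hdB)
  have hS : (B * Q * Bᴴ).PosDef := by
    refine hQ.mul_mul_conjTranspose_same ?_
    exact vecMul_injective_of_isUnit hu
  have htr : (B * Q * Bᴴ).trace = (A * Q).trace := by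
    rw [hB, trace_mul_comm, ← Matrix.mul_assoc]
  have hdet : (B * Q * Bᴴ).det = A.det * Q.det := by
    rw [det_mul, det_mul, det_conjTranspose, star_trivial, hdA]
    ring
  have t1 := hS.1.trace_eq_sum_eigenvalues
  have t2 := hS.1.det_eq_prod_eigenvalues
  rw [htr] at t1
  rw [hdet] at t2
  simp only [RCLike.ofReal_real_eq_id, id_eq] at t1 t2
  have hp := hS.eigenvalues_pos
  have key := amgm (Nat.succ_pos n) hS.1.eigenvalues hp
  rw [← t1, ← t2] at key
  push_cast at key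
  refine ⟨key.1, fun h => ?_⟩
  have e1 := key.2 h
  obtain ⟨c, hc⟩ : ∃ c, c = (A * Q).trace / ((n : ℝ) + 1) := ⟨_, rfl⟩
  rw [← hc] at e1
  have hc0 : 0 < c := by
    rw [← e1 0]
    exact hp 0
  refine ⟨c, hc0, ?_⟩
  have hsp := hS.1.spectral_theorem
  have hdiag : (diagonal (RCLike.ofReal ∘ hS.1.eigenvalues) :
      Matrix (Fin (n + 1)) (Fin (n + 1)) ℝ) =
      c • (1 : Matrix (Fin (n + 1)) (Fin (n + 1)) ℝ) := by
    rw [← diagonal_one, ← diagonal_smul]
    congr 1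
    funext i
    simp only [Function.comp_apply, RCLike.ofReal_real_eq_id, id_eq, Pi.smul_apply, smul_eq_mul,
      mul_one]
    exact e1 i
  rw [hdiag, map_smul, map_one] at hsp
  have hBi : B⁻¹ * B = 1 := nonsing_inv_mul B (isUnit_iff_ne_zero.2 hdB)
  have hBh : IsUnit (Bᴴ).det := by
    rw [det_conjTranspose, star_trivial]
    exact isUnit_iff_ne_zero.2 hdB
  have hBi' : Bᴴ * (Bᴴ)⁻¹ = 1 := mul_nonsing_inv _ hBh
  calc Q = (B⁻¹ * B) * Q * (Bᴴ * (Bᴴ)⁻¹) := by rw [hBi, hBi', Matrix.one_mul, Matrix.mul_one]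
    _ = B⁻¹ * (B * Q * Bᴴ) * (Bᴴ)⁻¹ := by simp only [Matrix.mul_assoc]
    _ = c • (B⁻¹ * (Bᴴ)⁻¹) := by
        rw [hsp, Matrix.mul_smul, Matrix.mul_one, Matrix.smul_mul]
    _ = c • A⁻¹ := by rw [hB, Matrix.mul_inv_rev]

/-- The matrix `1 + J`. -/
def oneJ (n : ℕ) : Matrix (Fin (n + 1)) (Fin (n + 1)) ℝ :=
  1 + Matrix.of fun _ _ => 1

/-- The inverse of `1 + J`. -/
noncomputable def oneJi (n : ℕ) : Matrix (Fin (n + 1)) (Fin (n + 1)) ℝ :=
  1 - (1 / ((n : ℝ) + 2)) • Matrix.of fun _ _ => 1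

theorem oneJ_mul (n : ℕ) : oneJ n * oneJi n = 1 := by
  have hJ : (Matrix.of fun _ _ => (1 : ℝ) : Matrix (Fin (n + 1)) (Fin (n + 1)) ℝ) *
      (Matrix.of fun _ _ => (1 : ℝ)) = ((n : ℝ) + 1) • Matrix.of fun _ _ => 1 := by
    ext i j
    simp [Matrix.mul_apply]
  have hn : ((n : ℝ) + 2) ≠ 0 := by positivity
  unfold oneJ oneJi
  rw [mul_sub, mul_one, Matrix.mul_smul, add_mul, one_mul, hJ, ← sub_eq_zero]
  ext i j
  simp only [Matrix.sub_apply, Matrix.add_apply, Matrix.smul_apply, of_apply, smul_eq_mul,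
    Matrix.zero_apply, mul_one]
  field_simp
  ring

theorem oneJ_inv (n : ℕ) : (oneJ n)⁻¹ = oneJi n := Matrix.inv_eq_right_inv (oneJ_mul n)

theorem oneJ_det (n : ℕ) : (oneJ n).det = (n : ℝ) + 2 := by
  have h := Matrix.det_one_add_replicateCol_mul_replicateRow (ι := Unit) (m := Fin (n + 1)) (α := ℝ)
    (fun _ => (1 : ℝ)) (fun _ => (1 : ℝ))
  have e : oneJ n = 1 + replicateCol Unit (fun _ : Fin (n + 1) => (1 : ℝ)) *
      replicateRow Unit (fun _ : Fin (n + 1) => (1 : ℝ)) := by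
    unfold oneJ
    congr 1
    ext i j
    simp [Matrix.mul_apply, replicateCol, replicateRow]
  rw [e, h]
  simp only [dotProduct, mul_one, Finset.sum_const, Finset.card_univ, Fintype.card_fin,
    nsmul_eq_mul]
  push_cast
  ring

theorem oneJ_posDef (n : ℕ) : (oneJ n).PosDef := by
  refine Matrix.PosDef.of_dotProduct_mulVec_pos ?_ fun x hx => ?_
  · ext i j
    simp [oneJ, Matrix.one_apply, eq_comm]
  · have e : star x ⬝ᵥ (oneJ n *ᵥ x) = (∑ i, x i ^ 2) + (∑ i, x i) ^ 2 := by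
      unfold oneJ
      rw [star_trivial, add_mulVec, one_mulVec, dotProduct_add]
      congr 1
      · simp only [dotProduct, sq]
      · simp only [dotProduct, mulVec, of_apply, one_mul]
        rw [← Finset.sum_mul, sq]
    rw [e]
    obtain ⟨i, hi⟩ : ∃ i, x i ≠ 0 := by
      by_contra h
      push Not at h
      exact hx (funext h)
    have h1 : 0 < ∑ i, x i ^ 2 :=
      Finset.sum_pos' (fun i _ => sq_nonneg _) ⟨i, Finset.mem_univ i, by positivity⟩
    positivity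

theorem trace_oneJ (Q : Matrix (Fin (n + 1)) (Fin (n + 1)) ℝ) :
    (oneJ n * Q).trace = Q.trace + ∑ i, ∑ j, Q i j := by
  unfold oneJ
  rw [add_mul, one_mul, trace_add]
  congr 1
  simp only [trace, diag_apply, Matrix.mul_apply, of_apply, one_mul]
  exact Finset.sum_comm

/-- The sum over the edges of `p_e R[w_e]` is the trace of `R Q`. -/
theorem edges {Q : Matrix (Fin (n + 1)) (Fin (n + 1)) ℝ} (hQ : ∀ i j, Q i j = Q j i)
    (R : Matrix (Fin (n + 1)) (Fin (n + 1)) ℝ) :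
    (∑ i, ∑ j, (1 / 2 * -Q i j) * (R i i + R j j - 2 * R i j)) + ∑ i, (∑ j, Q i j) * R i i =
      (R * Q).trace := by
  have h1 : ∑ i, ∑ j, (1 / 2 * -Q i j) * (R i i + R j j - 2 * R i j) =
      - (1 / 2) * (∑ i, ∑ j, Q i j * R i i) - (1 / 2) * (∑ i, ∑ j, Q i j * R j j) +
        ∑ i, ∑ j, Q i j * R i j := by
    simp only [Finset.mul_sum, ← Finset.sum_sub_distrib, ← Finset.sum_add_distrib]
    refine Finset.sum_congr rfl fun i _ => Finset.sum_congr rfl fun j _ => ?_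
    ring
  have h2 : ∑ i, ∑ j, Q i j * R j j = ∑ i, ∑ j, Q i j * R i i := by
    rw [Finset.sum_comm]
    refine Finset.sum_congr rfl fun i _ => Finset.sum_congr rfl fun j _ => ?_
    rw [hQ j i]
  have h3 : ∑ i, (∑ j, Q i j) * R i i = ∑ i, ∑ j, Q i j * R i i :=
    Finset.sum_congr rfl fun i _ => Finset.sum_mul _ _ _
  have h4 : (R * Q).trace = ∑ i, ∑ j, Q i j * R i j := by
    simp only [trace, diag_apply, Matrix.mul_apply]
    refine Finset.sum_congr rfl fun i _ => Finset.sum_congr rfl fun j _ => ?_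
    rw [hQ j i]
    ring
  rw [h1, h2, h3, h4]
  ring

theorem qf_single (R : Matrix (Fin (n + 1)) (Fin (n + 1)) ℝ) (i : Fin (n + 1)) :
    qf R (ic (Pi.single i 1)) = R i i := by
  have e : ic (Pi.single i (1 : ℤ)) = Pi.single i (1 : ℝ) := by
    funext k
    unfold ic
    by_cases h : k = i
    · subst h
      simp
    · simp [h]
  rw [e, qf, mulVec_single_one, single_one_dotProduct]
  rfl

theorem qf_diff {R : Matrix (Fin (n + 1)) (Fin (n + 1)) ℝ} (hR : ∀ i j, R i j = R j i)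
    (i j : Fin (n + 1)) :
    qf R (ic (Pi.single i 1 - Pi.single j 1)) = R i i + R j j - 2 * R i j := by
  have e : ic (Pi.single i (1 : ℤ) - Pi.single j 1) =
      Pi.single i (1 : ℝ) - Pi.single j (1 : ℝ) := by
    funext k
    unfold ic
    simp only [Pi.sub_apply]
    push_cast
    congr 1
    · by_cases h : k = i
      · subst h
        simp
      · simp [h]
    · by_cases h : k = j
      · subst h
        simp
      · simp [h]
  rw [e, qf, mulVec_sub, sub_dotProduct, dotProduct_sub, dotProduct_sub]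
  simp only [mulVec_single_one, single_one_dotProduct]
  show R i i - R i j - (R j i - R j j) = _
  rw [hR j i]
  ring

/-- The trace of `(1 + J) Q` is at most `2 (n + 1) / μ`. -/
theorem trace_le {Q : Matrix (Fin (n + 1)) (Fin (n + 1)) ℝ} (hQ : Q.PosDef) (h : FK Q) {μ : ℝ}
    (hm : ∀ l : Fin (n + 1) → ℤ, l ≠ 0 → μ ≤ qf Q⁻¹ (ic l)) :
    μ * (oneJ n * Q).trace ≤ 2 * (n + 1) := by
  obtain ⟨hs, hoff, hrow⟩ := h
  have hRs : ∀ i j, Q⁻¹ i j = Q⁻¹ j i := by
    intro i j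
    have hT : Qᵀ = Q := by
      ext a b
      exact hs b a
    have h1 : (Q⁻¹)ᵀ = Q⁻¹ := by
      rw [transpose_nonsing_inv, hT]
    calc Q⁻¹ i j = (Q⁻¹)ᵀ j i := rfl
      _ = Q⁻¹ j i := by rw [h1]
  have hdet : IsUnit Q.det := isUnit_iff_ne_zero.2 hQ.det_pos.ne'
  have h1 := edges hs Q⁻¹
  rw [nonsing_inv_mul Q hdet, trace_one, Fintype.card_fin] at h1
  push_cast at h1
  have h2 : ∀ i, μ ≤ Q⁻¹ i i := by
    intro i
    rw [← qf_single Q⁻¹ i]
    refine hm _ ?_
    intro h0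
    have := congrFun h0 i
    simp at this
  have h3 : ∀ i j, i ≠ j → μ ≤ Q⁻¹ i i + Q⁻¹ j j - 2 * Q⁻¹ i j := by
    intro i j hij
    rw [← qf_diff hRs i j]
    refine hm _ ?_
    intro h0
    have := congrFun h0 i
    simp [Pi.single_eq_of_ne hij] at this
  have h4 : μ * ((∑ i, ∑ j, (if i = j then 0 else 1 / 2 * -Q i j)) + ∑ i, ∑ j, Q i j) ≤
      (∑ i, ∑ j, (1 / 2 * -Q i j) * (Q⁻¹ i i + Q⁻¹ j j - 2 * Q⁻¹ i j)) +
        ∑ i, (∑ j, Q i j) * Q⁻¹ i i := by
    rw [mul_add, Finset.mul_sum, Finset.mul_sum]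
    refine add_le_add (Finset.sum_le_sum fun i _ => ?_) (Finset.sum_le_sum fun i _ => ?_)
    · rw [Finset.mul_sum]
      refine Finset.sum_le_sum fun j _ => ?_
      by_cases hij : i = j
      · subst hij
        rw [if_pos rfl, mul_zero]
        refine le_of_eq ?_
        ring
      · rw [if_neg hij, mul_comm]
        refine mul_le_mul_of_nonneg_left (h3 i j hij) ?_
        have := hoff i j hij
        linarith
    · rw [mul_comm]
      exact mul_le_mul_of_nonneg_left (h2 i) (hrow i)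
  have h5 : (∑ i, ∑ j, (if i = j then 0 else 1 / 2 * -Q i j)) + ∑ i, ∑ j, Q i j =
      1 / 2 * (oneJ n * Q).trace := by
    rw [trace_oneJ]
    have e1 : ∀ i, (∑ j, (if i = j then 0 else 1 / 2 * -Q i j)) =
        1 / 2 * Q i i - 1 / 2 * ∑ j, Q i j := by
      intro i
      have e2 : ∀ j, (if i = j then 0 else 1 / 2 * -Q i j) =
          (if i = j then 1 / 2 * Q i j else 0) - 1 / 2 * Q i j := by
        intro j
        by_cases hij : i = j
        · rw [if_pos hij, if_pos hij, sub_self]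
        · rw [if_neg hij, if_neg hij]
          ring
      simp_rw [e2]
      rw [Finset.sum_sub_distrib, Finset.sum_ite_eq, if_pos (Finset.mem_univ i),
        Finset.mul_sum]
    simp_rw [e1]
    rw [Finset.sum_sub_distrib, ← Finset.mul_sum, ← Finset.mul_sum]
    simp only [trace, diag_apply]
    ring
  rw [h1, h5] at h4
  linarith

theorem pack_le' {Q : Matrix (Fin (n + 1)) (Fin (n + 1)) ℝ} (hQ : Q.PosDef) (h : FK Q) {μ : ℝ}
    (hμ : 0 ≤ μ) (hm : ∀ l : Fin (n + 1) → ℤ, l ≠ 0 → μ ≤ qf Q⁻¹ (ic l)) :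
    μ ^ (n + 1) * ((n + 2) * Q.det) ≤ 2 ^ (n + 1) ∧
      (μ ^ (n + 1) * ((n + 2) * Q.det) = 2 ^ (n + 1) →
        ∃ κ : ℝ, 0 < κ ∧ ∀ i j, Q i j = if i = j then (n + 1) * κ else -κ) := by
  have h1 := trace_amgm (oneJ_posDef n) hQ
  rw [oneJ_det] at h1
  have h2 := trace_le hQ h hm
  have hT : 0 ≤ (oneJ n * Q).trace := by
    by_contra h0
    have hQd := hQ.det_pos
    have h3 := h1.1
    rcases Nat.even_or_odd (n + 1) with he | ho
    · exfalso
      have hQt : (oneJ n * Q).trace = Q.trace + ∑ i, ∑ j, Q i j := trace_oneJ Q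
      have hd : 0 ≤ Q.trace := hQ.posSemidef.trace_nonneg
      have hr : 0 ≤ ∑ i, ∑ j, Q i j := Finset.sum_nonneg fun i _ => h.2.2 i
      linarith
    · have := ho.pow_neg (lt_of_not_ge h0)
      have h4 : 0 < ((n : ℝ) + 1) ^ (n + 1) * (((n : ℝ) + 2) * Q.det) := by positivity
      linarith
  have hN : (0 : ℝ) < ((n : ℝ) + 1) ^ (n + 1) := by positivity
  have h3 : (μ * (oneJ n * Q).trace) ^ (n + 1) ≤ (2 * ((n : ℝ) + 1)) ^ (n + 1) :=
    pow_le_pow_left₀ (mul_nonneg hμ hT) h2 _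
  have h4 : μ ^ (n + 1) * (((n : ℝ) + 1) ^ (n + 1) * (((n : ℝ) + 2) * Q.det)) ≤
      μ ^ (n + 1) * (oneJ n * Q).trace ^ (n + 1) :=
    mul_le_mul_of_nonneg_left h1.1 (by positivity)
  rw [mul_pow, mul_pow] at h3
  refine ⟨?_, fun he => ?_⟩
  · have h5 : ((n : ℝ) + 1) ^ (n + 1) * (μ ^ (n + 1) * (((n : ℝ) + 2) * Q.det)) ≤
        ((n : ℝ) + 1) ^ (n + 1) * 2 ^ (n + 1) := by
      linarith
    exact le_of_mul_le_mul_left h5 hN
  · have hμ0 : μ ≠ 0 := by
      rintro rfl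
      rw [zero_pow (Nat.succ_ne_zero n), zero_mul] at he
      exact absurd he (by positivity)
    have hμ1 : 0 < μ ^ (n + 1) := by positivity
    have h5 : ((n : ℝ) + 1) ^ (n + 1) * (((n : ℝ) + 2) * Q.det) =
        (oneJ n * Q).trace ^ (n + 1) := by
      refine le_antisymm h1.1 ?_
      refine le_of_mul_le_mul_left ?_ hμ1
      have e : μ ^ (n + 1) * (((n : ℝ) + 1) ^ (n + 1) * (((n : ℝ) + 2) * Q.det)) =
          ((n : ℝ) + 1) ^ (n + 1) * 2 ^ (n + 1) := by
        rw [← he]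
        ring
      rw [e]
      linarith
    obtain ⟨c, hc, hQc⟩ := h1.2 h5
    rw [oneJ_inv] at hQc
    refine ⟨c / ((n : ℝ) + 2), by positivity, fun i j => ?_⟩
    have hn : ((n : ℝ) + 2) ≠ 0 := by positivity
    rw [hQc]
    unfold oneJi
    simp only [Matrix.sub_apply, Matrix.smul_apply, of_apply, smul_eq_mul, mul_one]
    by_cases hij : i = j
    · subst hij
      rw [if_pos rfl, one_apply_eq]
      field_simp
      ring
    · rw [if_neg hij, one_apply_ne hij]
      field_simp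
      ring

theorem pack_eq {Q : Matrix (Fin (n + 1)) (Fin (n + 1)) ℝ} (hQ : Q.PosDef) (h : FK Q) {μ : ℝ}
    (hμ : 0 ≤ μ) (hm : ∀ l : Fin (n + 1) → ℤ, l ≠ 0 → μ ≤ qf Q⁻¹ (ic l))
    (he : μ ^ (n + 1) * ((n + 2) * Q.det) = 2 ^ (n + 1)) :
    ∃ κ : ℝ, 0 < κ ∧ ∀ i j, Q i j = if i = j then (n + 1) * κ else -κ :=
  (pack_le' hQ h hμ hm).2 he

end Pool.Agent.H99V.P2
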