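import Pool.Agent.H99V.Defs
import Pool.Agent.D4Q.StepA
import Pool.Agent.D4Q.Schur
import Pool.Agent.D4Q.DsqB
import Pool.Agent.D4Q.Lyr

set_option autoImplicit false

/-!
# Voronoi's principal domain and the step at any index
-/

namespace Pool.Agent.H99V

open MeasureTheory Matrix Pool.Agent.D4Q

variable {n : ℕ}

/-- Selling's formula. -/
theorem qf_fk {Q : Matrix (Fin n) (Fin n) ℝ} (h : ∀ i j, Q i j = Q j i) (x : Fin n → ℝ) :
    qf Q x = ∑ i, (∑ j, Q i j) * x i ^ 2 + ∑ i, ∑ j, (-Q i j / 2) * (x i - x j) ^ 2 := by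
  have h1 : ∑ i, ∑ j, (-Q i j / 2) * (x i - x j) ^ 2 =
      ∑ i, ∑ j, (-Q i j / 2) * x i ^ 2 + ∑ i, ∑ j, (-Q i j / 2) * x j ^ 2 +
        ∑ i, ∑ j, Q i j * (x i * x j) := by
    rw [← Finset.sum_add_distrib, ← Finset.sum_add_distrib]
    refine Finset.sum_congr rfl fun i _ => ?_
    rw [← Finset.sum_add_distrib, ← Finset.sum_add_distrib]
    refine Finset.sum_congr rfl fun j _ => ?_
    ring
  have h2 : ∑ i, ∑ j, (-Q i j / 2) * x j ^ 2 = ∑ i, ∑ j, (-Q i j / 2) * x i ^ 2 := by
    rw [Finset.sum_comm]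
    refine Finset.sum_congr rfl fun i _ => Finset.sum_congr rfl fun j _ => ?_
    rw [h j i]
  have h3 : ∑ i, (∑ j, Q i j) * x i ^ 2 + (∑ i, ∑ j, (-Q i j / 2) * x i ^ 2 +
      ∑ i, ∑ j, (-Q i j / 2) * x i ^ 2) = 0 := by
    rw [← Finset.sum_add_distrib, ← Finset.sum_add_distrib]
    refine Finset.sum_eq_zero fun i _ => ?_
    rw [Finset.sum_mul, ← Finset.sum_add_distrib, ← Finset.sum_add_distrib]
    refine Finset.sum_eq_zero fun j _ => ?_
    ring
  have h4 : qf Q x = ∑ i, ∑ j, Q i j * (x i * x j) := by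
    unfold qf dotProduct mulVec dotProduct
    refine Finset.sum_congr rfl fun i _ => ?_
    rw [Finset.mul_sum]
    refine Finset.sum_congr rfl fun j _ => ?_
    ring
  rw [h1, h2, h4]
  linarith

private theorem sq_le_of_mod {a b : ℤ} (h : (2 : ℤ) ∣ a - b) (hb : |b| ≤ 1) :
    (b : ℝ) ^ 2 ≤ (a : ℝ) ^ 2 := by
  have h1 : |b| ≤ |a| := by
    by_cases ha : a = 0
    · have h4 := abs_le.mp hb
      have h5 : b = 0 := by omega
      rw [h5, ha]
    · exact hb.trans (Int.one_le_abs ha)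
  have h2 := sq_le_sq.mpr h1
  exact_mod_cast h2

/-- **Convex layers in the principal domain.** The companion is the vector of parities. -/
theorem layC_fk {Q : Matrix (Fin (n + 1)) (Fin (n + 1)) ℝ} (h : FK Q) : LayC Q := by
  obtain ⟨hs, ho, hr⟩ := h
  intro d hd
  have hv : ∃ v : Fin (n + 1) → ℤ, ∀ i, v i = d i % 2 := ⟨fun i => d i % 2, fun i => rfl⟩
  obtain ⟨v, hv⟩ := hv
  have hb : ∀ i, (2 : ℤ) ∣ d i - v i := by
    intro i
    have h1 := hv i
    omega
  have hc : ∀ i, 0 ≤ v i ∧ v i ≤ 1 := by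
    intro i
    have h1 := hv i
    omega
  refine ⟨v, by rw [hv, hd]; rfl, hb, ?_⟩
  rw [qf_fk hs, qf_fk hs]
  refine add_le_add (Finset.sum_le_sum fun i _ => ?_)
    (Finset.sum_le_sum fun i _ => Finset.sum_le_sum fun j _ => ?_)
  · refine mul_le_mul_of_nonneg_left ?_ (hr i)
    have h1 := hc i
    exact sq_le_of_mod (hb i) (abs_le.mpr ⟨by omega, by omega⟩)
  · by_cases hij : i = j
    · rw [hij]
      simp
    · refine mul_le_mul_of_nonneg_left ?_ (by have := ho i j hij; linarith)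
      have hi := hc i
      have hj := hc j
      have hi' := hb i
      have hj' := hb j
      have h1 := sq_le_of_mod (a := d i - d j) (b := v i - v j) (by omega)
        (abs_le.mpr ⟨by omega, by omega⟩)
      unfold ic
      push_cast at h1 ⊢
      exact h1

theorem fk_del {Q : Matrix (Fin (n + 1)) (Fin (n + 1)) ℝ} (h : FK Q) (i : Fin (n + 1)) :
    FK (del i Q) := by
  obtain ⟨hs, ho, hr⟩ := h
  refine ⟨fun a b => hs _ _, fun a b hab => ho _ _ fun h1 => hab ?_, fun a => ?_⟩
  · exact Fin.succAbove_right_injective h1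
  · have h1 := hr (i.succAbove a)
    rw [Fin.sum_univ_succAbove _ i] at h1
    have h2 := ho (i.succAbove a) i (Fin.succAbove_ne i a)
    have h3 : ∑ j, del i Q a j = ∑ j, Q (i.succAbove a) (i.succAbove j) := rfl
    rw [h3]
    linarith

private theorem Ei_apply (i a b : Fin n) : Ei i a b = if a = i ∧ b = i then 1 else 0 := rfl

theorem fk_add {Q : Matrix (Fin n) (Fin n) ℝ} (h : FK Q) (i : Fin n) {t : ℝ} (ht : 0 ≤ t) :
    FK (Q + t • Ei i) := by
  obtain ⟨hs, ho, hr⟩ := h
  refine ⟨fun a b => ?_, fun a b hab => ?_, fun a => ?_⟩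
  · rw [Matrix.add_apply, Matrix.add_apply, Matrix.smul_apply, Matrix.smul_apply, hs a b,
      Ei_apply, Ei_apply]
    simp only [and_comm]
  · rw [Matrix.add_apply, Matrix.smul_apply, Ei_apply, if_neg, smul_zero, add_zero]
    · exact ho a b hab
    · rintro ⟨h1, h2⟩
      exact hab (h1.trans h2.symm)
  · have h1 : ∀ j, 0 ≤ t • Ei i a j := by
      intro j
      rw [Ei_apply]
      split_ifs
      · simpa using ht
      · simp
    simp only [Matrix.add_apply, Matrix.smul_apply, Finset.sum_add_distrib]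
    exact add_nonneg (hr a) (Finset.sum_nonneg fun j _ => h1 j)

private theorem Ei_eq (i : Fin n) : Ei i = Matrix.diagonal fun j => if j = i then (1 : ℝ) else 0 := by
  ext a b
  rw [Ei_apply, Matrix.diagonal_apply]
  by_cases hab : a = b
  · subst hab
    simp
  · rw [if_neg hab, if_neg]
    rintro ⟨h1, h2⟩
    exact hab (h1.trans h2.symm)

theorem posDef_add {Q : Matrix (Fin n) (Fin n) ℝ} (h : Q.PosDef) (i : Fin n) {t : ℝ}
    (ht : 0 ≤ t) : (Q + t • Ei i).PosDef := by
  refine h.add_posSemidef (Matrix.PosSemidef.smul ?_ ht)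
  rw [Ei_eq]
  refine Matrix.PosSemidef.diagonal fun j => ?_
  dsimp only [Pi.zero_apply]
  split_ifs <;> norm_num

theorem posDef_del {Q : Matrix (Fin (n + 1)) (Fin (n + 1)) ℝ} (h : Q.PosDef) (i : Fin (n + 1)) :
    (del i Q).PosDef := by
  exact h.submatrix Fin.succAbove_right_injective

/-- The numbering which lists `i` first. -/
private def ee (i : Fin (n + 1)) : Fin (n + 1) ≃ Fin (n + 1) := (Fin.cycleRange i).symm

private theorem ee_zero (i : Fin (n + 1)) : ee i 0 = i := Fin.cycleRange_symm_zero i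

private theorem ee_succ (i : Fin (n + 1)) (j : Fin n) : ee i j.succ = i.succAbove j :=
  Fin.cycleRange_symm_succ i j

private theorem low_sub (Q : Matrix (Fin (n + 1)) (Fin (n + 1)) ℝ) (i : Fin (n + 1)) :
    low (Q.submatrix (ee i) (ee i)) = del i Q := by
  ext a b
  unfold low del
  rw [Matrix.submatrix_apply, Matrix.submatrix_apply, Matrix.submatrix_apply, ee_succ, ee_succ]

private theorem add_sub (Q : Matrix (Fin (n + 1)) (Fin (n + 1)) ℝ) (i : Fin (n + 1)) (t : ℝ) :
    (Q + t • Ei i).submatrix (ee i) (ee i) = Q.submatrix (ee i) (ee i) + t • E00 n := by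
  ext a b
  have h1 : ∀ c : Fin (n + 1), ee i c = i ↔ c = 0 := by
    intro c
    constructor
    · intro hc
      exact (ee i).injective (hc.trans (ee_zero i).symm)
    · rintro rfl
      exact ee_zero i
  unfold E00
  rw [Matrix.submatrix_apply, Matrix.add_apply, Matrix.add_apply, Matrix.smul_apply,
    Matrix.smul_apply, Matrix.submatrix_apply, Ei_apply, Matrix.of_apply]
  simp only [h1]

theorem det_add {Q : Matrix (Fin (n + 1)) (Fin (n + 1)) ℝ} (i : Fin (n + 1)) (t : ℝ) :
    (Q + t • Ei i).det = Q.det + t * (del i Q).det := by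
  rw [← Matrix.det_submatrix_equiv_self (ee i) (Q + t • Ei i), add_sub, det_E00, low_sub,
    Matrix.det_submatrix_equiv_self]

theorem fk_perm {Q : Matrix (Fin n) (Fin n) ℝ} (h : FK Q) (e : Fin n ≃ Fin n) :
    FK (Q.submatrix e e) := by
  obtain ⟨hs, ho, hr⟩ := h
  refine ⟨fun a b => hs _ _, fun a b hab => ho _ _ fun h1 => hab (e.injective h1), fun a => ?_⟩
  have h1 : ∑ j, Q.submatrix e e a j = ∑ j, Q (e a) j :=
    Equiv.sum_comp e fun j => Q (e a) j
  rw [h1]
  exact hr _

/-- **The step at the index `i`.** -/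
theorem P12_add {Q : Matrix (Fin (n + 1)) (Fin (n + 1)) ℝ} (hQ : Q.PosDef) (h : FK Q)
    (i : Fin (n + 1)) {t : ℝ} (ht : 0 ≤ t) :
    P12 (Q + t • Ei i) = P12 Q + t * (P12 (del i Q) + 2 * Q.det) + t ^ 2 * (del i Q).det := by
  have h1 : (Q.submatrix (ee i) (ee i)).PosDef := hQ.submatrix (ee i).injective
  have h2 : LayC (Q.submatrix (ee i) (ee i)) := layC_fk (fk_perm h _)
  have h3 := stepA h1 h2 ht
  rw [← add_sub, Matrix.det_submatrix_equiv_self, FF_perm, Matrix.det_submatrix_equiv_self,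
    FF_perm, low_sub] at h3
  unfold P12
  linear_combination 12 * h3

end Pool.Agent.H99V
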