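import Pool.Agent.H99V.Lat
import Pool.Agent.H99V.Step
import Pool.Agent.H99V.Fam
import Pool.Agent.H99V.Ode
import Pool.Agent.H99V.Ana2
import Pool.Agent.H99V.Pack
import Pool.Agent.H99V.Pack2

set_option autoImplicit false

/-!
# The densest polars in the class
-/

namespace Pool.Agent.H99V

open MeasureTheory Matrix Pool.Agent.D4Q Filter Topology

variable {m : ℕ}

/-- Some nonzero vector of `M'` is not longer than any nonzero vector of `M`. -/
def MinLe {n : ℕ} (M' M : Submodule ℤ (EuclideanSpace ℝ (Fin n))) : Prop :=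
  ∃ w ∈ M', w ≠ 0 ∧ ∀ u ∈ M, u ≠ 0 → ‖w‖ ≤ ‖u‖

/-- The form of a lattice similar to the polar of `A_n`. -/
theorem aStar_form {L : Submodule ℤ (EuclideanSpace ℝ (Fin (m + 1)))} [DiscreteTopology L]
    [IsZLattice ℝ L] (hL : ZLattice.covolume L = 1) (h : IsAStar L) :
    ∃ κ : ℝ, 0 < κ ∧ HasForm L (star m κ) ∧ (star m κ).det = 1 := by
  obtain ⟨v, κ, hv, hκ⟩ := h
  have hf := form_of_super hv
  have hs : (Matrix.of fun i j : Fin (m + 1) => (inner ℝ (v i.succ) (v j.succ) : ℝ)) =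
      star m κ := by
    ext i j
    unfold star
    simp only [Matrix.of_apply]
    by_cases hij : i = j
    · rw [if_pos hij, hij]
      have h1 : (inner ℝ (v j.succ) (∑ k, v k) : ℝ) = 0 := by rw [hv.1, inner_zero_right]
      rw [inner_sum, ← Finset.add_sum_erase _ _ (Finset.mem_univ j.succ)] at h1
      have h2 : ∑ k ∈ Finset.univ.erase j.succ, (inner ℝ (v j.succ) (v k) : ℝ) =
          -((m + 1) * κ) := by
        rw [Finset.sum_congr rfl fun k hk => hκ j.succ k (Finset.ne_of_mem_erase hk).symm]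
        rw [Finset.sum_const, Finset.card_erase_of_mem (Finset.mem_univ _), Finset.card_univ,
          Fintype.card_fin]
        simp
      linarith
    · rw [if_neg hij]
      exact hκ _ _ fun h' => hij (Fin.succ_injective _ h')
  rw [hs] at hf
  have hdet : (star m κ).det = 1 := by
    rw [← covolume_sq hf, hL, one_pow]
  have hpos : 0 < star m κ 0 0 := by
    have h1 := hasForm_posDef hf
    exact h1.diag_pos
  refine ⟨κ, ?_, hf, hdet⟩
  unfold star at hpos
  simp only [Matrix.of_apply, if_true] at hpos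
  have : (0 : ℝ) < (m : ℝ) + 1 := by positivity
  exact (mul_pos_iff_of_pos_left this).1 hpos

theorem norm_le_of_sq {x y : ℝ} (hx : 0 ≤ x) (hy : 0 ≤ y) (h : x ^ 2 ≤ y ^ 2) : x ≤ y :=
  (pow_le_pow_iff_left₀ hx hy two_ne_zero).1 h

/-- All nonzero vectors of a lattice with the form `(star m κ)⁻¹`. -/
theorem star_norm {M : Submodule ℤ (EuclideanSpace ℝ (Fin (m + 1)))} {κ : ℝ} (hκ : 0 < κ)
    (hM : HasForm M (star m κ)⁻¹) {u : EuclideanSpace ℝ (Fin (m + 1))} (hu : u ∈ M)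
    (hu0 : u ≠ 0) : 2 / ((m + 2) * κ) ≤ ‖u‖ ^ 2 := by
  obtain ⟨l, hl, h⟩ := (mem_iff hM (‖u‖ ^ 2)).1 ⟨u, hu, hu0, rfl⟩
  rw [← h]
  exact star_min m hκ hl

theorem mu_pow {κ : ℝ} (hκ : 0 < κ) (hdet : (star m κ).det = 1) :
    (2 / (((m : ℝ) + 2) * κ)) ^ (m + 1) * (m + 2) = 2 ^ (m + 1) := by
  rw [star_det] at hdet
  have h2 : (0 : ℝ) < (m : ℝ) + 2 := by positivity
  rw [div_pow, mul_pow, pow_succ ((m : ℝ) + 2) m]
  have h3 : ((m : ℝ) + 2) ^ m * (m + 2) * κ ^ (m + 1) = m + 2 := by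
    calc ((m : ℝ) + 2) ^ m * (m + 2) * κ ^ (m + 1)
        = (κ ^ (m + 1) * ((m : ℝ) + 2) ^ m) * (m + 2) := by ring
      _ = m + 2 := by rw [hdet, one_mul]
  rw [h3]
  field_simp

/-- **The class theorem.** -/
theorem cls {L M L' M' : Submodule ℤ (EuclideanSpace ℝ (Fin (m + 1)))}
    [DiscreteTopology L] [IsZLattice ℝ L] [DiscreteTopology M] [IsZLattice ℝ M]
    [DiscreteTopology L'] [IsZLattice ℝ L'] [DiscreteTopology M'] [IsZLattice ℝ M']
    (hL : ZLattice.covolume L = 1) (hA : IsAStar L) (hLM : IsPolarOf L M)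
    (hL' : ZLattice.covolume L' = 1) (hF : FirstKind L') (hLM' : IsPolarOf L' M') :
    MinLe M' M ∧ (MinLe M M' → IsAStar L') := by
  obtain ⟨κ, hκ, hf, hdet⟩ := aStar_form hL hA
  obtain ⟨bM, hbM⟩ := exists_basis M
  obtain ⟨bM', hbM'⟩ := exists_basis M'
  have hfM : HasForm M (star m κ)⁻¹ := hasForm_dual hf (polar_symm hbM hLM)
  obtain ⟨v, hv, hv0⟩ := hF
  have hf' := form_of_super hv
  have hfk := super_fk hv.1 hv0
  obtain ⟨Q, hQ⟩ : ∃ Q : Matrix (Fin (m + 1)) (Fin (m + 1)) ℝ,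
    Q = Matrix.of fun i j => (inner ℝ (v i.succ) (v j.succ) : ℝ) := ⟨_, rfl⟩
  rw [← hQ] at hf' hfk
  have hfM' : HasForm M' Q⁻¹ := hasForm_dual hf' (polar_symm hbM' hLM')
  have hQp : Q.PosDef := hasForm_posDef hf'
  have hQd : Q.det = 1 := by rw [← covolume_sq hf', hL', one_pow]
  obtain ⟨l0, hl0, hmin⟩ := exists_min (hasForm_posDef hfM')
  obtain ⟨w', hw', hw'0, hw'n⟩ := (mem_iff hfM' (qf Q⁻¹ (ic l0))).2 ⟨l0, hl0, rfl⟩
  have hμ : 0 ≤ qf Q⁻¹ (ic l0) := by rw [← hw'n]; positivity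
  have h1 := pack_le hQp hfk hμ hmin
  rw [hQd, mul_one] at h1
  have h2 := mu_pow hκ hdet
  have hm2 : (0 : ℝ) < (m : ℝ) + 2 := by positivity
  have hμ0 : 0 < 2 / (((m : ℝ) + 2) * κ) := by positivity
  have hle : qf Q⁻¹ (ic l0) ≤ 2 / ((m + 2) * κ) := by
    have h3 : qf Q⁻¹ (ic l0) ^ (m + 1) * (m + 2) ≤
        (2 / (((m : ℝ) + 2) * κ)) ^ (m + 1) * (m + 2) := by rw [h2]; exact h1
    have h4 := le_of_mul_le_mul_right h3 hm2
    exact (pow_le_pow_iff_left₀ hμ hμ0.le (by omega)).1 h4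
  refine ⟨⟨w', hw', hw'0, fun u hu hu0 => ?_⟩, ?_⟩
  · refine norm_le_of_sq (norm_nonneg _) (norm_nonneg _) ?_
    rw [hw'n]
    exact hle.trans (star_norm hκ hfM hu hu0)
  · rintro ⟨w, hw, hw0, hwu⟩
    have h5 : 2 / (((m : ℝ) + 2) * κ) ≤ qf Q⁻¹ (ic l0) := by
      rw [← hw'n]
      exact (star_norm hκ hfM hw hw0).trans
        (pow_le_pow_left₀ (norm_nonneg _) (hwu w' hw' hw'0) 2)
    have h6 : qf Q⁻¹ (ic l0) = 2 / ((m + 2) * κ) := le_antisymm hle h5
    obtain ⟨κ', hκ', hst⟩ := P2.pack_eq hQp hfk hμ hmin (by rw [hQd, mul_one, h6]; exact h2)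
    have hin : ∀ i j : Fin (m + 1), (inner ℝ (v i.succ) (v j.succ) : ℝ) =
        if i = j then (m + 1) * κ' else -κ' := by
      intro i j
      rw [← hst i j, hQ]
      rfl
    have h0 : ∀ j : Fin (m + 1), (inner ℝ (v j.succ) (v 0) : ℝ) = -κ' := by
      intro j
      have h7 : (inner ℝ (v j.succ) (∑ k, v k) : ℝ) = 0 := by rw [hv.1, inner_zero_right]
      rw [inner_sum, Fin.sum_univ_succ] at h7
      have h8 : ∑ i : Fin (m + 1), (inner ℝ (v j.succ) (v i.succ) : ℝ) = κ' := by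
        rw [Finset.sum_congr rfl fun i _ => hin j i]
        rw [← Finset.add_sum_erase _ _ (Finset.mem_univ j), if_pos rfl]
        rw [Finset.sum_congr rfl fun i hi => if_neg (Finset.ne_of_mem_erase hi).symm]
        rw [Finset.sum_const, Finset.card_erase_of_mem (Finset.mem_univ _), Finset.card_univ,
          Fintype.card_fin]
        simp
        ring
      linarith
    refine ⟨v, κ', hv, fun i j hij => ?_⟩
    refine Fin.cases (fun h => ?_) (fun i h => ?_) i hij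
    · refine Fin.cases (fun h => absurd rfl h) (fun j _ => ?_) j h
      rw [real_inner_comm]
      exact h0 j
    · refine Fin.cases (fun _ => h0 i) (fun j h => ?_) j h
      rw [hin, if_neg fun h' => h (by rw [h'])]

end Pool.Agent.H99V
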