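import Pool.Agent.D4Q.StepA
import Pool.Agent.D4Q.LatC
import Pool.Agent.D4Q.LatD

set_option autoImplicit false

/-!
# Lattices of Voronoi's first kind: definitions

`FK Q`: Voronoi's principal domain. `P12 Q = 12 det Q FF Q`. `fam c C = C diag(c) - c c^T`.
-/

namespace Pool.Agent.H99V

open MeasureTheory Matrix Pool.Agent.D4Q

variable {n : ℕ}

/-- Voronoi's principal domain: symmetric, nonpositive off the diagonal, nonnegative row sums. -/
def FK (Q : Matrix (Fin n) (Fin n) ℝ) : Prop :=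
  (∀ i j, Q i j = Q j i) ∧ (∀ i j, i ≠ j → Q i j ≤ 0) ∧ ∀ i, 0 ≤ ∑ j, Q i j

/-- Twelve times the determinant times the second moment. -/
noncomputable def P12 (Q : Matrix (Fin n) (Fin n) ℝ) : ℝ := 12 * Q.det * FF Q

/-- The form `x i ^ 2`. -/
def Ei (i : Fin n) : Matrix (Fin n) (Fin n) ℝ :=
  Matrix.of fun a b => if a = i ∧ b = i then 1 else 0

/-- Deleting row and column `i`. -/
def del (i : Fin (n + 1)) (Q : Matrix (Fin (n + 1)) (Fin (n + 1)) ℝ) :
    Matrix (Fin n) (Fin n) ℝ := Q.submatrix i.succAbove i.succAbove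

/-- The form with the weights `c i * c j` between `i` and `j` and the weight `c i * y` between `i`
and the ground vertex, where `C = y + ∑ c i`. -/
def fam (c : Fin n → ℝ) (C : ℝ) : Matrix (Fin n) (Fin n) ℝ :=
  Matrix.of fun i j => (if i = j then C * c i else 0) - c i * c j

/-- `(z, 1, ..., 1)`. -/
def cz (m : ℕ) (z : ℝ) : Fin (m + 1) → ℝ := Fin.cons z fun _ => 1

/-- `AA m C = ∑ j, m (m - 1) ... (m - j + 1) C ^ (m - j)`. -/
noncomputable def AA : ℕ → ℝ → ℝ
  | 0, _ => 1
  | m + 1, C => C ^ (m + 1) + (m + 1) * AA m C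

/-- The closed form of `P12 (fam (cz m z) C)`. -/
noncomputable def RR (m : ℕ) (z C : ℝ) : ℝ :=
  (C - z - m) * z * ((m + 1) * C ^ (m + 1) - (C - (C - z - m) * z) * AA m C)

end Pool.Agent.H99V
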