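import Pool.Agent.H99V.Max

set_option autoImplicit false

/-!
# Existence of the lattice
-/

namespace Pool.Agent.H99V

open MeasureTheory Matrix Pool.Agent.D4Q Filter Topology

theorem aStar_of_form {m : ℕ} {κ : ℝ} {L : Submodule ℤ (EuclideanSpace ℝ (Fin (m + 1)))}
    (h : HasForm L (star m κ)) : IsAStar L := by
  obtain ⟨b, hb, hL, hG⟩ := h
  have hs : ∑ i, (Fin.cons (-∑ j, b j) b :
      Fin (m + 2) → EuclideanSpace ℝ (Fin (m + 1))) i = 0 := by
    rw [Fin.sum_univ_succ]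
    simp
  have h0 : ∀ j, inner ℝ (-∑ i, b i) (b j) = (-κ : ℝ) := by
    intro j
    rw [inner_neg_left, sum_inner]
    congr 1
    have h2 : ∑ i, inner ℝ (b i) (b j) = ∑ i, star m κ i j :=
      Finset.sum_congr rfl fun i _ => (hG i j).symm
    rw [h2]
    unfold star
    simp only [Matrix.of_apply]
    rw [← Finset.add_sum_erase _ _ (Finset.mem_univ j), if_pos rfl]
    rw [Finset.sum_congr rfl fun i hi => if_neg (Finset.ne_of_mem_erase hi)]
    rw [Finset.sum_const, Finset.card_erase_of_mem (Finset.mem_univ _), Finset.card_univ,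
      Fintype.card_fin]
    simp
    ring
  refine ⟨Fin.cons (-∑ j, b j) b, κ, ⟨hs, ?_⟩, ?_⟩
  · rw [span_super hs, hL]
    rfl
  · intro i j hij
    refine Fin.cases (fun h => ?_) (fun i h => ?_) i hij
    · refine Fin.cases (fun h => absurd rfl h) (fun j _ => ?_) j h
      rw [Fin.cons_zero, Fin.cons_succ]
      exact h0 j
    · refine Fin.cases (fun h => ?_) (fun j h => ?_) j h
      · rw [Fin.cons_zero, Fin.cons_succ, real_inner_comm]
        exact h0 i
      · rw [Fin.cons_succ, Fin.cons_succ, ← hG]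
        unfold star
        rw [Matrix.of_apply, if_neg fun h' => h (by rw [h'])]

theorem exists_aStar (m : ℕ) :
    ∃ (L M : Submodule ℤ (EuclideanSpace ℝ (Fin (m + 1)))) (_ : DiscreteTopology L)
      (_ : IsZLattice ℝ L) (_ : DiscreteTopology M) (_ : IsZLattice ℝ M),
      ZLattice.covolume L = 1 ∧ IsAStar L ∧ IsPolarOf L M := by
  obtain ⟨κ, hκd⟩ : ∃ κ : ℝ, κ = (((m : ℝ) + 2) ^ m) ^ (-(1 / ((m : ℝ) + 1))) := ⟨_, rfl⟩
  have hp : (0 : ℝ) < ((m : ℝ) + 2) ^ m := by positivity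
  have hκ : 0 < κ := by
    rw [hκd]
    exact Real.rpow_pos_of_pos hp _
  have hm1 : ((m : ℝ) + 1) ≠ 0 := by positivity
  have hdet : (star m κ).det = 1 := by
    rw [star_det, hκd, ← Real.rpow_natCast, ← Real.rpow_mul hp.le]
    push_cast
    have : -(1 / ((m : ℝ) + 1)) * (m + 1) = -1 := by field_simp
    rw [this, Real.rpow_neg_one]
    exact inv_mul_cancel₀ hp.ne'
  have hP : (star m κ).PosDef := by
    rw [star_eq]
    exact (XQ_posDef m one_pos le_rfl).smul hκ
  obtain ⟨L, hL⟩ := exists_lattice hP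
  obtain ⟨M, hM, hLM⟩ := exists_dual hL
  obtain ⟨j1, j2⟩ := hasForm_lattice hL
  obtain ⟨j3, j4⟩ := hasForm_lattice hM
  exact ⟨L, M, j1, j2, j3, j4, cov_of_det hL hdet, aStar_of_form hL, hLM⟩

theorem cov_dual {m : ℕ} {L M : Submodule ℤ (EuclideanSpace ℝ (Fin (m + 1)))}
    [DiscreteTopology L] [IsZLattice ℝ L] [DiscreteTopology M] [IsZLattice ℝ M]
    (hL : ZLattice.covolume L = 1) (h : IsPolarOf L M) : ZLattice.covolume M = 1 := by
  obtain ⟨b, hb⟩ := exists_basis M
  have h1 := hasForm_dual (basis_form hb) h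
  have h2 := covolume_sq h1
  rw [hL, one_pow, Matrix.det_nonsing_inv, Ring.inverse_eq_inv'] at h2
  refine cov_of_det (basis_form hb) ?_
  have h3 : (gram b).det⁻¹ = 1 := h2.symm
  exact inv_eq_one.1 h3

theorem exists_aStar' (m : ℕ) :
    ∃ (L M : Submodule ℤ (EuclideanSpace ℝ (Fin (m + 1)))) (_ : DiscreteTopology L)
      (_ : IsZLattice ℝ L) (_ : DiscreteTopology M) (_ : IsZLattice ℝ M),
      ZLattice.covolume L = 1 ∧ ZLattice.covolume M = 1 ∧ IsAStar L ∧ IsPolarOf L M := by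
  obtain ⟨L, M, j1, j2, j3, j4, h1, h2, h3⟩ := exists_aStar m
  exact ⟨L, M, j1, j2, j3, j4, h1, cov_dual h1 h3, h2, h3⟩

end Pool.Agent.H99V
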