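import Pool.Agent.H99V.Step
import Pool.Agent.H99V.Fam
import Pool.Agent.H99V.Ode
import Pool.Agent.H99V.Ana2
import Pool.Agent.H99V.Pack
import Pool.Agent.H99V.Pack2

set_option autoImplicit false

/-!
# The forms near the polar of `A_n`
-/

namespace Pool.Agent.H99V

open MeasureTheory Matrix Pool.Agent.D4Q Filter Topology

/-- The form with the weights `x` (both heavy vertices to the light ones), `x ^ 2 + t` (between
the heavy vertices) and `1`. -/
noncomputable def XQ (m : ℕ) (x t : ℝ) : Matrix (Fin (m + 1)) (Fin (m + 1)) ℝ :=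
  fam (cz m x) (m + 2 * x) + t • Ei 0

theorem sum_cz (m : ℕ) (x : ℝ) : ∑ i, cz m x i = x + m := by
  unfold cz
  rw [Fin.sum_univ_succ]
  simp

theorem prod_cz (m : ℕ) (x : ℝ) : ∏ i, cz m x i = x := by
  unfold cz
  rw [Fin.prod_univ_succ]
  simp

theorem cz_pos {m : ℕ} {x : ℝ} (hx : 0 < x) (i : Fin (m + 1)) : 0 < cz m x i := by
  refine Fin.cases ?_ (fun j => ?_) i
  · exact hx
  · show (0 : ℝ) < 1
    norm_num

theorem cz_tail (k : ℕ) (x : ℝ) :
    (fun j => cz (k + 1) x ((0 : Fin (k + 2)).succAbove j)) = cz k 1 := by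
  funext j
  rw [Fin.succAbove_zero]
  show (1 : ℝ) = cz k 1 j
  refine Fin.cases rfl (fun j => rfl) j

theorem XQ_det (k : ℕ) (x t : ℝ) : (XQ (k + 1) x t).det = DD (k + 1) x t := by
  unfold XQ DD
  rw [det_add, fam_del, cz_tail, fam_det, fam_det, prod_cz, sum_cz, prod_cz, sum_cz]
  have h : k + 1 - 1 = k := by omega
  rw [h]
  push_cast
  ring

theorem XQ_P12 (k : ℕ) {x t : ℝ} (hx : 0 < x) (ht : 0 ≤ t) :
    P12 (XQ (k + 1) x t) = PP (k + 1) x t := by
  unfold XQ PP
  have h1 : ∑ i, cz (k + 1) x i < ((k + 1 : ℕ) : ℝ) + 2 * x := by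
    rw [sum_cz]
    linarith
  rw [P12_add (fam_posDef (cz_pos hx) h1) (fam_fk (cz_pos hx) h1) 0 ht, fam_del, cz_tail,
    fam_det, fam_det, prod_cz, sum_cz, prod_cz, sum_cz,
    closed (k + 1) hx (by linarith), closed k one_pos (by push_cast; linarith)]
  have h : k + 1 - 1 = k := by omega
  rw [h]
  unfold RR
  rw [AA]
  push_cast
  ring

theorem star_eq (m : ℕ) (κ : ℝ) : star m κ = κ • XQ m 1 0 := by
  ext i j
  unfold star XQ fam
  have hc : ∀ i : Fin (m + 1), cz m 1 i = 1 := fun i => Fin.cases rfl (fun _ => rfl) i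
  simp only [zero_smul, add_zero, Matrix.of_apply, Matrix.smul_apply, smul_eq_mul, hc]
  by_cases h : i = j
  · simp [h]
    ring
  · simp [h]

theorem XQ_posDef (m : ℕ) {x t : ℝ} (hx : 0 < x) (ht : 0 ≤ t) : (XQ m x t).PosDef := by
  refine posDef_add (fam_posDef (cz_pos hx) ?_) 0 ht
  rw [sum_cz]
  linarith

theorem XQ_fk (m : ℕ) {x t : ℝ} (hx : 0 < x) (ht : 0 ≤ t) : FK (XQ m x t) := by
  refine fk_add (fam_fk (cz_pos hx) ?_) 0 ht
  rw [sum_cz]
  linarith

theorem fk_smul {n : ℕ} {Q : Matrix (Fin n) (Fin n) ℝ} (h : FK Q) {c : ℝ} (hc : 0 ≤ c) :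
    FK (c • Q) := by
  refine ⟨fun i j => ?_, fun i j hij => ?_, fun i => ?_⟩
  · rw [Matrix.smul_apply, Matrix.smul_apply, h.1 i j]
  · rw [Matrix.smul_apply, smul_eq_mul]
    exact mul_nonpos_of_nonneg_of_nonpos hc (h.2.1 i j hij)
  · simp only [Matrix.smul_apply, smul_eq_mul]
    rw [← Finset.mul_sum]
    exact mul_nonneg hc (h.2.2 i)

theorem DD_pos (k : ℕ) {x t : ℝ} (hx : 0 < x) (ht : 0 ≤ t) : 0 < DD (k + 1) x t := by
  rw [← XQ_det]
  exact (XQ_posDef _ hx ht).det_pos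

theorem XQ_det' {m : ℕ} (hm : 1 ≤ m) (x t : ℝ) : (XQ m x t).det = DD m x t := by
  obtain ⟨k, rfl⟩ : ∃ k, m = k + 1 := ⟨m - 1, by omega⟩
  exact XQ_det k x t

theorem XQ_P12' {m : ℕ} (hm : 1 ≤ m) {x t : ℝ} (hx : 0 < x) (ht : 0 ≤ t) :
    P12 (XQ m x t) = PP m x t := by
  obtain ⟨k, rfl⟩ : ∃ k, m = k + 1 := ⟨m - 1, by omega⟩
  exact XQ_P12 k hx ht

theorem DD_pos' {m : ℕ} (hm : 1 ≤ m) {x t : ℝ} (hx : 0 < x) (ht : 0 ≤ t) : 0 < DD m x t := by
  obtain ⟨k, rfl⟩ : ∃ k, m = k + 1 := ⟨m - 1, by omega⟩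
  exact DD_pos k hx ht

/-- The second moment in terms of `P12`. -/
theorem FF_eq {n : ℕ} {Q : Matrix (Fin n) (Fin n) ℝ} (hQ : Q.PosDef) :
    FF Q = P12 Q / (12 * Q.det) := by
  have h := hQ.det_pos
  unfold P12
  field_simp

theorem FF_nn {n : ℕ} {Q : Matrix (Fin n) (Fin n) ℝ} (hQ : Q.PosDef) : 0 ≤ FF Q :=
  integral_nonneg_of_ae (Eventually.of_forall fun x => dsq_nonneg hQ x)

theorem form_ineq (m : ℕ) (hm : 5 ≤ m) {κ : ℝ} (hκ : 0 < κ) (hdet : (star m κ).det = 1)
    {δ : ℝ} (hδ : 0 < δ) : ∃ Q : Matrix (Fin (m + 1)) (Fin (m + 1)) ℝ, Q.PosDef ∧ FK Q ∧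
      Q.det = 1 ∧ (∀ i j, |Q i j - star m κ i j| < δ) ∧ FF Q < FF (star m κ) := by
  have hm' : 1 ≤ m := by omega
  have hmR : (0 : ℝ) < m := by
    have : 0 < m := by omega
    exact_mod_cast this
  obtain ⟨t₀, ht₀, hcomp⟩ := comp m hm
  -- the scaling factor
  obtain ⟨lam, hlam⟩ : ∃ lam : ℝ → ℝ, lam = fun t => (DD m (1 - t / m) t) ^ (-(1 / ((m : ℝ) + 1))) :=
    ⟨_, rfl⟩
  have hD0 : 0 < DD m 1 0 := DD_pos' hm' one_pos le_rfl
  have hDc : Continuous fun t : ℝ => DD m (1 - t / m) t := by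
    unfold DD
    fun_prop
  have hm1 : ((m : ℝ) + 1) ≠ 0 := by positivity
  have hlampow : ∀ t, 0 < DD m (1 - t / m) t → (lam t) ^ (m + 1) * DD m (1 - t / m) t = 1 := by
    intro t ht
    rw [hlam]
    simp only
    rw [← Real.rpow_natCast, ← Real.rpow_mul ht.le]
    push_cast
    have : -(1 / ((m : ℝ) + 1)) * (m + 1) = -1 := by field_simp
    rw [this, Real.rpow_neg_one]
    exact inv_mul_cancel₀ ht.ne'
  have hlampos : ∀ t, 0 < DD m (1 - t / m) t → 0 < lam t := fun t ht => by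
    rw [hlam]
    exact Real.rpow_pos_of_pos ht _
  have hlam0 : lam 0 = κ := by
    have h1 := hlampow 0 (by simpa using hD0)
    have h2 : κ ^ (m + 1) * DD m 1 0 = 1 := by
      refine Eq.trans ?_ hdet
      rw [star_eq, Matrix.det_smul, Fintype.card_fin, XQ_det' hm']
    have h3 : (0 : ℝ) < lam 0 := hlampos 0 (by simpa using hD0)
    simp only [zero_div, sub_zero] at h1
    have h4 : (lam 0) ^ (m + 1) = κ ^ (m + 1) := by
      have h5 := h1.trans h2.symm
      exact mul_right_cancel₀ hD0.ne' h5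
    exact (pow_left_inj₀ h3.le hκ.le (by omega)).1 h4
  have hlamc : ContinuousAt lam 0 := by
    rw [hlam]
    refine ContinuousAt.rpow hDc.continuousAt continuousAt_const (Or.inl ?_)
    simpa using hD0.ne'
  have hent : ∀ i j, ∀ᶠ t in 𝓝 (0 : ℝ), |(lam t • XQ m (1 - t / m) t) i j - star m κ i j| < δ := by
    intro i j
    have hc : ContinuousAt (fun t : ℝ => (lam t • XQ m (1 - t / m) t) i j - star m κ i j) 0 := by
      simp only [Matrix.smul_apply, smul_eq_mul]
      refine (hlamc.mul ?_).sub continuousAt_const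
      refine Continuous.continuousAt ?_
      unfold XQ fam Ei
      have hcz : ∀ i : Fin (m + 1), Continuous fun t : ℝ => cz m (1 - t / m) i := by
        intro i
        refine Fin.cases ?_ (fun j => ?_) i
        · show Continuous fun t : ℝ => (1 - t / m)
          fun_prop
        · exact continuous_const
      simp only [Matrix.add_apply, Matrix.smul_apply, Matrix.of_apply, smul_eq_mul]
      have h1 := hcz i
      have h2 := hcz j
      by_cases hij : i = j
      · simp only [hij, if_true]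
        fun_prop
      · simp only [hij, if_false]
        fun_prop
    have h0 : (lam 0 • XQ m (1 - 0 / m) 0) i j - star m κ i j = 0 := by
      rw [hlam0, zero_div, sub_zero, star_eq, sub_self]
    have h1 := hc.tendsto
    simp only [h0] at h1
    have h2 := h1.abs
    rw [abs_zero] at h2
    exact h2.eventually_lt_const hδ
  have hall : ∀ᶠ t in 𝓝[>] (0 : ℝ), (∀ i j, |(lam t • XQ m (1 - t / m) t) i j - star m κ i j| < δ)
      ∧ t < t₀ ∧ t < m ∧ 0 < t := by
    have h1 : ∀ᶠ t in 𝓝 (0 : ℝ), ∀ i j,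
        |(lam t • XQ m (1 - t / m) t) i j - star m κ i j| < δ :=
      eventually_all.2 fun i => eventually_all.2 fun j => hent i j
    have h2 : ∀ᶠ t : ℝ in 𝓝 (0 : ℝ), t < t₀ := eventually_lt_nhds ht₀
    have h3 : ∀ᶠ t : ℝ in 𝓝 (0 : ℝ), t < (m : ℝ) := eventually_lt_nhds hmR
    filter_upwards [nhdsWithin_le_nhds h1, nhdsWithin_le_nhds h2, nhdsWithin_le_nhds h3,
      self_mem_nhdsWithin] with t a b c d
    exact ⟨a, b, c, d⟩
  obtain ⟨t, hclose, htt, htm, ht⟩ := hall.exists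
  have hx : 0 < 1 - t / m := by
    have : t / m < 1 := (div_lt_one hmR).2 htm
    linarith
  have hDt : 0 < DD m (1 - t / m) t := DD_pos' hm' hx ht.le
  have hP : (XQ m (1 - t / m) t).PosDef := XQ_posDef m hx ht.le
  have hlt := hlampos t hDt
  refine ⟨lam t • XQ m (1 - t / m) t, hP.smul hlt, fk_smul (XQ_fk m hx ht.le) hlt.le, ?_, hclose,
    ?_⟩
  · rw [Matrix.det_smul, Fintype.card_fin]
    rw [XQ_det' hm']
    exact hlampow t hDt
  · rw [FF_smul _ hlt.le, star_eq, FF_smul _ hκ.le, FF_eq hP, FF_eq (XQ_posDef m one_pos le_rfl)]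
    have e1 : (XQ m (1 - t / m) t).det = DD m (1 - t / m) t := XQ_det' hm' _ _
    have e2 : (XQ m 1 0).det = DD m 1 0 := XQ_det' hm' _ _
    have e3 : P12 (XQ m (1 - t / m) t) = PP m (1 - t / m) t := XQ_P12' hm' hx ht.le
    have e4 : P12 (XQ m 1 0) = PP m 1 0 := XQ_P12' hm' one_pos le_rfl
    have hP0 : 0 ≤ PP m 1 0 := by
      rw [← e4]
      unfold P12
      have h1 := (XQ_posDef m one_pos (le_refl (0 : ℝ))).det_pos
      have h2 := FF_nn (XQ_posDef m one_pos (le_refl (0 : ℝ)))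
      positivity
    have hPt : 0 ≤ PP m (1 - t / m) t := by
      rw [← e3]
      unfold P12
      have h1 := hP.det_pos
      have h2 := FF_nn hP
      positivity
    rw [e1, e2, e3, e4]
    have hc := hcomp t ht htt
    have h1 := hlampow t hDt
    have h2 : κ ^ (m + 1) * DD m 1 0 = 1 := by
      have := hlampow 0 (by simpa using hD0)
      rw [hlam0] at this
      simpa using this
    generalize PP m (1 - t / m) t = p at *
    generalize DD m (1 - t / m) t = q at *
    generalize PP m 1 0 = p0 at *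
    generalize DD m 1 0 = q0 at *
    generalize lam t = l at *
    have key : (l * (p / (12 * q))) ^ (m + 1) < (κ * (p0 / (12 * q0))) ^ (m + 1) := by
      have hl : l ^ (m + 1) = 1 / q := by
        rw [eq_div_iff hDt.ne']
        exact h1
      have hk : κ ^ (m + 1) = 1 / q0 := by
        rw [eq_div_iff hD0.ne']
        exact h2
      rw [mul_pow, mul_pow, hl, hk, div_pow, div_pow, mul_pow, mul_pow]
      have h12 : (0 : ℝ) < 12 ^ (m + 1) := by positivity
      have a1 : 1 / q * (p ^ (m + 1) / (12 ^ (m + 1) * q ^ (m + 1))) =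
          p ^ (m + 1) / (12 ^ (m + 1) * q ^ (m + 2)) := by
        rw [pow_succ q (m + 1)]
        field_simp
      have a2 : 1 / q0 * (p0 ^ (m + 1) / (12 ^ (m + 1) * q0 ^ (m + 1))) =
          p0 ^ (m + 1) / (12 ^ (m + 1) * q0 ^ (m + 2)) := by
        rw [pow_succ q0 (m + 1)]
        field_simp
      rw [a1, a2, div_lt_div_iff₀ (by positivity) (by positivity)]
      nlinarith [mul_lt_mul_of_pos_left hc h12]
    exact lt_of_pow_lt_pow_left₀ (m + 1) (by positivity) key

end Pool.Agent.H99V
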