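import Pool.Agent.H99V.Sml
import Pool.Agent.H99V.Exi

set_option autoImplicit false

/-!
# Lattices of Voronoi's first kind: the polar of `A_d` does not minimise the second moment, `d ≥ 4`
-/

namespace Pool.Agent.H99V

open MeasureTheory Matrix Pool.Agent.D4Q Filter Topology

/-- From forms to lattices. -/
theorem lat_of_form {m : ℕ} {κ : ℝ} {L : Submodule ℤ (EuclideanSpace ℝ (Fin (m + 1)))}
    [DiscreteTopology L] [IsZLattice ℝ L] (hL : ZLattice.covolume L = 1)
    (hf : HasForm L (star m κ)) (B : ℝ)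
    (h : ∃ Q : Matrix (Fin (m + 1)) (Fin (m + 1)) ℝ, Q.PosDef ∧ FK Q ∧ Q.det = 1 ∧
      FF Q < B * FF (star m κ)) :
    ∃ (L' : Submodule ℤ (EuclideanSpace ℝ (Fin (m + 1)))) (_ : DiscreteTopology L')
      (_ : IsZLattice ℝ L'), ZLattice.covolume L' = 1 ∧ FirstKind L' ∧
        secondMoment L' < B * secondMoment L := by
  obtain ⟨Q, hQ, hF, hd, hlt⟩ := h
  obtain ⟨L', hL'⟩ := exists_lattice hQ
  obtain ⟨j1, j2⟩ := hasForm_lattice hL'
  have hcov : ZLattice.covolume L' = 1 := cov_of_det hL' hd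
  refine ⟨L', j1, j2, hcov, firstKind_of_form hL' hF, ?_⟩
  rw [sm_eq hL' hcov, sm_eq hf hL]
  exact hlt

/-- **The polar of `A_n` does not minimise `G` among the lattices of the first kind, `n > 3`.** -/
theorem not_min_class {m : ℕ} (hm : 3 ≤ m) {L : Submodule ℤ (EuclideanSpace ℝ (Fin (m + 1)))}
    [DiscreteTopology L] [IsZLattice ℝ L] (hL : ZLattice.covolume L = 1) (hA : IsAStar L) :
    ∃ (L' : Submodule ℤ (EuclideanSpace ℝ (Fin (m + 1)))) (_ : DiscreteTopology L')
      (_ : IsZLattice ℝ L'), ZLattice.covolume L' = 1 ∧ FirstKind L' ∧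
        secondMoment L' < secondMoment L := by
  by_cases h5 : 5 ≤ m
  · obtain ⟨b, hb⟩ := exists_basis L
    obtain ⟨L', j1, j2, b', -, -, h3, h4, h6⟩ := not_min h5 hL hA hb one_pos
    exact ⟨L', j1, j2, h3, h4, h6⟩
  · obtain ⟨κ, hκ, hf, hdet⟩ := aStar_form hL hA
    rw [← one_mul (secondMoment L)]
    refine lat_of_form hL hf 1 ?_
    rw [one_mul]
    have h : m = 3 ∨ m = 4 := by omega
    rcases h with rfl | rfl
    · exact form_four hκ hdet
    · exact form_five hκ hdet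

/-- The polar of a densest lattice of the class is similar to the polar of `A_n`. -/
theorem aStar_of_densest {m : ℕ} {L M : Submodule ℤ (EuclideanSpace ℝ (Fin (m + 1)))}
    [DiscreteTopology L] [IsZLattice ℝ L] [DiscreteTopology M] [IsZLattice ℝ M]
    (hL : ZLattice.covolume L = 1) (hF : FirstKind L) (hLM : IsPolarOf L M)
    (hD : ∀ (L' M' : Submodule ℤ (EuclideanSpace ℝ (Fin (m + 1)))) (_ : DiscreteTopology L')
      (_ : IsZLattice ℝ L') (_ : DiscreteTopology M') (_ : IsZLattice ℝ M'),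
      ZLattice.covolume L' = 1 → ZLattice.covolume M' = 1 → FirstKind L' → IsPolarOf L' M' →
        MinLe M' M) : IsAStar L := by
  obtain ⟨L₀, M₀, j1, j2, j3, j4, h1, h2, h3, h4⟩ := exists_aStar' m
  have hF0 : FirstKind L₀ := by
    obtain ⟨κ, hκ, hf, -⟩ := aStar_form h1 h3
    exact firstKind_of_form hf (by
      rw [star_rl]
      exact fk_smul (fk_cg (m + 1)) hκ.le)
  exact (cls h1 h3 h4 hL hF hLM).2 (hD L₀ M₀ j1 j2 j3 j4 h1 h2 hF0 h4)

theorem fk_of_aStar {m : ℕ} {L : Submodule ℤ (EuclideanSpace ℝ (Fin (m + 1)))}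
    [DiscreteTopology L] [IsZLattice ℝ L] (hL : ZLattice.covolume L = 1) (hA : IsAStar L) :
    FirstKind L := by
  obtain ⟨κ, hκ, hf, -⟩ := aStar_form hL hA
  exact firstKind_of_form hf (by
    rw [star_rl]
    exact fk_smul (fk_cg (m + 1)) hκ.le)

end Pool.Agent.H99V
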