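import Pool.Agent.H99V.Step
import Pool.Agent.H99V.Fam
import Pool.Agent.D4Q.DsqA
import Pool.Agent.D4Q.Fub

set_option autoImplicit false

/-!
# Increments of the second moment in the family
-/

namespace Pool.Agent.H99V

open MeasureTheory Matrix Pool.Agent.D4Q

variable {n : ℕ}

/-- the second moment is not negative -/
theorem FF_nonneg {Q : Matrix (Fin n) (Fin n) ℝ} (hQ : Q.PosDef) : 0 ≤ FF Q :=
  integral_nonneg fun x => dsq_nonneg hQ x

theorem P12_nonneg {Q : Matrix (Fin n) (Fin n) ℝ} (hQ : Q.PosDef) : 0 ≤ P12 Q := by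
  unfold P12
  have h1 := hQ.det_pos
  have h2 := FF_nonneg hQ
  positivity

/-- The diagonal matrix of `w` on `s`. -/
private def dw (w : Fin n → ℝ) (s : Finset (Fin n)) : Matrix (Fin n) (Fin n) ℝ :=
  Matrix.diagonal fun i => if i ∈ s then w i else 0

private theorem dw_empty (w : Fin n → ℝ) : dw w ∅ = 0 := by
  unfold dw
  simp

private theorem dw_insert (w : Fin n → ℝ) {s : Finset (Fin n)} {i : Fin n} (hi : i ∉ s) :
    dw w (insert i s) = dw w s + w i • Ei i := by
  ext a b
  unfold dw Ei
  rw [Matrix.add_apply, Matrix.smul_apply, Matrix.of_apply, Matrix.diagonal_apply,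
    Matrix.diagonal_apply]
  by_cases hab : a = b
  · subst hab
    by_cases hai : a = i
    · subst hai
      simp [hi]
    · simp [hai]
  · rw [if_neg hab, if_neg hab, if_neg]
    · simp
    · rintro ⟨h1, h2⟩
      exact hab (h1.trans h2.symm)

private theorem dw_univ (w : Fin n → ℝ) : dw w Finset.univ = Matrix.diagonal w := by
  unfold dw
  simp

private theorem pd_dw {Q : Matrix (Fin n) (Fin n) ℝ} (hQ : Q.PosDef) (h : FK Q) {w : Fin n → ℝ}
    (hw : ∀ i, 0 ≤ w i) (s : Finset (Fin n)) : (Q + dw w s).PosDef ∧ FK (Q + dw w s) := by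
  induction s using Finset.induction_on with
  | empty =>
    rw [dw_empty, add_zero]
    exact ⟨hQ, h⟩
  | insert i s hi ih =>
    rw [dw_insert w hi, ← add_assoc]
    exact ⟨posDef_add ih.1 i (hw i), fk_add ih.2 i (hw i)⟩

/-- **Monotonicity** in the diagonal. -/
theorem mono {Q : Matrix (Fin n) (Fin n) ℝ} (hQ : Q.PosDef) (h : FK Q) {w : Fin n → ℝ}
    (hw : ∀ i, 0 ≤ w i) :
    (Q + Matrix.diagonal w).PosDef ∧ FK (Q + Matrix.diagonal w) ∧
      P12 Q ≤ P12 (Q + Matrix.diagonal w) ∧ Q.det ≤ (Q + Matrix.diagonal w).det := by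
  rw [← dw_univ]
  refine ⟨(pd_dw hQ h hw _).1, (pd_dw hQ h hw _).2, ?_⟩
  cases n with
  | zero =>
    have h1 : Q + dw w Finset.univ = Q := Subsingleton.elim _ _
    rw [h1]
    exact ⟨le_refl _, le_refl _⟩
  | succ n =>
    generalize Finset.univ (α := Fin (n + 1)) = s
    induction s using Finset.induction_on with
    | empty =>
      rw [dw_empty, add_zero]
      exact ⟨le_refl _, le_refl _⟩
    | insert i s hi ih =>
      obtain ⟨h1, h2⟩ := pd_dw hQ h hw s
      have h3 := posDef_del h1 i
      have h4 := P12_nonneg h3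
      have h5 := h3.det_pos
      have h6 := h1.det_pos
      have h7 := hw i
      rw [dw_insert w hi, ← add_assoc, P12_add h1 h2 i (hw i), det_add]
      refine ⟨?_, ?_⟩
      · have h8 : 0 ≤ w i * (P12 (del i (Q + dw w s)) + 2 * (Q + dw w s).det) := by positivity
        have h9 : 0 ≤ w i ^ 2 * (del i (Q + dw w s)).det := by positivity
        linarith [ih.1]
      · have h8 : 0 ≤ w i * (del i (Q + dw w s)).det := by positivity
        linarith [ih.2]

private theorem del_dw (Q : Matrix (Fin (n + 1)) (Fin (n + 1)) ℝ) (i : Fin (n + 1))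
    (v : Fin (n + 1) → ℝ) :
    del i (Q + Matrix.diagonal v) = del i Q + Matrix.diagonal fun j => v (i.succAbove j) := by
  ext a b
  unfold del
  rw [Matrix.submatrix_apply, Matrix.add_apply, Matrix.add_apply, Matrix.submatrix_apply,
    Matrix.diagonal_apply, Matrix.diagonal_apply]
  simp only [Fin.succAbove_right_inj]

private theorem two_bounds {Q : Matrix (Fin (n + 1)) (Fin (n + 1)) ℝ} (hQ : Q.PosDef) (h : FK Q)
    {w : Fin (n + 1) → ℝ} (hw : ∀ i, 0 ≤ w i) (s : Finset (Fin (n + 1))) :
    ∑ i ∈ s, w i * (P12 (del i Q) + 2 * Q.det) ≤ P12 (Q + dw w s) - P12 Q ∧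
    P12 (Q + dw w s) - P12 Q ≤
      ∑ i ∈ s, (w i * (P12 (del i (Q + Matrix.diagonal w)) + 2 * (Q + Matrix.diagonal w).det) +
        w i ^ 2 * (del i (Q + Matrix.diagonal w)).det) := by
  induction s using Finset.induction_on with
  | empty =>
    rw [dw_empty, add_zero]
    simp
  | insert i s hi ih =>
    obtain ⟨h1, h2⟩ := pd_dw hQ h hw s
    have hr : ∀ j, 0 ≤ (if j ∈ s then w j else 0) := by
      intro j
      split_ifs
      · exact hw j
      · exact le_refl _
    have hr' : ∀ j, 0 ≤ (if j ∈ s then 0 else w j) := by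
      intro j
      split_ifs
      · exact le_refl _
      · exact hw j
    have e1 : Q + Matrix.diagonal w = Q + dw w s + Matrix.diagonal fun j => if j ∈ s then 0 else w j := by
      rw [add_assoc]
      congr 1
      unfold dw
      rw [Matrix.diagonal_add]
      congr 1
      funext j
      split_ifs <;> simp
    have a1 := mono hQ h hr
    have a2 := mono (posDef_del hQ i) (fk_del h i) (w := fun j => if i.succAbove j ∈ s then
      w (i.succAbove j) else 0) fun j => hr _
    have a3 := mono h1 h2 hr'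
    have a4 := mono (posDef_del h1 i) (fk_del h2 i) (w := fun j => if i.succAbove j ∈ s then
      0 else w (i.succAbove j)) fun j => hr' _
    have e2 : del i (Q + dw w s) = del i Q + Matrix.diagonal fun j => if i.succAbove j ∈ s then
      w (i.succAbove j) else 0 := del_dw Q i _
    have e3 : del i (Q + Matrix.diagonal w) = del i (Q + dw w s) +
        Matrix.diagonal fun j => if i.succAbove j ∈ s then 0 else w (i.succAbove j) := by
      rw [e1]
      exact del_dw _ i _
    have a1' : Q.det ≤ (Q + dw w s).det := a1.2.2.2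
    have a2' : P12 (del i Q) ≤ P12 (del i (Q + dw w s)) := by
      rw [e2]
      exact a2.2.2.1
    have a3' : (Q + dw w s).det ≤ (Q + Matrix.diagonal w).det := by
      rw [e1]
      exact a3.2.2.2
    have a4' : P12 (del i (Q + dw w s)) ≤ P12 (del i (Q + Matrix.diagonal w)) := by
      rw [e3]
      exact a4.2.2.1
    have a5' : (del i (Q + dw w s)).det ≤ (del i (Q + Matrix.diagonal w)).det := by
      rw [e3]
      exact a4.2.2.2
    have h3 := (posDef_del h1 i).det_pos
    rw [Finset.sum_insert hi, Finset.sum_insert hi, dw_insert w hi, ← add_assoc,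
      P12_add h1 h2 i (hw i)]
    refine ⟨?_, ?_⟩
    · have b1 := mul_le_mul_of_nonneg_left (add_le_add a2' (mul_le_mul_of_nonneg_left a1'
        (by norm_num : (0 : ℝ) ≤ 2))) (hw i)
      have b2 : 0 ≤ w i ^ 2 * (del i (Q + dw w s)).det := by positivity
      linarith [ih.1]
    · have b1 := mul_le_mul_of_nonneg_left (add_le_add a4' (mul_le_mul_of_nonneg_left a3'
        (by norm_num : (0 : ℝ) ≤ 2))) (hw i)
      have b2 := mul_le_mul_of_nonneg_left a5' (sq_nonneg (w i))
      linarith [ih.2]

private theorem fam_add (c : Fin n → ℝ) (C C' : ℝ) :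
    fam c C + Matrix.diagonal (fun i => (C' - C) * c i) = fam c C' := by
  ext a b
  unfold fam
  rw [Matrix.add_apply, Matrix.of_apply, Matrix.of_apply, Matrix.diagonal_apply]
  by_cases hab : a = b
  · subst hab
    simp only [if_true]
    ring
  · simp only [hab, if_false]
    ring

theorem inc_ge {c : Fin (n + 1) → ℝ} {C C' : ℝ} (hc : ∀ i, 0 < c i) (hC : ∑ i, c i < C)
    (hCC : C ≤ C') :
    (C' - C) * ∑ i, c i * (P12 (fam (fun j => c (i.succAbove j)) C) + 2 * (fam c C).det) ≤
      P12 (fam c C') - P12 (fam c C) := by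
  have h1 := (two_bounds (fam_posDef hc hC) (fam_fk hc hC) (w := fun i => (C' - C) * c i)
    (fun i => mul_nonneg (by linarith) (hc i).le) Finset.univ).1
  rw [dw_univ, fam_add] at h1
  refine le_trans (le_of_eq ?_) h1
  rw [Finset.mul_sum]
  refine Finset.sum_congr rfl fun i _ => ?_
  rw [fam_del, mul_assoc]

theorem inc_le {c : Fin (n + 1) → ℝ} {C C' : ℝ} (hc : ∀ i, 0 < c i) (hC : ∑ i, c i < C)
    (hCC : C ≤ C') :
    P12 (fam c C') - P12 (fam c C) ≤
      (C' - C) * ∑ i, c i * (P12 (fam (fun j => c (i.succAbove j)) C') + 2 * (fam c C').det) +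
      (C' - C) ^ 2 * ∑ i, c i ^ 2 * (fam (fun j => c (i.succAbove j)) C').det := by
  have h1 := (two_bounds (fam_posDef hc hC) (fam_fk hc hC) (w := fun i => (C' - C) * c i)
    (fun i => mul_nonneg (by linarith) (hc i).le) Finset.univ).2
  rw [dw_univ, fam_add] at h1
  refine le_trans h1 (le_of_eq ?_)
  rw [Finset.mul_sum, Finset.mul_sum, ← Finset.sum_add_distrib]
  refine Finset.sum_congr rfl fun i _ => ?_
  rw [fam_del]
  ring

theorem P12_lim {c : Fin (n + 1) → ℝ} (hc : ∀ i, 0 < c i) :
    ∃ K : ℝ, ∀ C, ∑ i, c i < C → C < ∑ i, c i + 1 →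
      |P12 (fam c C)| ≤ K * (C - ∑ i, c i) := by
  set S := ∑ i, c i with hS
  have hS0 : 0 ≤ S := Finset.sum_nonneg fun i _ => (hc i).le
  refine ⟨12 * ((∏ i, c i) * (S + 1) ^ n) * ((S + 1) * S), fun C hC hC1 => ?_⟩
  have hP : 0 < ∏ i, c i := Finset.prod_pos fun i _ => hc i
  have hpd := fam_posDef hc hC
  have h1 : |FF (fam c C)| ≤ (S + 1) * S := by
    have h2 : ∀ x ∈ cube (n + 1), ‖dsq (fam c C) x‖ ≤ (S + 1) * S := by
      intro x hx
      rw [Real.norm_eq_abs, abs_of_nonneg (dsq_nonneg hpd x)]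
      have h3 := dsq_le hpd x 0
      have h4 : x - ic (0 : Fin (n + 1) → ℤ) = x := by
        funext i
        simp [ic]
      rw [h4] at h3
      have h5 : qf (fam c C) x = C * ∑ i, c i * x i ^ 2 - (∑ i, c i * x i) ^ 2 := by
        unfold qf dotProduct mulVec dotProduct fam
        simp only [Matrix.of_apply, sub_mul, ite_mul, zero_mul, Finset.sum_sub_distrib,
          Finset.sum_ite_eq, Finset.mem_univ, if_true, mul_sub]
        congr 1
        · rw [Finset.mul_sum]
          exact Finset.sum_congr rfl fun i _ => by ring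
        · rw [sq, Finset.sum_mul_sum]
          refine Finset.sum_congr rfl fun i _ => ?_
          rw [Finset.mul_sum]
          exact Finset.sum_congr rfl fun j _ => by ring
      have h6 : ∑ i, c i * x i ^ 2 ≤ S := by
        rw [hS]
        refine Finset.sum_le_sum fun i _ => ?_
        have h7 := hx i (Set.mem_univ i)
        have h8 : x i ^ 2 ≤ 1 := by
          have := h7.1
          have := h7.2
          nlinarith
        nlinarith [hc i]
      have h9 : 0 ≤ ∑ i, c i * x i ^ 2 :=
        Finset.sum_nonneg fun i _ => mul_nonneg (hc i).le (sq_nonneg _)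
      rw [h5] at h3
      nlinarith [sq_nonneg (∑ i, c i * x i)]
    have h10 := norm_setIntegral_le_of_norm_le_const (μ := volume) (s := cube (n + 1))
      (f := dsq (fam c C)) (C := (S + 1) * S) (by rw [vol_cube]; exact ENNReal.one_lt_top) h2
    rw [Measure.real, vol_cube, ENNReal.toReal_one, mul_one] at h10
    exact h10
  unfold P12
  rw [fam_det, ← hS, abs_mul, abs_mul, abs_mul, abs_mul, abs_of_nonneg (by norm_num : (0 : ℝ) ≤ 12),
    abs_of_pos hP, abs_of_nonneg (pow_nonneg (by linarith : (0 : ℝ) ≤ C) n),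
    abs_of_nonneg (by linarith : (0 : ℝ) ≤ C - S)]
  have h11 : C ^ n ≤ (S + 1) ^ n := pow_le_pow_left₀ (by linarith) (by linarith) n
  have h12 : 0 ≤ C - S := by linarith
  calc 12 * ((∏ i, c i) * C ^ n * (C - S)) * |FF (fam c C)|
      ≤ 12 * ((∏ i, c i) * (S + 1) ^ n * (C - S)) * ((S + 1) * S) := by
        gcongr
    _ = 12 * ((∏ i, c i) * (S + 1) ^ n) * ((S + 1) * S) * (C - S) := by ring

end Pool.Agent.H99V
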