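import Pool.Agent.H99V.Defs

set_option autoImplicit false

/-!
# Lattice layer: superbases, polars, bases
-/

namespace Pool.Agent.H99V

open MeasureTheory Matrix Pool.Agent.D4Q

variable {n : ℕ}

/-- `L` is the polar of `M`. -/
def IsPolarOf (L M : Submodule ℤ (EuclideanSpace ℝ (Fin n))) : Prop :=
  ∀ y : EuclideanSpace ℝ (Fin n), y ∈ L ↔ ∀ v ∈ M, ∃ k : ℤ, inner ℝ y v = (k : ℝ)

/-- `v` is a superbase of `L`: `n + 1` vectors with sum `0` which generate `L`. -/
def IsSuperbase (v : Fin (n + 1) → EuclideanSpace ℝ (Fin n))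
    (L : Submodule ℤ (EuclideanSpace ℝ (Fin n))) : Prop :=
  ∑ i, v i = 0 ∧ L = Submodule.span ℤ (Set.range v)

/-- Voronoi's first kind. -/
def FirstKind (L : Submodule ℤ (EuclideanSpace ℝ (Fin n))) : Prop :=
  ∃ v : Fin (n + 1) → EuclideanSpace ℝ (Fin n), IsSuperbase v L ∧
    ∀ i j, i ≠ j → inner ℝ (v i) (v j) ≤ 0

/-- Similar to the polar of the root lattice `A_n`. -/
def IsAStar (L : Submodule ℤ (EuclideanSpace ℝ (Fin n))) : Prop :=
  ∃ v : Fin (n + 1) → EuclideanSpace ℝ (Fin n), ∃ κ : ℝ, IsSuperbase v L ∧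
    ∀ i j, i ≠ j → inner ℝ (v i) (v j) = -κ

/-- `b` is a basis of the lattice `L`. -/
def IsBasis (b : Fin n → EuclideanSpace ℝ (Fin n))
    (L : Submodule ℤ (EuclideanSpace ℝ (Fin n))) : Prop :=
  LinearIndependent ℝ b ∧ L = Submodule.span ℤ (Set.range b)

theorem span_super {v : Fin (n + 1) → EuclideanSpace ℝ (Fin n)} (hv : ∑ i, v i = 0) :
    Submodule.span ℤ (Set.range v) = Submodule.span ℤ (Set.range fun i : Fin n => v i.succ) := by
  apply le_antisymm
  · rw [Submodule.span_le]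
    rintro _ ⟨i, rfl⟩
    refine Fin.cases ?_ (fun j => ?_) i
    · have h1 : v 0 = -∑ j : Fin n, v j.succ := by
        rw [Fin.sum_univ_succ] at hv
        exact eq_neg_of_add_eq_zero_left hv
      rw [h1]
      exact Submodule.neg_mem _ (Submodule.sum_mem _ fun j _ => Submodule.subset_span ⟨j, rfl⟩)
    · exact Submodule.subset_span ⟨j, rfl⟩
  · rw [Submodule.span_le]
    rintro _ ⟨i, rfl⟩
    exact Submodule.subset_span ⟨i.succ, rfl⟩

/-- The last `n` vectors of a superbase of a lattice are a basis. -/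
theorem super_basis {v : Fin (n + 1) → EuclideanSpace ℝ (Fin n)}
    {L : Submodule ℤ (EuclideanSpace ℝ (Fin n))} [DiscreteTopology L] [IsZLattice ℝ L]
    (h : IsSuperbase v L) : IsBasis (fun i : Fin n => v i.succ) L := by
  have hL : L = Submodule.span ℤ (Set.range fun i : Fin n => v i.succ) := by
    rw [h.2, span_super h.1]
  refine ⟨?_, hL⟩
  have h1 : Submodule.span ℝ (L : Set (EuclideanSpace ℝ (Fin n))) = ⊤ := IsZLattice.span_top
  have h2 : (⊤ : Submodule ℝ (EuclideanSpace ℝ (Fin n))) ≤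
      Submodule.span ℝ (Set.range fun i : Fin n => v i.succ) := by
    rw [← h1, Submodule.span_le]
    intro x hx
    have hx' : x ∈ Submodule.span ℤ (Set.range fun i : Fin n => v i.succ) := hL ▸ hx
    exact (Submodule.span_le_restrictScalars ℤ ℝ _) hx'
  exact linearIndependent_of_top_le_span_of_card_eq_finrank h2 (by simp)

/-- The form of a superbase. -/
theorem form_of_super {v : Fin (n + 1) → EuclideanSpace ℝ (Fin n)}
    {L : Submodule ℤ (EuclideanSpace ℝ (Fin n))} [DiscreteTopology L] [IsZLattice ℝ L]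
    (h : IsSuperbase v L) :
    HasForm L (Matrix.of fun i j => inner ℝ (v i.succ) (v j.succ)) :=
  ⟨fun i => v i.succ, (super_basis h).1, (super_basis h).2, fun _ _ => rfl⟩

theorem super_fk {v : Fin (n + 1) → EuclideanSpace ℝ (Fin n)} (hv : ∑ i, v i = 0)
    (h : ∀ i j, i ≠ j → inner ℝ (v i) (v j) ≤ 0) :
    FK (Matrix.of fun i j : Fin n => (inner ℝ (v i.succ) (v j.succ) : ℝ)) := by
  refine ⟨fun i j => real_inner_comm (v j.succ) (v i.succ), fun i j hij => ?_, fun i => ?_⟩
  · exact h _ _ fun h' => hij (Fin.succ_injective _ h')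
  · have h1 : ∑ j : Fin n, (inner ℝ (v i.succ) (v j.succ) : ℝ) = -inner ℝ (v i.succ) (v 0) := by
      have h2 : (inner ℝ (v i.succ) (∑ j, v j) : ℝ) = 0 := by rw [hv, inner_zero_right]
      rw [inner_sum, Fin.sum_univ_succ] at h2
      linarith
    show 0 ≤ ∑ j : Fin n, (inner ℝ (v i.succ) (v j.succ) : ℝ)
    rw [h1]
    have := h i.succ 0 (Fin.succ_ne_zero i)
    linarith

/-- A basis with a Gram matrix in the principal domain gives an obtuse superbase. -/
theorem firstKind_of_form {L : Submodule ℤ (EuclideanSpace ℝ (Fin n))}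
    {Q : Matrix (Fin n) (Fin n) ℝ} (h : HasForm L Q) (hQ : FK Q) : FirstKind L := by
  obtain ⟨b, hb, hL, hG⟩ := h
  have hs : ∑ i, (Fin.cons (-∑ j, b j) b : Fin (n + 1) → EuclideanSpace ℝ (Fin n)) i = 0 := by
    rw [Fin.sum_univ_succ]
    simp
  refine ⟨Fin.cons (-∑ j, b j) b, ⟨hs, ?_⟩, ?_⟩
  · rw [span_super hs, hL]
    rfl
  · have h0 : ∀ j, inner ℝ (-∑ i, b i) (b j) ≤ (0 : ℝ) := by
      intro j
      rw [inner_neg_left, sum_inner]
      have h1 := hQ.2.2 j
      have h2 : ∑ i, Q j i = ∑ i, inner ℝ (b i) (b j) :=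
        Finset.sum_congr rfl fun i _ => by rw [hG, real_inner_comm]
      rw [h2] at h1
      linarith
    intro i j hij
    refine Fin.cases (fun h => ?_) (fun i h => ?_) i hij
    · refine Fin.cases (fun h => absurd rfl h) (fun j _ => ?_) j h
      rw [Fin.cons_zero, Fin.cons_succ]
      exact h0 j
    · refine Fin.cases (fun h => ?_) (fun j h => ?_) j h
      · rw [Fin.cons_zero, Fin.cons_succ, real_inner_comm]
        exact h0 i
      · rw [Fin.cons_succ, Fin.cons_succ, ← hG]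
        exact hQ.2.1 _ _ fun h' => h (by rw [h'])

/-! ### Dual bases (the first lemmas are copies of private lemmas of `D4Q.LatD`) -/

private theorem eq_of_inner {b : Fin n → EuclideanSpace ℝ (Fin n)} (hb : LinearIndependent ℝ b)
    {y z : EuclideanSpace ℝ (Fin n)} (h : ∀ j, inner ℝ y (b j) = inner ℝ z (b j)) : y = z := by
  have hsp : ∀ v : EuclideanSpace ℝ (Fin n), v ∈ Submodule.span ℝ (Set.range b) := by
    intro v
    rw [hb.span_eq_top_of_card_eq_finrank' (by simp)]
    exact Submodule.mem_top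
  have h1 : ∀ v : EuclideanSpace ℝ (Fin n), inner ℝ (y - z) v = 0 := by
    intro v
    obtain ⟨a, ha⟩ := (Submodule.mem_span_range_iff_exists_fun ℝ).1 (hsp v)
    rw [← ha, inner_sum]
    refine Finset.sum_eq_zero fun i _ => ?_
    rw [real_inner_smul_right, inner_sub_left, h i, sub_self, mul_zero]
  have h2 := h1 (y - z)
  rw [inner_self_eq_zero] at h2
  exact sub_eq_zero.1 h2

private theorem dual_expand {b c : Fin n → EuclideanSpace ℝ (Fin n)} (hb : LinearIndependent ℝ b)
    (hcb : ∀ i j, inner ℝ (c i) (b j) = if i = j then (1 : ℝ) else 0)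
    (y : EuclideanSpace ℝ (Fin n)) : y = ∑ i, (inner ℝ y (b i) : ℝ) • c i := by
  refine eq_of_inner hb fun j => ?_
  rw [sum_inner]
  simp [real_inner_smul_left, hcb]

private theorem dual_li {b c : Fin n → EuclideanSpace ℝ (Fin n)}
    (hcb : ∀ i j, inner ℝ (c i) (b j) = if i = j then (1 : ℝ) else 0) :
    LinearIndependent ℝ c := by
  rw [Fintype.linearIndependent_iff]
  intro x hx j
  have h1 : inner ℝ (∑ i, x i • c i) (b j) = (0 : ℝ) := by rw [hx, inner_zero_left]
  rw [sum_inner] at h1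
  simpa [real_inner_smul_left, hcb] using h1

private theorem int_smul_eq (k : ℤ) (v : EuclideanSpace ℝ (Fin n)) : k • v = (k : ℝ) • v :=
  (Int.cast_smul_eq_zsmul ℝ k v).symm

private theorem mem_dual {b c : Fin n → EuclideanSpace ℝ (Fin n)} (hb : LinearIndependent ℝ b)
    (hcb : ∀ i j, inner ℝ (c i) (b j) = if i = j then (1 : ℝ) else 0)
    (y : EuclideanSpace ℝ (Fin n)) :
    y ∈ Submodule.span ℤ (Set.range c) ↔
      ∀ v ∈ Submodule.span ℤ (Set.range b), ∃ k : ℤ, inner ℝ y v = (k : ℝ) := by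
  constructor
  · intro hy v hv
    obtain ⟨a, rfl⟩ := (Submodule.mem_span_range_iff_exists_fun ℤ).1 hy
    obtain ⟨d, rfl⟩ := (Submodule.mem_span_range_iff_exists_fun ℤ).1 hv
    refine ⟨∑ i, a i * d i, ?_⟩
    rw [sum_inner]
    push_cast
    refine Finset.sum_congr rfl fun i _ => ?_
    rw [inner_sum, int_smul_eq]
    simp only [int_smul_eq, real_inner_smul_left, real_inner_smul_right, hcb]
    simp [mul_comm]
  · intro h
    have h1 : ∀ i, ∃ k : ℤ, inner ℝ y (b i) = (k : ℝ) := fun i =>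
      h (b i) (Submodule.subset_span ⟨i, rfl⟩)
    choose k hk using h1
    refine (Submodule.mem_span_range_iff_exists_fun ℤ).2 ⟨k, ?_⟩
    conv_rhs => rw [dual_expand hb hcb y]
    refine Finset.sum_congr rfl fun i _ => ?_
    rw [int_smul_eq, hk i]

/-- The Gram matrix. -/
noncomputable def gram (b : Fin n → EuclideanSpace ℝ (Fin n)) : Matrix (Fin n) (Fin n) ℝ :=
  Matrix.of fun i j => inner ℝ (b i) (b j)

theorem gram_posDef {b : Fin n → EuclideanSpace ℝ (Fin n)} (hb : LinearIndependent ℝ b) :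
    (gram b).PosDef :=
  hasForm_posDef (L := Submodule.span ℤ (Set.range b)) ⟨b, hb, rfl, fun _ _ => rfl⟩

/-- The dual basis is `c i = ∑ j, (gram b)⁻¹ i j • b j`. -/
theorem dual_basis {b : Fin n → EuclideanSpace ℝ (Fin n)} (hb : LinearIndependent ℝ b) :
    ∃ c : Fin n → EuclideanSpace ℝ (Fin n),
      (∀ i j, inner ℝ (c i) (b j) = if i = j then (1 : ℝ) else 0) ∧
      (gram b)⁻¹ = gram c ∧ LinearIndependent ℝ c := by
  have hQd := gram_posDef hb
  have hdet : IsUnit (gram b).det := isUnit_iff_ne_zero.2 hQd.det_pos.ne'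
  have hQ : ∀ i j, gram b i j = inner ℝ (b i) (b j) := fun _ _ => rfl
  have hcb : ∀ i j, inner ℝ (∑ k, (gram b)⁻¹ i k • b k) (b j) =
      if i = j then (1 : ℝ) else 0 := by
    intro i j
    rw [sum_inner]
    have h1 : ∑ k, inner ℝ ((gram b)⁻¹ i k • b k) (b j) = ((gram b)⁻¹ * gram b) i j := by
      rw [Matrix.mul_apply]
      refine Finset.sum_congr rfl fun k _ => ?_
      rw [real_inner_smul_left, hQ]
    rw [h1, Matrix.nonsing_inv_mul _ hdet, Matrix.one_apply]
  refine ⟨fun i => ∑ j, (gram b)⁻¹ i j • b j, hcb, ?_, dual_li hcb⟩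
  ext i j
  have h2 : inner ℝ (∑ k, (gram b)⁻¹ i k • b k) (∑ l, (gram b)⁻¹ j l • b l) =
      (gram b)⁻¹ j i := by
    rw [inner_sum]
    simp only [real_inner_smul_right, hcb]
    simp
  have h3 : ((gram b)⁻¹)ᵀ = (gram b)⁻¹ := by
    rw [Matrix.transpose_nonsing_inv]
    congr 1
    ext i j
    rw [Matrix.transpose_apply, hQ, hQ, real_inner_comm]
  have h4 : (gram b)⁻¹ i j = (gram b)⁻¹ j i := by
    conv_lhs => rw [← h3]
    rfl
  rw [h4, ← h2]
  rfl

theorem polar_span {b c : Fin n → EuclideanSpace ℝ (Fin n)} (hb : LinearIndependent ℝ b)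
    (hcb : ∀ i j, inner ℝ (c i) (b j) = if i = j then (1 : ℝ) else 0) :
    IsPolarOf (Submodule.span ℤ (Set.range c)) (Submodule.span ℤ (Set.range b)) :=
  fun y => mem_dual hb hcb y

theorem polar_basis {b c : Fin n → EuclideanSpace ℝ (Fin n)}
    {L M : Submodule ℤ (EuclideanSpace ℝ (Fin n))} (hb : IsBasis b M) (h : IsPolarOf L M)
    (hcb : ∀ i j, inner ℝ (c i) (b j) = if i = j then (1 : ℝ) else 0) : IsBasis c L := by
  refine ⟨dual_li hcb, ?_⟩
  ext y
  rw [h y, mem_dual hb.1 hcb y, hb.2]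

theorem polar_symm {L M : Submodule ℤ (EuclideanSpace ℝ (Fin n))}
    {b : Fin n → EuclideanSpace ℝ (Fin n)} (hb : IsBasis b M) (h : IsPolarOf L M) :
    IsPolarOf M L := by
  obtain ⟨c, hcb, -, hc⟩ := dual_basis hb.1
  have hcL := polar_basis hb h hcb
  have hbc : ∀ i j, inner ℝ (b i) (c j) = if i = j then (1 : ℝ) else 0 := by
    intro i j
    rw [real_inner_comm, hcb]
    simp [eq_comm]
  intro y
  rw [hb.2, hcL.2, mem_dual hc hbc y]

theorem exists_basis (L : Submodule ℤ (EuclideanSpace ℝ (Fin n))) [DiscreteTopology L]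
    [IsZLattice ℝ L] : ∃ b, IsBasis b L := by
  obtain ⟨Q, b, hb, hL, -⟩ := exists_form L
  exact ⟨b, hb, hL⟩

theorem basis_form {b : Fin n → EuclideanSpace ℝ (Fin n)}
    {L : Submodule ℤ (EuclideanSpace ℝ (Fin n))} (h : IsBasis b L) : HasForm L (gram b) :=
  ⟨b, h.1, h.2, fun _ _ => rfl⟩

end Pool.Agent.H99V
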