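import Pool.Agent.H99V.Exi

set_option autoImplicit false

/-!
# The only local maxima of the density whose polars are of Voronoi's first kind are the `A_n`
-/

namespace Pool.Agent.H99V

open MeasureTheory Matrix Pool.Agent.D4Q Filter Topology

theorem oneJ_min (m : ℕ) {l : Fin (m + 1) → ℤ} (hl : l ≠ 0) : 2 ≤ qf (P2.oneJ m) (ic l) := by
  have hm : (0 : ℝ) < (m : ℝ) + 2 := by positivity
  have h1 := star_min m (κ := 1 / ((m : ℝ) + 2)) (by positivity) hl
  rw [star_inv m (by positivity), mul_one_div_cancel hm.ne', inv_one, one_smul, div_one] at h1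
  exact h1

theorem qf_add_smul {n : ℕ} (A B : Matrix (Fin n) (Fin n) ℝ) (a b : ℝ) (x : Fin n → ℝ) :
    qf (a • A + b • B) x = a * qf A x + b * qf B x := by
  unfold qf
  rw [Matrix.add_mulVec, Matrix.smul_mulVec, Matrix.smul_mulVec, dotProduct_add,
    dotProduct_smul, dotProduct_smul, smul_eq_mul, smul_eq_mul]

/-- A superbase with the right Gram matrix. -/
theorem aStar_of_entries {m : ℕ} {L : Submodule ℤ (EuclideanSpace ℝ (Fin (m + 1)))}
    {v : Fin (m + 1 + 1) → EuclideanSpace ℝ (Fin (m + 1))} (hv : IsSuperbase v L) {κ' : ℝ}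
    (hin : ∀ i j : Fin (m + 1), (inner ℝ (v i.succ) (v j.succ) : ℝ) =
        if i = j then (m + 1) * κ' else -κ') : IsAStar L := by
  have h0 : ∀ j : Fin (m + 1), (inner ℝ (v j.succ) (v 0) : ℝ) = -κ' := by
    intro j
    have h7 : (inner ℝ (v j.succ) (∑ k, v k) : ℝ) = 0 := by rw [hv.1, inner_zero_right]
    rw [inner_sum, Fin.sum_univ_succ] at h7
    have h8 : ∑ i : Fin (m + 1), (inner ℝ (v j.succ) (v i.succ) : ℝ) = κ' := by
      rw [Finset.sum_congr rfl fun i _ => hin j i]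
      rw [← Finset.add_sum_erase _ _ (Finset.mem_univ j), if_pos rfl]
      rw [Finset.sum_congr rfl fun i hi => if_neg (Finset.ne_of_mem_erase hi).symm]
      rw [Finset.sum_const, Finset.card_erase_of_mem (Finset.mem_univ _), Finset.card_univ,
        Fintype.card_fin]
      simp
      ring
    linarith
  refine ⟨v, κ', hv, fun i j hij => ?_⟩
  refine Fin.cases (fun h => ?_) (fun i h => ?_) i hij
  · refine Fin.cases (fun h => absurd rfl h) (fun j _ => ?_) j h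
    rw [real_inner_comm]
    exact h0 j
  · refine Fin.cases (fun _ => h0 i) (fun j h => ?_) j h
    rw [hin, if_neg fun h' => h (by rw [h'])]

/-- The path to the form of `A_n`. -/
noncomputable def pth {m : ℕ} (Q : Matrix (Fin (m + 1)) (Fin (m + 1)) ℝ) (μ t : ℝ) :
    Matrix (Fin (m + 1)) (Fin (m + 1)) ℝ :=
  (1 - t) • Q⁻¹ + (t * (μ / 2)) • P2.oneJ m

theorem pth_posDef {m : ℕ} {Q : Matrix (Fin (m + 1)) (Fin (m + 1)) ℝ} (hQ : Q.PosDef) {μ : ℝ}
    (hμ : 0 < μ) {t : ℝ} (ht : 0 < t) (ht1 : t < 1) : (pth Q μ t).PosDef :=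
  (hQ.inv.smul (by linarith : (0 : ℝ) < 1 - t)).add
    ((P2.oneJ_posDef m).smul (by positivity : (0 : ℝ) < t * (μ / 2)))

theorem pth_min {m : ℕ} {Q : Matrix (Fin (m + 1)) (Fin (m + 1)) ℝ} {μ : ℝ} (hμ : 0 < μ)
    (hm : ∀ l : Fin (m + 1) → ℤ, l ≠ 0 → μ ≤ qf Q⁻¹ (ic l)) {t : ℝ} (ht : 0 < t) (ht1 : t < 1)
    {l : Fin (m + 1) → ℤ} (hl : l ≠ 0) : μ ≤ qf (pth Q μ t) (ic l) := by
  unfold pth
  rw [qf_add_smul]
  have h1 := hm l hl
  have h2 := oneJ_min m hl
  have h3 : (1 - t) * μ ≤ (1 - t) * qf Q⁻¹ (ic l) :=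
    mul_le_mul_of_nonneg_left h1 (by linarith)
  have h4 : t * (μ / 2) * 2 ≤ t * (μ / 2) * qf (P2.oneJ m) (ic l) :=
    mul_le_mul_of_nonneg_left h2 (by positivity)
  nlinarith

theorem pth_det {m : ℕ} {Q : Matrix (Fin (m + 1)) (Fin (m + 1)) ℝ} (hQ : Q.PosDef) (hF : FK Q)
    (hd : Q.det = 1) {μ : ℝ} (hμ : 0 < μ)
    (hm : ∀ l : Fin (m + 1) → ℤ, l ≠ 0 → μ ≤ qf Q⁻¹ (ic l)) {t : ℝ} (ht : 0 < t) (ht1 : t < 1)
    (hne : Q⁻¹ ≠ (μ / 2) • P2.oneJ m) : (pth Q μ t).det < 1 := by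
  by_contra hcon
  have hge : 1 ≤ (pth Q μ t).det := not_lt.1 hcon
  have hS := pth_posDef hQ hμ ht ht1
  obtain ⟨h1, h2⟩ := P2.trace_amgm hS hQ
  have hQu : IsUnit Q.det := by
    rw [hd]
    exact isUnit_one
  have htr : (pth Q μ t * Q).trace = (1 - t) * (m + 1) + t * (μ / 2) * (P2.oneJ m * Q).trace := by
    unfold pth
    rw [Matrix.add_mul, Matrix.smul_mul, Matrix.smul_mul, Matrix.nonsing_inv_mul Q hQu,
      Matrix.trace_add, Matrix.trace_smul, Matrix.trace_smul, Matrix.trace_one, Fintype.card_fin,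
      smul_eq_mul, smul_eq_mul]
    push_cast
    ring
  have h3 := P2.trace_le hQ hF hm
  have h4 : 0 ≤ (P2.oneJ m * Q).trace := by
    rw [P2.trace_oneJ]
    refine add_nonneg ?_ (Finset.sum_nonneg fun i _ => hF.2.2 i)
    unfold Matrix.trace
    exact Finset.sum_nonneg fun i _ => (hQ.diag_pos (i := i)).le
  have h5 : (pth Q μ t * Q).trace ≤ (m : ℝ) + 1 := by
    rw [htr]
    nlinarith
  have h6 : 0 ≤ (pth Q μ t * Q).trace := by
    rw [htr]
    have h7 : 0 ≤ (1 - t) * ((m : ℝ) + 1) := mul_nonneg (by linarith) (by positivity)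
    have h8 : 0 ≤ t * (μ / 2) * (P2.oneJ m * Q).trace := mul_nonneg (by positivity) h4
    linarith
  have h7 : (pth Q μ t * Q).trace ^ (m + 1) ≤ ((m : ℝ) + 1) ^ (m + 1) :=
    pow_le_pow_left₀ h6 h5 _
  have h8 : (0 : ℝ) < ((m : ℝ) + 1) ^ (m + 1) := by positivity
  rw [hd, mul_one] at h1 h2
  have h9 : ((m : ℝ) + 1) ^ (m + 1) ≤ ((m : ℝ) + 1) ^ (m + 1) * (pth Q μ t).det := by
    nlinarith
  obtain ⟨c, hc, hQc⟩ := h2 (le_antisymm h1 (h7.trans h9))
  have h10 : (pth Q μ t * Q).trace ^ (m + 1) = ((m : ℝ) + 1) ^ (m + 1) :=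
    le_antisymm h7 (h9.trans h1)
  have h11 : (pth Q μ t * Q).trace = (m : ℝ) + 1 :=
    (pow_left_inj₀ h6 (by positivity) (by omega)).1 h10
  have hSu : IsUnit (pth Q μ t).det := hS.det_pos.ne'.isUnit
  have h12 : pth Q μ t * Q = c • (1 : Matrix (Fin (m + 1)) (Fin (m + 1)) ℝ) := by
    have h := congrArg (fun X : Matrix (Fin (m + 1)) (Fin (m + 1)) ℝ => pth Q μ t * X) hQc
    refine h.trans ?_
    show pth Q μ t * (c • (pth Q μ t)⁻¹) = _
    rw [Matrix.mul_smul, Matrix.mul_nonsing_inv _ hSu]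
  have h13 : c = 1 := by
    rw [h12, Matrix.trace_smul, Matrix.trace_one, Fintype.card_fin, smul_eq_mul] at h11
    push_cast at h11
    have h14 : (0 : ℝ) < (m : ℝ) + 1 := by positivity
    nlinarith
  rw [h13, one_smul] at h12
  have h14 : pth Q μ t = Q⁻¹ := (Matrix.inv_eq_left_inv h12).symm
  refine hne ?_
  have h15 : t • Q⁻¹ = t • ((μ / 2) • P2.oneJ m) := by
    unfold pth at h14
    rw [smul_smul]
    have h16 : (1 - t) • Q⁻¹ + (t * (μ / 2)) • P2.oneJ m = (1 - t) • Q⁻¹ + t • Q⁻¹ := by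
      rw [h14, ← add_smul, sub_add_cancel, one_smul]
    exact (add_left_cancel h16).symm
  exact smul_right_injective _ ht.ne' h15

theorem aStar_of_locmax {m : ℕ} {L M : Submodule ℤ (EuclideanSpace ℝ (Fin (m + 1)))}
    [DiscreteTopology L] [IsZLattice ℝ L] [DiscreteTopology M] [IsZLattice ℝ M]
    (hL : ZLattice.covolume L = 1) (hF : FirstKind L) (hLM : IsPolarOf L M)
    {b : Fin (m + 1) → EuclideanSpace ℝ (Fin (m + 1))} (hb : IsBasis b M) {η : ℝ} (hη : 0 < η)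
    (hmax : ∀ (M' : Submodule ℤ (EuclideanSpace ℝ (Fin (m + 1)))) (_ : DiscreteTopology M')
      (_ : IsZLattice ℝ M') (b' : Fin (m + 1) → EuclideanSpace ℝ (Fin (m + 1))), IsBasis b' M' →
      (∀ i, ‖b' i - b i‖ < η) → ZLattice.covolume M' = 1 → MinLe M' M) : IsAStar L := by
  obtain ⟨v, hv, hv0⟩ := hF
  have hf := form_of_super hv
  have hfk := super_fk hv.1 hv0
  obtain ⟨Q, hQ⟩ : ∃ Q : Matrix (Fin (m + 1)) (Fin (m + 1)) ℝ,
    Q = Matrix.of fun i j => (inner ℝ (v i.succ) (v j.succ) : ℝ) := ⟨_, rfl⟩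
  rw [← hQ] at hf hfk
  have hfM : HasForm M Q⁻¹ := hasForm_dual hf (polar_symm hb hLM)
  have hQp : Q.PosDef := hasForm_posDef hf
  have hQd : Q.det = 1 := by rw [← covolume_sq hf, hL, one_pow]
  obtain ⟨l0, hl0, hmin⟩ := exists_min (hasForm_posDef hfM)
  obtain ⟨μ, hμd⟩ : ∃ μ : ℝ, μ = qf Q⁻¹ (ic l0) := ⟨_, rfl⟩
  rw [← hμd] at hmin
  obtain ⟨u, hu, hu0, hun⟩ := (mem_iff hfM (qf Q⁻¹ (ic l0))).2 ⟨l0, hl0, rfl⟩
  rw [← hμd] at hun
  have hμ : 0 < μ := by
    rw [← hun]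
    have := norm_pos_iff.2 hu0
    positivity
  by_cases hne : Q⁻¹ = (μ / 2) • P2.oneJ m
  · -- the form is the right one
    have hk : (0 : ℝ) < 2 / (((m : ℝ) + 2) * μ) := by positivity
    have h1 : (star m (2 / (((m : ℝ) + 2) * μ)))⁻¹ = (μ / 2) • P2.oneJ m := by
      rw [star_inv m hk]
      have : (((m : ℝ) + 2) * (2 / (((m : ℝ) + 2) * μ)))⁻¹ = μ / 2 := by
        field_simp
      rw [this]
      rfl
    have h2 : Q = star m (2 / (((m : ℝ) + 2) * μ)) := by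
      have hs : (star m (2 / (((m : ℝ) + 2) * μ))).PosDef := by
        rw [star_eq]
        exact (XQ_posDef m one_pos le_rfl).smul hk
      have h3 : (Q⁻¹)⁻¹ = ((star m (2 / (((m : ℝ) + 2) * μ)))⁻¹)⁻¹ := by
        rw [hne, h1]
      rwa [Matrix.nonsing_inv_nonsing_inv _ hQp.det_pos.ne'.isUnit,
        Matrix.nonsing_inv_nonsing_inv _ hs.det_pos.ne'.isUnit] at h3
    refine aStar_of_entries hv (κ' := 2 / (((m : ℝ) + 2) * μ)) fun i j => ?_
    have h3 : Q i j = (inner ℝ (v i.succ) (v j.succ) : ℝ) := by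
      rw [hQ]
      rfl
    rw [← h3, h2]
    rfl
  · exfalso
    have hfM' := hfM
    obtain ⟨c, hc1, hc2, hc3⟩ := hfM'
    have hgc : gram c = Q⁻¹ := by
      ext i j
      exact (hc3 i j).symm
    obtain ⟨W, hW, -, hbW⟩ := unimod hb ⟨hc1, hc2⟩
    rw [hgc] at hbW
    obtain ⟨δ, hδ, hnear⟩ := near_basis hb.1 hη
    obtain ⟨δ', hδ', htr⟩ := tr_near W hδ
    -- the scaling factor
    obtain ⟨lam, hlam⟩ : ∃ lam : ℝ → ℝ,
      lam = fun t => (pth Q μ t).det ^ (-(1 / ((m : ℝ) + 1))) := ⟨_, rfl⟩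
    have hp0 : pth Q μ 0 = Q⁻¹ := by
      unfold pth
      rw [sub_zero, one_smul, zero_mul, zero_smul, add_zero]
    have hpc : Continuous fun t : ℝ => pth Q μ t := by
      unfold pth
      fun_prop
    have hd0 : (pth Q μ 0).det = 1 := by
      rw [hp0, Matrix.det_nonsing_inv, Ring.inverse_eq_inv', hQd, inv_one]
    have hlam0 : lam 0 = 1 := by
      rw [hlam]
      simp only [hd0]
      exact Real.one_rpow _
    have hlamc : ContinuousAt lam 0 := by
      rw [hlam]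
      refine ContinuousAt.rpow (hpc.matrix_det).continuousAt continuousAt_const (Or.inl ?_)
      rw [hd0]
      exact one_ne_zero
    have hm1 : ((m : ℝ) + 1) ≠ 0 := by positivity
    have hent : ∀ i j, ∀ᶠ t in 𝓝 (0 : ℝ), |(lam t • pth Q μ t) i j - Q⁻¹ i j| < δ' := by
      intro i j
      have hc : ContinuousAt (fun t : ℝ => (lam t • pth Q μ t) i j - Q⁻¹ i j) 0 := by
        simp only [Matrix.smul_apply, smul_eq_mul]
        exact (hlamc.mul (hpc.matrix_elem i j).continuousAt).sub continuousAt_const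
      have h0 : (lam 0 • pth Q μ 0) i j - Q⁻¹ i j = 0 := by
        rw [hlam0, hp0, one_smul, sub_self]
      have h1 := hc.tendsto
      simp only [h0] at h1
      have h2 := h1.abs
      rw [abs_zero] at h2
      exact h2.eventually_lt_const hδ'
    have hall : ∀ᶠ t in 𝓝[>] (0 : ℝ), (∀ i j, |(lam t • pth Q μ t) i j - Q⁻¹ i j| < δ') ∧
        t < 1 ∧ 0 < t := by
      have h1 : ∀ᶠ t in 𝓝 (0 : ℝ), ∀ i j, |(lam t • pth Q μ t) i j - Q⁻¹ i j| < δ' :=
        eventually_all.2 fun i => eventually_all.2 fun j => hent i j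
      have h2 : ∀ᶠ t : ℝ in 𝓝 (0 : ℝ), t < 1 := eventually_lt_nhds one_pos
      filter_upwards [nhdsWithin_le_nhds h1, nhdsWithin_le_nhds h2, self_mem_nhdsWithin]
        with t a b c
      exact ⟨a, b, c⟩
    obtain ⟨t, hclose, ht1, ht⟩ := hall.exists
    have hS := pth_posDef hQp hμ ht ht1
    have hdp := hS.det_pos
    have hdl := pth_det hQp hfk hQd hμ hmin ht ht1 hne
    have hlt1 : 1 < lam t := by
      rw [hlam]
      have h1 : (0 : ℝ) < 1 / ((m : ℝ) + 1) := by positivity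
      exact Real.one_lt_rpow_of_pos_of_lt_one_of_neg hdp hdl (by linarith)
    have hdet : (lam t • pth Q μ t).det = 1 := by
      rw [Matrix.det_smul, Fintype.card_fin, hlam]
      simp only
      rw [← Real.rpow_natCast, ← Real.rpow_mul hdp.le]
      push_cast
      have : -(1 / ((m : ℝ) + 1)) * (m + 1) = -1 := by field_simp
      rw [this, Real.rpow_neg_one]
      exact inv_mul_cancel₀ hdp.ne'
    have hTp : (lam t • pth Q μ t).PosDef := hS.smul (by linarith)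
    obtain ⟨b', hb', hg, hbb⟩ := hnear (tr W (lam t • pth Q μ t)) (posDef_tr hTp W hW) (by
      intro i j
      rw [hbW]
      exact htr _ _ hclose i j)
    have hF' : HasForm (Submodule.span ℤ (Set.range b')) (tr W (lam t • pth Q μ t)) :=
      ⟨b', hb', rfl, fun i j => by rw [← hg]; rfl⟩
    obtain ⟨j1, j2⟩ := hasForm_lattice hF'
    have hcov : ZLattice.covolume (Submodule.span ℤ (Set.range b')) = 1 :=
      cov_of_det hF' (by rw [det_tr W hW, hdet])
    obtain ⟨w, hw, hw0, hwu⟩ := hmax _ j1 j2 b' ⟨hb', rfl⟩ hbb hcov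
    obtain ⟨l, hl, hln⟩ := (mem_iff (hasForm_of_tr hW hF') (‖w‖ ^ 2)).1 ⟨w, hw, hw0, rfl⟩
    have h1 : ‖w‖ ^ 2 ≤ μ := by
      rw [← hun]
      exact pow_le_pow_left₀ (norm_nonneg _) (hwu u hu hu0) 2
    have h2 : qf (lam t • pth Q μ t) (ic l) = lam t * qf (pth Q μ t) (ic l) := by
      unfold qf
      rw [Matrix.smul_mulVec, dotProduct_smul, smul_eq_mul]
    have h3 := pth_min hμ hmin ht ht1 hl
    rw [← hln, h2] at h1
    nlinarith

end Pool.Agent.H99V
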