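import Pool.Agent.H99V.Lat
import Pool.Agent.H99V.Near
import Pool.Agent.H99V.Frm
import Pool.Agent.H99V.Cls

set_option autoImplicit false

/-!
# Local statements
-/

namespace Pool.Agent.H99V

open MeasureTheory Matrix Pool.Agent.D4Q Filter Topology

variable {n : ℕ}

private theorem ismul (k : ℤ) (v : EuclideanSpace ℝ (Fin n)) : k • v = (k : ℝ) • v :=
  (Int.cast_smul_eq_zsmul ℝ k v).symm

/-- Two bases of a lattice differ by a unimodular matrix. -/
theorem unimod {b c : Fin n → EuclideanSpace ℝ (Fin n)}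
    {L : Submodule ℤ (EuclideanSpace ℝ (Fin n))} (hb : IsBasis b L) (hc : IsBasis c L) :
    ∃ W : Matrix (Fin n) (Fin n) ℤ, IsUnit W.det ∧ (∀ j, b j = ∑ i, W i j • c i) ∧
      gram b = tr W (gram c) := by
  have h1 : ∀ j, ∃ w : Fin n → ℤ, ∑ i, w i • c i = b j := fun j => by
    have h2 : b j ∈ L := by
      rw [hb.2]
      exact Submodule.subset_span ⟨j, rfl⟩
    rw [hc.2] at h2
    exact (Submodule.mem_span_range_iff_exists_fun ℤ).1 h2
  have h1' : ∀ j, ∃ w : Fin n → ℤ, ∑ i, w i • b i = c j := fun j => by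
    have h2 : c j ∈ L := by
      rw [hc.2]
      exact Submodule.subset_span ⟨j, rfl⟩
    rw [hb.2] at h2
    exact (Submodule.mem_span_range_iff_exists_fun ℤ).1 h2
  choose w hw using h1
  choose w' hw' using h1'
  have hWV : (Matrix.of fun i j => w j i) * (Matrix.of fun i j => w' j i) =
      (1 : Matrix (Fin n) (Fin n) ℤ) := by
    have h3 : ∀ j, ∑ i, (((Matrix.of fun i j => w j i) * (Matrix.of fun i j => w' j i) :
        Matrix (Fin n) (Fin n) ℤ) i j : ℝ) • c i = c j := by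
      intro j
      conv_rhs => rw [← hw' j]
      simp only [← hw, Finset.smul_sum]
      rw [Finset.sum_comm]
      refine Finset.sum_congr rfl fun i _ => ?_
      rw [Matrix.mul_apply, Int.cast_sum, Finset.sum_smul]
      refine Finset.sum_congr rfl fun k _ => ?_
      rw [Matrix.of_apply, Matrix.of_apply, ismul, ismul, smul_smul]
      push_cast
      rw [mul_comm]
    ext i j
    have h4 : ∑ i, ((((Matrix.of fun i j => w j i) * (Matrix.of fun i j => w' j i) :
        Matrix (Fin n) (Fin n) ℤ) i j : ℝ) - (if i = j then 1 else 0)) • c i = 0 := by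
      simp only [sub_smul]
      rw [Finset.sum_sub_distrib, h3 j]
      simp
    have h5 := Fintype.linearIndependent_iff.1 hc.1 _ h4 i
    rw [Matrix.one_apply]
    by_cases hij : i = j
    · rw [if_pos hij] at h5 ⊢
      have h6 : ((((Matrix.of fun i j => w j i) * (Matrix.of fun i j => w' j i) :
        Matrix (Fin n) (Fin n) ℤ) i j : ℤ) : ℝ) = 1 := by linarith
      exact_mod_cast h6
    · rw [if_neg hij] at h5 ⊢
      have h6 : ((((Matrix.of fun i j => w j i) * (Matrix.of fun i j => w' j i) :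
        Matrix (Fin n) (Fin n) ℤ) i j : ℤ) : ℝ) = 0 := by linarith
      exact_mod_cast h6
  refine ⟨Matrix.of fun i j => w j i, ?_, fun j => (hw j).symm, ?_⟩
  · have h4 := congrArg Matrix.det hWV
    rw [Matrix.det_mul, Matrix.det_one] at h4
    exact IsUnit.of_mul_eq_one _ h4
  · ext i j
    unfold gram tr mc
    rw [Matrix.of_apply, ← hw i, ← hw j, sum_inner, Matrix.mul_apply]
    have e1 : ∀ k, (inner ℝ (w i k • c k) (∑ l, w j l • c l) : ℝ) =
        ∑ l, (w i k : ℝ) * (inner ℝ (c k) (c l) * (w j l : ℝ)) := by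
      intro k
      rw [inner_sum]
      refine Finset.sum_congr rfl fun l _ => ?_
      rw [ismul, ismul, real_inner_smul_left, real_inner_smul_right]
      ring
    simp only [e1]
    rw [Finset.sum_comm]
    refine Finset.sum_congr rfl fun l _ => ?_
    rw [Matrix.mul_apply, Finset.sum_mul]
    refine Finset.sum_congr rfl fun k _ => ?_
    simp only [Matrix.transpose_apply, Matrix.map_apply, Matrix.of_apply]
    ring

theorem hasForm_of_tr {L : Submodule ℤ (EuclideanSpace ℝ (Fin n))}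
    {Q : Matrix (Fin n) (Fin n) ℝ} {W : Matrix (Fin n) (Fin n) ℤ} (hW : IsUnit W.det)
    (h : HasForm L (tr W Q)) : HasForm L Q := by
  obtain ⟨b, hb, hL, hG⟩ := h
  obtain ⟨V, hV1, hV2⟩ : ∃ V : Matrix (Fin n) (Fin n) ℤ, W * V = 1 ∧ V * W = 1 := by
    have := (Matrix.isUnit_iff_isUnit_det W).2 hW
    exact ⟨W⁻¹, Matrix.mul_nonsing_inv W hW, Matrix.nonsing_inv_mul W hW⟩
  have hc : ∀ j, (∑ i, V i j • b i) ∈ L := fun j => by
    rw [hL]
    exact Submodule.sum_mem _ fun i _ => Submodule.smul_mem _ _ (Submodule.subset_span ⟨i, rfl⟩)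
  have hback : ∀ k, ∑ j, W j k • (∑ i, V i j • b i) = b k := by
    intro k
    simp only [Finset.smul_sum]
    rw [Finset.sum_comm]
    have h1 : ∀ i, ∑ j, W j k • V i j • b i = ((V * W) i k) • b i := by
      intro i
      rw [Matrix.mul_apply, Finset.sum_smul]
      refine Finset.sum_congr rfl fun j _ => ?_
      rw [smul_smul, mul_comm]
    simp only [h1, hV2, Matrix.one_apply]
    simp
  have hspan : L = Submodule.span ℤ (Set.range fun j => ∑ i, V i j • b i) := by
    apply le_antisymm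
    · rw [hL, Submodule.span_le]
      rintro _ ⟨k, rfl⟩
      rw [← hback k]
      exact Submodule.sum_mem _ fun i _ =>
        Submodule.smul_mem _ _ (Submodule.subset_span ⟨i, rfl⟩)
    · rw [Submodule.span_le]
      rintro _ ⟨j, rfl⟩
      exact hc j
  have hgram : gram (fun j => ∑ i, V i j • b i) = Q := by
    have h1 : gram (fun j => ∑ i, V i j • b i) = tr V (gram b) := by
      ext i j
      unfold gram tr mc
      rw [Matrix.of_apply, sum_inner, Matrix.mul_apply]
      have e1 : ∀ k, (inner ℝ (V k i • b k) (∑ l, V l j • b l) : ℝ) =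
          ∑ l, (V k i : ℝ) * (inner ℝ (b k) (b l) * (V l j : ℝ)) := by
        intro k
        rw [inner_sum]
        refine Finset.sum_congr rfl fun l _ => ?_
        rw [ismul, ismul, real_inner_smul_left, real_inner_smul_right]
        ring
      simp only [e1]
      rw [Finset.sum_comm]
      refine Finset.sum_congr rfl fun l _ => ?_
      rw [Matrix.mul_apply, Finset.sum_mul]
      refine Finset.sum_congr rfl fun k _ => ?_
      simp only [Matrix.transpose_apply, Matrix.map_apply, Matrix.of_apply]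
      ring
    have h2 : gram b = tr W Q := by
      ext i j
      exact (hG i j).symm
    have h3 : mc W * mc V = 1 := by
      unfold mc
      have h4 : (W * V).map (fun z : ℤ => (z : ℝ)) = 1 := by
        rw [hV1]
        exact Matrix.map_one _ Int.cast_zero Int.cast_one
      have h5 : (W * V).map (fun z : ℤ => (z : ℝ)) =
          W.map (fun z : ℤ => (z : ℝ)) * V.map (fun z : ℤ => (z : ℝ)) := by
        ext i j
        simp [Matrix.mul_apply]
      rw [← h5, h4]
    rw [h1, h2]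
    unfold tr
    have h6 : (mc V)ᵀ * (mc W)ᵀ = 1 := by rw [← transpose_mul, h3, transpose_one]
    calc (mc V)ᵀ * ((mc W)ᵀ * Q * mc W) * mc V
        = ((mc V)ᵀ * (mc W)ᵀ) * Q * (mc W * mc V) := by simp only [Matrix.mul_assoc]
      _ = Q := by rw [h6, h3, Matrix.one_mul, Matrix.mul_one]
  refine ⟨fun j => ∑ i, V i j • b i, ?_, hspan, fun i j => ?_⟩
  · have h7 : (⊤ : Submodule ℝ (EuclideanSpace ℝ (Fin n))) ≤
        Submodule.span ℝ (Set.range fun j => ∑ i, V i j • b i) := by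
      rw [← hb.span_eq_top_of_card_eq_finrank' (by simp), Submodule.span_le]
      rintro _ ⟨k, rfl⟩
      rw [← hback k]
      refine Submodule.sum_mem _ fun j _ => ?_
      rw [ismul]
      exact Submodule.smul_mem _ _ (Submodule.subset_span ⟨j, rfl⟩)
    exact linearIndependent_of_top_le_span_of_card_eq_finrank h7 (by simp)
  · rw [← hgram]
    rfl

/-- The second moment of the Dirichlet-Voronoi cell. -/
noncomputable def secondMoment (L : Submodule ℤ (EuclideanSpace ℝ (Fin n))) : ℝ :=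
  ∫ x in {x : EuclideanSpace ℝ (Fin n) | ∀ v ∈ L, ‖x‖ ≤ ‖x - v‖}, ‖x‖ ^ 2

theorem sm_eq {L : Submodule ℤ (EuclideanSpace ℝ (Fin n))} [DiscreteTopology L]
    [IsZLattice ℝ L] {Q : Matrix (Fin n) (Fin n) ℝ} (h : HasForm L Q)
    (hL : ZLattice.covolume L = 1) : secondMoment L = FF Q := by
  unfold secondMoment
  rw [vor_integral h, hL, one_mul]

theorem cov_of_det {L : Submodule ℤ (EuclideanSpace ℝ (Fin n))} [DiscreteTopology L]
    [IsZLattice ℝ L] {Q : Matrix (Fin n) (Fin n) ℝ} (h : HasForm L Q) (hd : Q.det = 1) :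
    ZLattice.covolume L = 1 := by
  have h1 := covolume_sq h
  rw [hd] at h1
  have h2 : 0 < ZLattice.covolume L := ZLattice.covolume_pos L
  nlinarith

/-- Near forms after a unimodular change. -/
theorem tr_near (W : Matrix (Fin n) (Fin n) ℤ) {δ : ℝ} (hδ : 0 < δ) :
    ∃ δ' : ℝ, 0 < δ' ∧ ∀ Q R : Matrix (Fin n) (Fin n) ℝ, (∀ i j, |Q i j - R i j| < δ') →
      ∀ i j, |tr W Q i j - tr W R i j| < δ := by
  obtain ⟨K, hK⟩ : ∃ K : ℝ, K = ∑ k, ∑ i, |(W k i : ℝ)| := ⟨_, rfl⟩
  have hK0 : 0 ≤ K := by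
    rw [hK]
    exact Finset.sum_nonneg fun k _ => Finset.sum_nonneg fun j _ => abs_nonneg _
  refine ⟨δ / (K * K + 1), by positivity, fun Q R h i j => ?_⟩
  obtain ⟨ε, hε⟩ : ∃ ε, ε = δ / (K * K + 1) := ⟨_, rfl⟩
  rw [← hε] at h
  have hε0 : 0 < ε := by rw [hε]; positivity
  have h1 : tr W Q i j - tr W R i j =
      ∑ l, ∑ k, (W k i : ℝ) * (Q k l - R k l) * (W l j : ℝ) := by
    unfold tr mc
    rw [Matrix.mul_apply, Matrix.mul_apply, ← Finset.sum_sub_distrib]
    refine Finset.sum_congr rfl fun l _ => ?_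
    rw [Matrix.mul_apply, Matrix.mul_apply, Finset.sum_mul, Finset.sum_mul,
      ← Finset.sum_sub_distrib]
    refine Finset.sum_congr rfl fun k _ => ?_
    simp only [Matrix.transpose_apply, Matrix.map_apply]
    ring
  have h2 : |tr W Q i j - tr W R i j| ≤ ∑ l, ∑ k, |(W k i : ℝ)| * ε * |(W l j : ℝ)| := by
    rw [h1]
    refine (Finset.abs_sum_le_sum_abs _ _).trans (Finset.sum_le_sum fun l _ => ?_)
    refine (Finset.abs_sum_le_sum_abs _ _).trans (Finset.sum_le_sum fun k _ => ?_)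
    rw [abs_mul, abs_mul]
    exact mul_le_mul_of_nonneg_right
      (mul_le_mul_of_nonneg_left (h k l).le (abs_nonneg _)) (abs_nonneg _)
  have h3 : ∑ l, ∑ k, |(W k i : ℝ)| * ε * |(W l j : ℝ)| =
      (∑ k, |(W k i : ℝ)|) * ε * ∑ l, |(W l j : ℝ)| := by
    rw [Finset.mul_sum]
    refine Finset.sum_congr rfl fun l _ => ?_
    rw [← Finset.sum_mul, ← Finset.sum_mul]
  have h4 : ∀ i, ∑ k, |(W k i : ℝ)| ≤ K := by
    intro i
    rw [hK]
    refine Finset.sum_le_sum fun k _ => ?_
    exact Finset.single_le_sum (f := fun i => |(W k i : ℝ)|) (fun _ _ => abs_nonneg _)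
      (Finset.mem_univ i)
  have h5 : (∑ k, |(W k i : ℝ)|) * ε * ∑ l, |(W l j : ℝ)| ≤ K * ε * K := by
    have := h4 i
    have := h4 j
    have h6 : 0 ≤ ∑ k, |(W k i : ℝ)| := Finset.sum_nonneg fun _ _ => abs_nonneg _
    have h7 : 0 ≤ ∑ k, |(W k j : ℝ)| := Finset.sum_nonneg fun _ _ => abs_nonneg _
    gcongr
  have h6 : K * ε * K < δ := by
    have h7 : ε * (K * K + 1) = δ := by
      rw [hε]
      field_simp
    nlinarith
  rw [h3] at h2
  linarith

/-- **The polar of `A_n` is not a local minimum.** -/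
theorem not_min {m : ℕ} (hm : 5 ≤ m) {L : Submodule ℤ (EuclideanSpace ℝ (Fin (m + 1)))}
    [DiscreteTopology L] [IsZLattice ℝ L] (hL : ZLattice.covolume L = 1) (hA : IsAStar L)
    {b : Fin (m + 1) → EuclideanSpace ℝ (Fin (m + 1))} (hb : IsBasis b L) {η : ℝ}
    (hη : 0 < η) :
    ∃ (L' : Submodule ℤ (EuclideanSpace ℝ (Fin (m + 1)))) (_ : DiscreteTopology L')
      (_ : IsZLattice ℝ L') (b' : Fin (m + 1) → EuclideanSpace ℝ (Fin (m + 1))),
      IsBasis b' L' ∧ (∀ i, ‖b' i - b i‖ < η) ∧ ZLattice.covolume L' = 1 ∧ FirstKind L' ∧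
        secondMoment L' < secondMoment L := by
  obtain ⟨κ, hκ, hf, hdet⟩ := aStar_form hL hA
  have hf' := hf
  obtain ⟨c, hc1, hc2, hc3⟩ := hf'
  have hgc : gram c = star m κ := by
    ext i j
    exact (hc3 i j).symm
  obtain ⟨W, hW, -, hbW⟩ := unimod hb ⟨hc1, hc2⟩
  rw [hgc] at hbW
  obtain ⟨δ, hδ, hnear⟩ := near_basis hb.1 hη
  obtain ⟨δ', hδ', htr⟩ := tr_near W hδ
  obtain ⟨Q, hQp, hQf, hQd, hQn, hQF⟩ := form_ineq m hm hκ hdet hδ'
  have hQ'p : (tr W Q).PosDef := posDef_tr hQp W hW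
  obtain ⟨b', hb', hg, hbb⟩ := hnear (tr W Q) hQ'p (by
    intro i j
    rw [hbW]
    exact htr Q (star m κ) hQn i j)
  have hF' : HasForm (Submodule.span ℤ (Set.range b')) (tr W Q) :=
    ⟨b', hb', rfl, fun i j => by rw [← hg]; rfl⟩
  obtain ⟨j1, j2⟩ := hasForm_lattice hF'
  have hcov : ZLattice.covolume (Submodule.span ℤ (Set.range b')) = 1 :=
    cov_of_det hF' (by rw [det_tr W hW, hQd])
  refine ⟨Submodule.span ℤ (Set.range b'), j1, j2, b', ⟨hb', rfl⟩, hbb, hcov,
    firstKind_of_form (hasForm_of_tr hW hF') hQf, ?_⟩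
  rw [sm_eq hF' hcov, sm_eq hf hL, FF_tr W hW]
  exact hQF

/-- `L` and `L'` have bases with the same Gram matrix. -/
def Isometric (L L' : Submodule ℤ (EuclideanSpace ℝ (Fin n))) : Prop :=
  ∃ b b' : Fin n → EuclideanSpace ℝ (Fin n), IsBasis b L ∧ IsBasis b' L' ∧
    ∀ i j, (inner ℝ (b i) (b j) : ℝ) = inner ℝ (b' i) (b' j)

theorem iso_of_form {L L' : Submodule ℤ (EuclideanSpace ℝ (Fin n))}
    {Q : Matrix (Fin n) (Fin n) ℝ} (h : HasForm L Q) (h' : HasForm L' Q) : Isometric L L' := by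
  obtain ⟨b, h1, h2, h3⟩ := h
  obtain ⟨b', h1', h2', h3'⟩ := h'
  exact ⟨b, b', ⟨h1, h2⟩, ⟨h1', h2'⟩, fun i j => by rw [← h3, ← h3']⟩

/-- The class theorem with isometry. -/
theorem cls_iso {m : ℕ} {L M L' M' : Submodule ℤ (EuclideanSpace ℝ (Fin (m + 1)))}
    [DiscreteTopology L] [IsZLattice ℝ L] [DiscreteTopology M] [IsZLattice ℝ M]
    [DiscreteTopology L'] [IsZLattice ℝ L'] [DiscreteTopology M'] [IsZLattice ℝ M']
    (hL : ZLattice.covolume L = 1) (hA : IsAStar L) (hLM : IsPolarOf L M)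
    (hL' : ZLattice.covolume L' = 1) (hF : FirstKind L') (hLM' : IsPolarOf L' M') :
    MinLe M' M ∧ (MinLe M M' → Isometric M' M) := by
  obtain ⟨h1, h2⟩ := cls hL hA hLM hL' hF hLM'
  refine ⟨h1, fun h => ?_⟩
  obtain ⟨κ, hκ, hf, hdet⟩ := aStar_form hL hA
  obtain ⟨κ', hκ', hf', hdet'⟩ := aStar_form hL' (h2 h)
  have hkk : κ' = κ := by
    rw [star_det] at hdet hdet'
    have h3 : (0 : ℝ) < ((m : ℝ) + 2) ^ m := by positivity
    have h4 : κ' ^ (m + 1) = κ ^ (m + 1) :=
      mul_right_cancel₀ h3.ne' (hdet'.trans hdet.symm)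
    exact (pow_left_inj₀ hκ'.le hκ.le (by omega)).1 h4
  rw [hkk] at hf'
  obtain ⟨bM, hbM⟩ := exists_basis M
  obtain ⟨bM', hbM'⟩ := exists_basis M'
  exact iso_of_form (hasForm_dual hf' (polar_symm hbM' hLM'))
    (hasForm_dual hf (polar_symm hbM hLM))

end Pool.Agent.H99V
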