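import Pool.Agent.H99V.Frm

set_option autoImplicit false

/-!
# A lower bound for the second moment of the polar of `A_d` (helper82)
-/

namespace Pool.Agent.H99V

open MeasureTheory Matrix Pool.Agent.D4Q

theorem star_low (m : ℕ) (hm : 1 ≤ m) {κ : ℝ} (hκ : 0 < κ) (hdet : (star m κ).det = 1) :
    ((m : ℝ) + 1) / 12 * (1 - AA m ((m : ℝ) + 2) / ((m : ℝ) + 2) ^ (m + 1)) ≤ FF (star m κ) := by
  have hmR : (0 : ℝ) ≤ m := Nat.cast_nonneg m
  have hC : (0 : ℝ) < (m : ℝ) + 2 := by positivity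
  have hdet1 : (XQ m 1 0).det = ((m : ℝ) + 2) ^ m := by
    rw [XQ_det' hm]
    unfold DD
    simp
    try ring
  have hk : κ ^ (m + 1) * ((m : ℝ) + 2) ^ m = 1 := by
    rw [← hdet1]
    rw [star_eq, Matrix.det_smul, Fintype.card_fin] at hdet
    exact hdet
  have hpow : (κ * ((m : ℝ) + 2)) ^ (m + 1) = (m : ℝ) + 2 := by
    rw [mul_pow, pow_succ ((m : ℝ) + 2), ← mul_assoc, hk, one_mul]
  have hone : 1 ≤ κ * ((m : ℝ) + 2) := by
    by_contra hlt
    push Not at hlt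
    have : (κ * ((m : ℝ) + 2)) ^ (m + 1) < 1 :=
      pow_lt_one₀ (by positivity) hlt (by omega)
    rw [hpow] at this
    linarith
  have hAA : AA m ((m : ℝ) + 2) ≤ ((m : ℝ) + 2) ^ (m + 1) := by
    have h := AA_le m (C := (m : ℝ) + 2) (by linarith)
    have h2 : 0 ≤ ((m : ℝ) + 2) ^ (m + 1) := by positivity
    nlinarith
  have hP : P12 (XQ m 1 0) = ((m : ℝ) + 1) * (((m : ℝ) + 2) ^ (m + 1) - AA m ((m : ℝ) + 2)) := by
    rw [XQ_P12' hm one_pos le_rfl]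
    unfold PP RR
    simp
    try ring
  rw [star_eq, FF_smul _ hκ.le, FF_eq (XQ_posDef m one_pos le_rfl), hP, hdet1]
  have hq : 0 ≤ 1 - AA m ((m : ℝ) + 2) / ((m : ℝ) + 2) ^ (m + 1) := by
    rw [sub_nonneg, div_le_one (by positivity)]
    exact hAA
  have e : κ * (((m : ℝ) + 1) * (((m : ℝ) + 2) ^ (m + 1) - AA m ((m : ℝ) + 2)) /
      (12 * ((m : ℝ) + 2) ^ m)) = (κ * ((m : ℝ) + 2)) * (((m : ℝ) + 1) / 12 *
        (1 - AA m ((m : ℝ) + 2) / ((m : ℝ) + 2) ^ (m + 1))) := by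
    rw [pow_succ ((m : ℝ) + 2) m]
    field_simp
  rw [e]
  exact le_mul_of_one_le_left (by positivity) hone

end Pool.Agent.H99V
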