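import Pool.Agent.H99V.Loc

set_option autoImplicit false

/-!
# `A_n` is a local maximum of the packing density
-/

namespace Pool.Agent.H99V

open MeasureTheory Matrix Pool.Agent.D4Q Filter Topology

variable {n : ℕ}

private theorem ismul (k : ℤ) (v : EuclideanSpace ℝ (Fin n)) : k • v = (k : ℝ) • v :=
  (Int.cast_smul_eq_zsmul ℝ k v).symm

theorem continuous_gram : Continuous fun b : Fin n → EuclideanSpace ℝ (Fin n) => gram b := by
  refine continuous_matrix fun i j => ?_
  show Continuous fun b : Fin n → EuclideanSpace ℝ (Fin n) => (inner ℝ (b i) (b j) : ℝ)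
  fun_prop

theorem continuousAt_inv_mat {G : Matrix (Fin n) (Fin n) ℝ} (hG : G.det ≠ 0) :
    ContinuousAt (fun A : Matrix (Fin n) (Fin n) ℝ => A⁻¹) G := by
  have h1 : (fun A : Matrix (Fin n) (Fin n) ℝ => A⁻¹) = fun A => A.det⁻¹ • A.adjugate := by
    funext A
    rw [Matrix.inv_def, Ring.inverse_eq_inv']
  rw [h1]
  have h2 : Continuous fun A : Matrix (Fin n) (Fin n) ℝ => A.det := continuous_id.matrix_det
  have h3 : Continuous fun A : Matrix (Fin n) (Fin n) ℝ => A.adjugate :=
    continuous_id.matrix_adjugate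
  exact (h2.continuousAt.inv₀ hG).smul h3.continuousAt

/-- The inner products of integral combinations. -/
theorem inner_comb {p : ℕ} (U : Matrix (Fin p) (Fin n) ℤ) (c : Fin n → EuclideanSpace ℝ (Fin n))
    (i j : Fin p) : (inner ℝ (∑ k, U i k • c k) (∑ l, U j l • c l) : ℝ) =
      ∑ k, ∑ l, (U i k : ℝ) * (U j l : ℝ) * gram c k l := by
  rw [sum_inner]
  refine Finset.sum_congr rfl fun k _ => ?_
  rw [inner_sum]
  refine Finset.sum_congr rfl fun l _ => ?_
  rw [ismul, ismul, real_inner_smul_left, real_inner_smul_right]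
  unfold gram
  rw [Matrix.of_apply]
  ring

theorem near_fk {b : Fin n → EuclideanSpace ℝ (Fin n)} (hb : LinearIndependent ℝ b)
    {U : Matrix (Fin (n + 1)) (Fin n) ℤ} {W : Matrix (Fin n) (Fin (n + 1)) ℤ}
    (hU : ∀ j, ∑ i, U i j = 0) (hWU : W * U = 1)
    (hneg : ∀ i j, i ≠ j → ∑ k, ∑ l, (U i k : ℝ) * (U j l : ℝ) * (gram b)⁻¹ k l < 0) :
    ∃ η : ℝ, 0 < η ∧ ∀ b' : Fin n → EuclideanSpace ℝ (Fin n), LinearIndependent ℝ b' →
      (∀ i, ‖b' i - b i‖ < η) → ∃ c' : Fin n → EuclideanSpace ℝ (Fin n),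
        LinearIndependent ℝ c' ∧ gram c' = (gram b')⁻¹ ∧
        IsPolarOf (Submodule.span ℤ (Set.range c')) (Submodule.span ℤ (Set.range b')) ∧
        FirstKind (Submodule.span ℤ (Set.range c')) := by
  have hev : ∀ᶠ b' in 𝓝 b, ∀ i j, i ≠ j →
      ∑ k, ∑ l, (U i k : ℝ) * (U j l : ℝ) * (gram b')⁻¹ k l < 0 := by
    refine eventually_all.2 fun i => eventually_all.2 fun j => ?_
    by_cases hij : i = j
    · exact Eventually.of_forall fun _ h => absurd hij h
    · have hc : ContinuousAt (fun b' : Fin n → EuclideanSpace ℝ (Fin n) =>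
          ∑ k, ∑ l, (U i k : ℝ) * (U j l : ℝ) * (gram b')⁻¹ k l) b := by
        have h1 : ContinuousAt (fun b' : Fin n → EuclideanSpace ℝ (Fin n) => (gram b')⁻¹) b :=
          ContinuousAt.comp (f := fun b' => gram b')
            (g := fun A : Matrix (Fin n) (Fin n) ℝ => A⁻¹)
            (continuousAt_inv_mat (gram_posDef hb).det_pos.ne') continuous_gram.continuousAt
        refine tendsto_finsetSum _ fun k _ => tendsto_finsetSum _ fun l _ => ?_
        refine Tendsto.mul tendsto_const_nhds ?_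
        exact ((continuous_apply_apply k l).continuousAt.comp h1)
      exact (hc.tendsto.eventually_lt_const (hneg i j hij)).mono fun _ h _ => h
  obtain ⟨η, hη, hball⟩ := Metric.eventually_nhds_iff.1 hev
  refine ⟨η, hη, fun b' hb' hclose => ?_⟩
  have hb'' := hball (y := b') (by
    rw [dist_pi_lt_iff hη]
    intro i
    rw [dist_eq_norm]
    exact hclose i)
  obtain ⟨c', hcb, hg, hcl⟩ := dual_basis hb'
  refine ⟨c', hcl, hg.symm, polar_span hb' hcb, ?_⟩
  have hsum : ∑ i, (∑ k, U i k • c' k) = 0 := by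
    rw [Finset.sum_comm]
    refine Finset.sum_eq_zero fun k _ => ?_
    rw [← Finset.sum_smul, hU, zero_smul]
  refine ⟨fun i => ∑ k, U i k • c' k, ⟨hsum, ?_⟩, fun i j hij => ?_⟩
  · apply le_antisymm
    · rw [Submodule.span_le]
      rintro _ ⟨j, rfl⟩
      have h1 : ∑ i, W j i • (∑ k, U i k • c' k) = c' j := by
        simp only [Finset.smul_sum]
        rw [Finset.sum_comm]
        have h2 : ∀ k, ∑ i, W j i • U i k • c' k = ((W * U) j k) • c' k := by
          intro k
          rw [Matrix.mul_apply, Finset.sum_smul]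
          exact Finset.sum_congr rfl fun i _ => by rw [smul_smul]
        simp only [h2, hWU, Matrix.one_apply]
        simp
      rw [← h1]
      exact Submodule.sum_mem _ fun i _ =>
        Submodule.smul_mem _ _ (Submodule.subset_span ⟨i, rfl⟩)
    · rw [Submodule.span_le]
      rintro _ ⟨i, rfl⟩
      exact Submodule.sum_mem _ fun k _ =>
        Submodule.smul_mem _ _ (Submodule.subset_span ⟨k, rfl⟩)
  · have h1 := inner_comb U c' i j
    have h2 := hb'' i j hij
    rw [hg] at h2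
    show (inner ℝ (∑ k, U i k • c' k) (∑ l, U j l • c' l) : ℝ) ≤ 0
    rw [h1]
    exact h2.le

/-- **Local maximum.** -/
theorem local_max {m : ℕ} {L M : Submodule ℤ (EuclideanSpace ℝ (Fin (m + 1)))}
    [DiscreteTopology L] [IsZLattice ℝ L] [DiscreteTopology M] [IsZLattice ℝ M]
    (hL : ZLattice.covolume L = 1) (hA : IsAStar L) (hLM : IsPolarOf L M)
    {b : Fin (m + 1) → EuclideanSpace ℝ (Fin (m + 1))} (hb : IsBasis b M) :
    ∃ η : ℝ, 0 < η ∧ ∀ (M' : Submodule ℤ (EuclideanSpace ℝ (Fin (m + 1))))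
      [DiscreteTopology M'] [IsZLattice ℝ M']
      (b' : Fin (m + 1) → EuclideanSpace ℝ (Fin (m + 1))), IsBasis b' M' →
      (∀ i, ‖b' i - b i‖ < η) → ZLattice.covolume M' = 1 →
        MinLe M' M ∧ (MinLe M M' → Isometric M' M) := by
  obtain ⟨κ, hκ, hf, hdet⟩ := aStar_form hL hA
  have hA' := hA
  obtain ⟨v, κ₁, hv, hvk⟩ := hA
  obtain ⟨c, hcb, hg, hcl⟩ := dual_basis hb.1
  have hcL : IsBasis c L := polar_basis hb hLM hcb
  -- the matrices
  have hU : ∀ i, ∃ u : Fin (m + 1) → ℤ, ∑ k, u k • c k = v i := fun i => by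
    have h1 : v i ∈ L := by
      rw [hv.2]
      exact Submodule.subset_span ⟨i, rfl⟩
    rw [hcL.2] at h1
    exact (Submodule.mem_span_range_iff_exists_fun ℤ).1 h1
  have hW : ∀ j, ∃ w : Fin (m + 2) → ℤ, ∑ i, w i • v i = c j := fun j => by
    have h1 : c j ∈ L := by
      rw [hcL.2]
      exact Submodule.subset_span ⟨j, rfl⟩
    rw [hv.2] at h1
    exact (Submodule.mem_span_range_iff_exists_fun ℤ).1 h1
  choose u hu using hU
  choose w hw using hW
  obtain ⟨U, hUd⟩ : ∃ U : Matrix (Fin (m + 2)) (Fin (m + 1)) ℤ, U = Matrix.of u := ⟨_, rfl⟩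
  obtain ⟨W, hWd⟩ : ∃ W : Matrix (Fin (m + 1)) (Fin (m + 2)) ℤ, W = Matrix.of w := ⟨_, rfl⟩
  have hu' : ∀ i, ∑ k, U i k • c k = v i := fun i => by
    rw [hUd]
    exact hu i
  have hw' : ∀ j, ∑ i, W j i • v i = c j := fun j => by
    rw [hWd]
    exact hw j
  have hlin : ∀ x : Fin (m + 1) → ℤ, ∑ k, x k • c k = 0 → x = 0 := by
    intro x hx
    have h1 : ∑ k, (x k : ℝ) • c k = 0 := by
      rw [← hx]
      exact Finset.sum_congr rfl fun k _ => (ismul _ _).symm
    funext k
    have h2 := Fintype.linearIndependent_iff.1 hcl _ h1 k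
    exact_mod_cast h2
  have hU0 : ∀ j, ∑ i, U i j = 0 := by
    have h1 : ∑ j, (∑ i, U i j) • c j = 0 := by
      simp only [Finset.sum_smul]
      rw [Finset.sum_comm]
      rw [Finset.sum_congr rfl fun i _ => hu' i]
      exact hv.1
    intro j
    exact congrFun (hlin (fun j => ∑ i, U i j) h1) j
  have hWU : W * U = 1 := by
    ext j k
    have h1 : ∑ k, ((W * U) j k - (1 : Matrix (Fin (m + 1)) (Fin (m + 1)) ℤ) j k) • c k = 0 := by
      simp only [sub_smul]
      rw [Finset.sum_sub_distrib]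
      have h2 : ∑ k, ((W * U) j k) • c k = c j := by
        rw [← hw' j]
        simp only [← hu', Finset.smul_sum]
        rw [Finset.sum_comm]
        refine Finset.sum_congr rfl fun k _ => ?_
        rw [Matrix.mul_apply, Finset.sum_smul]
        exact Finset.sum_congr rfl fun i _ => by rw [smul_smul]
      rw [h2]
      simp [Matrix.one_apply]
    have h3 := congrFun (hlin _ h1) k
    simp only [Pi.zero_apply] at h3
    linarith
  have hκ1 : 0 < κ₁ := by
    have h1 : (inner ℝ (v 1) (∑ k, v k) : ℝ) = 0 := by rw [hv.1, inner_zero_right]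
    rw [inner_sum, ← Finset.add_sum_erase _ _ (Finset.mem_univ (1 : Fin (m + 2)))] at h1
    have h2 : ∑ k ∈ Finset.univ.erase (1 : Fin (m + 2)), (inner ℝ (v 1) (v k) : ℝ) =
        -((m + 1) * κ₁) := by
      rw [Finset.sum_congr rfl fun k hk => hvk 1 k (Finset.ne_of_mem_erase hk).symm]
      rw [Finset.sum_const, Finset.card_erase_of_mem (Finset.mem_univ _), Finset.card_univ,
        Fintype.card_fin]
      simp
    have h3 : v 1 ≠ 0 := by
      have h4 := (super_basis hv).1.ne_zero 0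
      exact h4
    have h4 : (0 : ℝ) < inner ℝ (v 1) (v 1) := by
      rw [real_inner_self_eq_norm_sq]
      have := norm_pos_iff.2 h3
      positivity
    have h5 : 0 < ((m : ℝ) + 1) * κ₁ := by linarith
    exact (mul_pos_iff_of_pos_left (by positivity)).1 h5
  have hneg : ∀ i j, i ≠ j → ∑ k, ∑ l, (U i k : ℝ) * (U j l : ℝ) * (gram b)⁻¹ k l < 0 := by
    intro i j hij
    have h1 := inner_comb U c i j
    rw [hu', hu', hvk i j hij] at h1
    rw [hg, ← h1]
    linarith
  obtain ⟨η, hη, hnear⟩ := near_fk hb.1 hU0 hWU hneg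
  refine ⟨η, hη, fun M' _ _ b' hb' hclose hcov => ?_⟩
  obtain ⟨c', hc'l, hc'g, hc'p, hc'f⟩ := hnear b' hb'.1 hclose
  rw [← hb'.2] at hc'p
  have hF' : HasForm (Submodule.span ℤ (Set.range c')) (gram c') :=
    ⟨c', hc'l, rfl, fun _ _ => rfl⟩
  obtain ⟨j1, j2⟩ := hasForm_lattice hF'
  have hcov' : ZLattice.covolume (Submodule.span ℤ (Set.range c')) = 1 := by
    refine cov_of_det hF' ?_
    have h1 := covolume_sq (basis_form hb')
    rw [hcov, one_pow] at h1
    rw [hc'g, Matrix.det_nonsing_inv, ← h1, Ring.inverse_one]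
  exact cls_iso hL hA' hLM hcov' hc'f hc'p

end Pool.Agent.H99V
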