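import Pool.Agent.H99V.Defs

set_option autoImplicit false

/-!
# The numerical inequality
-/

namespace Pool.Agent.H99V

/-- `AA m C ≤ C ^ (m + 1) / (C - m)`. -/
theorem AA_le (m : ℕ) {C : ℝ} (hC : (m : ℝ) < C) : (C - m) * AA m C ≤ C ^ (m + 1) := by
  have hC0 : 0 < C := lt_of_le_of_lt (Nat.cast_nonneg m) hC
  induction m with
  | zero => simp [AA]
  | succ m ih =>
    have hm : (m : ℝ) < C := by
      push_cast at hC
      linarith
    have h1 := ih hm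
    push_cast at hC ⊢
    have h2 : 0 < C - m := by linarith
    have h3 : 0 < C ^ (m + 1) := by positivity
    have h4 : AA (m + 1) C = C ^ (m + 1) + (m + 1) * AA m C := rfl
    rw [h4, ← sub_nonneg]
    have h5 : 0 ≤ (C - m) * (C ^ (m + 1 + 1) -
        (C - (m + 1)) * (C ^ (m + 1) + (m + 1) * AA m C)) := by
      have h6 : 0 ≤ (C - (m + 1)) * ((m + 1) * (C ^ (m + 1) - (C - m) * AA m C)) := by
        have : (0 : ℝ) ≤ m := Nat.cast_nonneg m
        exact mul_nonneg (by linarith) (mul_nonneg (by linarith) (by linarith))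
      have h7 : 0 ≤ (m + 1) * C ^ (m + 1) := by positivity
      have h8 : (C - m) * (C ^ (m + 1 + 1) - (C - (m + 1)) * (C ^ (m + 1) + (m + 1) * AA m C)) =
          (C - (m + 1)) * ((m + 1) * (C ^ (m + 1) - (C - m) * AA m C)) +
            (m + 1) * C ^ (m + 1) := by
        ring
      rw [h8]
      linarith
    exact nonneg_of_mul_nonneg_right h5 h2

/-- numbers: for `N = m + 2 ≥ 7`, `2 (AA (m-1) N + N AA (m-2) N) < N ^ m`. -/
theorem num_ineq (k : ℕ) (hk : 3 ≤ k) :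
    2 * (AA (k + 1) (k + 4 : ℝ) + (k + 4) * AA k (k + 4 : ℝ)) < ((k : ℝ) + 4) ^ (k + 2) := by
  obtain ⟨m, rfl⟩ : ∃ m, k = m + 2 := ⟨k - 2, by omega⟩
  have hm : (1 : ℝ) ≤ m := by
    have : 1 ≤ m := by omega
    exact_mod_cast this
  push_cast
  have eN : (m : ℝ) + 2 + 4 = m + 6 := by ring
  rw [eN]
  have h1 := AA_le m (C := (m : ℝ) + 6) (by linarith)
  have e1 : AA (m + 2 + 1) ((m : ℝ) + 6) = ((m : ℝ) + 6) ^ (m + 3) +
      (m + 3) * AA (m + 2) ((m : ℝ) + 6) := by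
    show _ + (((m + 2 : ℕ) : ℝ) + 1) * _ = _
    push_cast
    ring
  have e2 : AA (m + 2) ((m : ℝ) + 6) = ((m : ℝ) + 6) ^ (m + 2) +
      (m + 2) * AA (m + 1) ((m : ℝ) + 6) := by
    show _ + (((m + 1 : ℕ) : ℝ) + 1) * _ = _
    push_cast
    ring
  have e3 : AA (m + 1) ((m : ℝ) + 6) = ((m : ℝ) + 6) ^ (m + 1) +
      (m + 1) * AA m ((m : ℝ) + 6) := rfl
  rw [e1, e2, e3]
  set A := AA m ((m : ℝ) + 6) with hA
  set X := ((m : ℝ) + 6) ^ m with hX
  have hX0 : 0 < X := by positivity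
  have p1 : ((m : ℝ) + 6) ^ (m + 1) = X * (m + 6) := pow_succ _ _
  have p2 : ((m : ℝ) + 6) ^ (m + 2) = X * (m + 6) ^ 2 := pow_add _ _ _
  have p3 : ((m : ℝ) + 6) ^ (m + 3) = X * (m + 6) ^ 3 := pow_add _ _ _
  have p4 : ((m : ℝ) + 6) ^ (m + 2 + 2) = X * (m + 6) ^ 4 := by
    rw [show m + 2 + 2 = m + 4 from rfl]
    exact pow_add _ _ _
  rw [p1, p2, p3, p4]
  rw [p1] at h1
  have h2 : 6 * A ≤ X * (m + 6) := by
    have e : (m : ℝ) + 6 - m = 6 := by ring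
    rw [e] at h1
    exact h1
  have hc : 0 ≤ 2 * ((m : ℝ) + 3 + (m + 6)) * ((m + 2) * (m + 1)) := by positivity
  have h3 := mul_le_mul_of_nonneg_left h2 hc
  have h4 : 0 < X * ((m : ℝ) + 6) * (2 * (m + 2) ^ 3 + 6 * (m + 2) ^ 2 - 14 * (m + 2) - 48) := by
    have : 0 < 2 * ((m : ℝ) + 2) ^ 3 + 6 * (m + 2) ^ 2 - 14 * (m + 2) - 48 := by
      nlinarith [mul_nonneg (sub_nonneg.2 hm) (sub_nonneg.2 hm)]
    positivity
  nlinarith
end Pool.Agent.H99V
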