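import Mathlib

set_option autoImplicit false

/-!
# The recursion for the second moment of a lattice of Voronoi's first kind: definitions

`Rec.P Q` is twelve times determinant times second moment, `Rec.D Q` the determinant, for the form
`Q` with nonpositive entries off the diagonal and nonnegative row sums. Over any ring, so that it
can be evaluated over the integers.
-/

namespace Pool.Agent.H99V.Rec

variable {α β : Type*} [CommRing α] [CommRing β]

/-- The sum of `f`. -/
def sm : (n : ℕ) → (Fin n → α) → α
  | 0, _ => 0
  | n + 1, f => f 0 + sm n fun i => f i.succ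

theorem sm_eq (n : ℕ) (f : Fin n → α) : sm n f = ∑ i, f i := by
  induction n with
  | zero => simp [sm]
  | succ n ih => rw [sm, ih, Fin.sum_univ_succ]

/-- The row sum. -/
def rs {n : ℕ} (Q : Matrix (Fin n) (Fin n) α) (a : Fin n) : α := sm n (Q a)

/-- The matrix without row and column `i`. -/
def dl {n : ℕ} (i : Fin (n + 1)) (Q : Matrix (Fin (n + 1)) (Fin (n + 1)) α) :
    Matrix (Fin n) (Fin n) α := fun a b => Q (i.succAbove a) (i.succAbove b)

/-- The matrix `Q` with the row sums `a ≥ i` subtracted on the diagonal. -/
def yd {n : ℕ} (i : Fin n) (Q : Matrix (Fin n) (Fin n) α) : Matrix (Fin n) (Fin n) α :=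
  fun a b => if a = b then (if a < i then Q a a else -sm n fun j => if j = a then 0 else Q a j)
    else Q a b

/-- The determinant by recursion. -/
def D : (n : ℕ) → Matrix (Fin n) (Fin n) α → α
  | 0, _ => 1
  | n + 1, Q => sm (n + 1) fun i => rs Q i * D n (dl i (yd i Q))

/-- Twelve times determinant times second moment by recursion. -/
def P : (n : ℕ) → Matrix (Fin n) (Fin n) α → α
  | 0, _ => 0
  | n + 1, Q => sm (n + 1) fun i =>
      rs Q i * (P n (dl i (yd i Q)) + 2 * D (n + 1) (yd i Q)) +
        rs Q i * rs Q i * D n (dl i (yd i Q))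

/-- The form of the wheel with four spokes of weight `2` and rim `3`. -/
def wheel : Matrix (Fin 4) (Fin 4) ℤ :=
  !![8, -3, 0, -3; -3, 8, -3, 0; 0, -3, 8, -3; -3, 0, -3, 8]

/-- The form of the complete bipartite graph with three and three vertices. -/
def bip : Matrix (Fin 5) (Fin 5) ℤ :=
  !![3, 0, 0, -1, -1; 0, 3, 0, -1, -1; 0, 0, 3, -1, -1; -1, -1, -1, 3, 0; -1, -1, -1, 0, 3]

/-- The form of the complete graph with `n + 1` vertices. -/
def cg (n : ℕ) : Matrix (Fin n) (Fin n) ℤ := fun a b => if a = b then (n : ℤ) else -1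

theorem P_wheel : P 4 wheel = 43376 := by decide +kernel
theorem D_wheel : D 4 wheel = 1792 := by decide +kernel
theorem P_cg4 : P 4 (cg 4) = 1556 := by decide +kernel
theorem D_cg4 : D 4 (cg 4) = 125 := by decide +kernel
theorem P_bip : P 5 bip = 897 := by decide +kernel
theorem D_bip : D 5 bip = 81 := by decide +kernel
theorem P_cg5 : P 5 (cg 5) = 25080 := by decide +kernel
theorem D_cg5 : D 5 (cg 5) = 1296 := by decide +kernel

end Pool.Agent.H99V.Rec
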