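import Pool.Agent.H99V.Inc
import Pool.Agent.H99V.Rcd

set_option autoImplicit false

/-!
# The second moment of every lattice of Voronoi's first kind by recursion
-/

namespace Pool.Agent.H99V

open MeasureTheory Matrix Pool.Agent.D4Q Filter Topology

variable {n : ℕ}

theorem rs_eq (Q : Matrix (Fin n) (Fin n) ℝ) (a : Fin n) : Rec.rs Q a = ∑ j, Q a j :=
  Rec.sm_eq n _

/-- The path of forms. -/
def Zp (Q : Matrix (Fin n) (Fin n) ℝ) (s : ℝ) (k : ℕ) : Matrix (Fin n) (Fin n) ℝ :=
  Q - Matrix.diagonal fun a : Fin n => if a.val < k then 0 else (1 - s) * ∑ j, Q a j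

theorem yd_eq (Q : Matrix (Fin n) (Fin n) ℝ) (i : Fin n) : Rec.yd i Q = Zp Q 0 i.val := by
  ext a b
  unfold Rec.yd Zp
  rw [Matrix.sub_apply, Matrix.diagonal_apply, Rec.sm_eq]
  by_cases hab : a = b
  · subst hab
    rw [if_pos rfl, if_pos rfl]
    by_cases hai : a < i
    · rw [if_pos hai, if_pos (Fin.lt_def.1 hai), sub_zero]
    · rw [if_neg hai, if_neg fun h => hai (Fin.lt_def.2 h)]
      have h1 : ∑ j, Q a j = Q a a + ∑ j, (if j = a then 0 else Q a j) := by
        have h2 : ∀ j, Q a j = (if j = a then Q a a else 0) + (if j = a then 0 else Q a j) := by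
          intro j
          by_cases hj : j = a
          · simp [hj]
          · simp [hj]
        rw [Finset.sum_congr rfl fun j _ => h2 j, Finset.sum_add_distrib,
          Finset.sum_ite_eq' Finset.univ a fun _ => Q a a, if_pos (Finset.mem_univ _)]
      rw [h1]
      ring
  · rw [if_neg hab, if_neg hab, sub_zero]

theorem dl_eq (Q : Matrix (Fin (n + 1)) (Fin (n + 1)) ℝ) (i : Fin (n + 1)) :
    Rec.dl i Q = del i Q := rfl

theorem Zp_top (Q : Matrix (Fin n) (Fin n) ℝ) (s : ℝ) : Zp Q s n = Q := by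
  ext a b
  unfold Zp
  rw [Matrix.sub_apply, Matrix.diagonal_apply]
  split_ifs with h1 h2
  · exact sub_zero _
  · exact absurd a.isLt h2
  · exact sub_zero _

theorem Zp_one (Q : Matrix (Fin n) (Fin n) ℝ) (k : ℕ) : Zp Q 1 k = Q := by
  ext a b
  unfold Zp
  rw [Matrix.sub_apply, Matrix.diagonal_apply]
  simp

theorem Zp_succ (Q : Matrix (Fin (n + 1)) (Fin (n + 1)) ℝ) (s : ℝ) (i : Fin (n + 1)) :
    Zp Q s (i.val + 1) = Zp Q s i.val + ((1 - s) * ∑ j, Q i j) • Ei i := by
  ext a b
  unfold Zp Ei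
  rw [Matrix.add_apply, Matrix.sub_apply, Matrix.sub_apply, Matrix.smul_apply, Matrix.of_apply,
    Matrix.diagonal_apply, Matrix.diagonal_apply, smul_eq_mul]
  by_cases hab : a = b
  · subst hab
    by_cases hai : a = i
    · subst hai
      simp
    · have h1 : a.val ≠ i.val := fun h => hai (Fin.ext h)
      have h2 : (a.val < i.val + 1) ↔ (a.val < i.val) := by omega
      simp [hai, h2]
  · have h1 : ¬(a = i ∧ b = i) := fun h => hab (h.1.trans h.2.symm)
    simp [hab, h1]

theorem Zp_comb (Q : Matrix (Fin n) (Fin n) ℝ) (s : ℝ) (k : ℕ) :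
    Zp Q s k = s • Q + (1 - s) • Zp Q 0 k := by
  ext a b
  unfold Zp
  rw [Matrix.add_apply, Matrix.sub_apply, Matrix.smul_apply, Matrix.smul_apply, Matrix.sub_apply,
    Matrix.diagonal_apply, Matrix.diagonal_apply, smul_eq_mul, smul_eq_mul]
  split_ifs <;> ring

theorem fk_Zp {Q : Matrix (Fin n) (Fin n) ℝ} (h : FK Q) {s : ℝ} (h0 : 0 ≤ s) (h1 : s ≤ 1) (k : ℕ) :
    FK (Zp Q s k) := by
  obtain ⟨hs, ho, hr⟩ := h
  refine ⟨fun i j => ?_, fun i j hij => ?_, fun i => ?_⟩
  · unfold Zp
    rw [Matrix.sub_apply, Matrix.sub_apply, Matrix.diagonal_apply, Matrix.diagonal_apply, hs i j]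
    by_cases hij : i = j
    · subst hij
      rfl
    · rw [if_neg hij, if_neg fun h => hij h.symm]
  · unfold Zp
    rw [Matrix.sub_apply, Matrix.diagonal_apply, if_neg hij, sub_zero]
    exact ho i j hij
  · unfold Zp
    have h2 : ∑ j, (Q - Matrix.diagonal fun a : Fin n =>
        if a.val < k then 0 else (1 - s) * ∑ j, Q a j) i j =
        ∑ j, Q i j - (if i.val < k then 0 else (1 - s) * ∑ j, Q i j) := by
      simp only [Matrix.sub_apply, Finset.sum_sub_distrib, Matrix.diagonal_apply,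
        Finset.sum_ite_eq, Finset.mem_univ, if_true]
    rw [h2]
    have h3 := hr i
    split_ifs
    · linarith
    · nlinarith

theorem fk_psd {Q : Matrix (Fin n) (Fin n) ℝ} (h : FK Q) : Q.PosSemidef := by
  refine Matrix.PosSemidef.of_dotProduct_mulVec_nonneg ?_ ?_
  · ext i j
    rw [Matrix.conjTranspose_apply, star_trivial]
    exact h.1 j i
  · intro x
    rw [star_trivial]
    have h1 := qf_fk h.1 x
    unfold qf at h1
    rw [h1]
    refine add_nonneg (Finset.sum_nonneg fun i _ => mul_nonneg (h.2.2 i) (sq_nonneg _))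
      (Finset.sum_nonneg fun i _ => Finset.sum_nonneg fun j _ => ?_)
    by_cases hij : i = j
    · subst hij
      simp
    · have := h.2.1 i j hij
      have h2 : 0 ≤ -Q i j / 2 := by linarith
      positivity

theorem pd_Zp {Q : Matrix (Fin n) (Fin n) ℝ} (hQ : Q.PosDef) (h : FK Q) {s : ℝ} (h0 : 0 < s)
    (h1 : s ≤ 1) (k : ℕ) : (Zp Q s k).PosDef := by
  rw [Zp_comb]
  exact (hQ.smul h0).add_posSemidef
    ((fk_psd (fk_Zp h le_rfl zero_le_one k)).smul (by linarith))

theorem det_Z0 (Q : Matrix (Fin (n + 1)) (Fin (n + 1)) ℝ) : (Zp Q 0 0).det = 0 := by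
  refine Matrix.exists_mulVec_eq_zero_iff.1 ⟨fun _ => 1, fun h => ?_, ?_⟩
  · exact one_ne_zero (congrFun h 0)
  · funext i
    unfold Zp Matrix.mulVec dotProduct
    simp [Matrix.sub_apply, Matrix.diagonal_apply]

theorem D_eq : ∀ (n : ℕ) (Q : Matrix (Fin n) (Fin n) ℝ), Rec.D n Q = Q.det := by
  intro n
  induction n with
  | zero =>
    intro Q
    rw [Matrix.det_isEmpty]
    rfl
  | succ n ih =>
    intro Q
    have h1 : ∑ k ∈ Finset.range (n + 1), ((Zp Q 0 (k + 1)).det - (Zp Q 0 k).det) = Q.det := by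
      rw [Finset.sum_range_sub (fun k => (Zp Q 0 k).det), Zp_top, det_Z0, sub_zero]
    rw [Finset.sum_range] at h1
    rw [← h1]
    show Rec.sm (n + 1) _ = _
    rw [Rec.sm_eq]
    refine Finset.sum_congr rfl fun i _ => ?_
    rw [ih, rs_eq, yd_eq, dl_eq, Zp_succ, det_add]
    ring

/-- One of the summands of the recursion. -/
noncomputable def HH (Q : Matrix (Fin (n + 1)) (Fin (n + 1)) ℝ) (s : ℝ) : ℝ :=
  ∑ i : Fin (n + 1), ((1 - s) * (∑ j, Q i j) *
    (Rec.P n (del i (Zp Q s i.val)) + 2 * (Zp Q s i.val).det) +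
      ((1 - s) * ∑ j, Q i j) ^ 2 * (del i (Zp Q s i.val)).det)

theorem HH_zero (Q : Matrix (Fin (n + 1)) (Fin (n + 1)) ℝ) : HH Q 0 = Rec.P (n + 1) Q := by
  show _ = Rec.sm (n + 1) _
  rw [Rec.sm_eq]
  unfold HH
  refine Finset.sum_congr rfl fun i _ => ?_
  rw [rs_eq, yd_eq, dl_eq, D_eq, D_eq]
  ring

theorem yd_cont (i : Fin n) : Continuous (Rec.yd i : Matrix (Fin n) (Fin n) ℝ → _) := by
  refine continuous_matrix fun a b => ?_
  have h : (fun Q : Matrix (Fin n) (Fin n) ℝ => Rec.yd i Q a b) =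
      fun Q => Q a b - (if a = b then (if a.val < i.val then 0 else ∑ j, Q a j) else 0) := by
    funext Q
    rw [yd_eq]
    unfold Zp
    rw [Matrix.sub_apply, Matrix.diagonal_apply]
    simp
  rw [h]
  have h1 : ∀ c d : Fin n, Continuous fun Q : Matrix (Fin n) (Fin n) ℝ => Q c d :=
    fun c d => Continuous.matrix_elem continuous_id c d
  refine (h1 a b).sub ?_
  by_cases hab : a = b
  · simp only [hab, if_true]
    by_cases hai : b.val < i.val
    · simp only [hai, if_true]
      exact continuous_const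
    · simp only [hai, if_false]
      exact continuous_finset_sum _ fun j _ => h1 b j
  · simp only [hab, if_false]
    exact continuous_const

theorem P_cont : ∀ n : ℕ, Continuous (Rec.P n : Matrix (Fin n) (Fin n) ℝ → ℝ) := by
  intro n
  induction n with
  | zero =>
    show Continuous fun _ : Matrix (Fin 0) (Fin 0) ℝ => (0 : ℝ)
    exact continuous_const
  | succ n ih =>
    have h : (Rec.P (n + 1) : Matrix (Fin (n + 1)) (Fin (n + 1)) ℝ → ℝ) = fun Q =>
        ∑ i : Fin (n + 1), ((∑ j, Q i j) * (Rec.P n (del i (Rec.yd i Q)) +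
          2 * (Rec.yd i Q).det) + (∑ j, Q i j) * (∑ j, Q i j) * (del i (Rec.yd i Q)).det) := by
      funext Q
      show Rec.sm (n + 1) _ = _
      rw [Rec.sm_eq]
      refine Finset.sum_congr rfl fun i _ => ?_
      rw [rs_eq, D_eq, D_eq, dl_eq]
    rw [h]
    have h1 : ∀ c d : Fin (n + 1), Continuous fun Q : Matrix (Fin (n + 1)) (Fin (n + 1)) ℝ =>
        Q c d := fun c d => Continuous.matrix_elem continuous_id c d
    have h2 : ∀ i : Fin (n + 1), Continuous fun Q : Matrix (Fin (n + 1)) (Fin (n + 1)) ℝ =>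
        ∑ j, Q i j := fun i => continuous_finset_sum _ fun j _ => h1 i j
    have h3 : ∀ i : Fin (n + 1), Continuous fun Q : Matrix (Fin (n + 1)) (Fin (n + 1)) ℝ =>
        del i (Rec.yd i Q) := fun i =>
      continuous_matrix fun a b => Continuous.matrix_elem (yd_cont i) _ _
    refine continuous_finset_sum _ fun i _ => ?_
    exact ((h2 i).mul ((ih.comp (h3 i)).add (continuous_const.mul
      (Continuous.matrix_det (yd_cont i))))).add
        (((h2 i).mul (h2 i)).mul (Continuous.matrix_det (h3 i)))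

theorem Zp_cont (Q : Matrix (Fin n) (Fin n) ℝ) (k : ℕ) : Continuous fun s : ℝ => Zp Q s k := by
  refine continuous_matrix fun a b => ?_
  unfold Zp
  simp only [Matrix.sub_apply, Matrix.diagonal_apply]
  refine continuous_const.sub ?_
  split_ifs
  · exact continuous_const
  · fun_prop
  · exact continuous_const

theorem HH_cont (Q : Matrix (Fin (n + 1)) (Fin (n + 1)) ℝ) : Continuous (HH Q) := by
  unfold HH
  have h3 : ∀ i : Fin (n + 1), Continuous fun s : ℝ => del i (Zp Q s i.val) := fun i =>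
    continuous_matrix fun a b => Continuous.matrix_elem (Zp_cont Q i.val) _ _
  have h4 : Continuous fun s : ℝ => 1 - s := by fun_prop
  refine continuous_finset_sum _ fun i _ => ?_
  exact ((h4.mul continuous_const).mul (((P_cont n).comp (h3 i)).add (continuous_const.mul
    (Continuous.matrix_det (Zp_cont Q i.val))))).add
      (((h4.mul continuous_const).pow 2).mul (Continuous.matrix_det (h3 i)))

/-- A bound for the second moment. -/
theorem FF_bound {Q R : Matrix (Fin n) (Fin n) ℝ} (hR : R.PosDef)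
    (h : ∀ x, qf R x ≤ qf Q x) : |FF R| ≤ ∑ i, ∑ j, |Q i j| := by
  have h2 : ∀ x ∈ cube n, ‖dsq R x‖ ≤ ∑ i, ∑ j, |Q i j| := by
    intro x hx
    rw [Real.norm_eq_abs, abs_of_nonneg (dsq_nonneg hR x)]
    have h3 := dsq_le hR x 0
    have h4 : x - ic (0 : Fin n → ℤ) = x := by
      funext i
      simp [ic]
    rw [h4] at h3
    refine h3.trans ((h x).trans ?_)
    unfold qf dotProduct mulVec dotProduct
    refine Finset.sum_le_sum fun i _ => ?_
    rw [Finset.mul_sum]
    refine Finset.sum_le_sum fun j _ => ?_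
    have hi := hx i (Set.mem_univ i)
    have hj := hx j (Set.mem_univ j)
    have e1 := hi.1
    have e2 := hi.2
    have e3 := hj.1
    have e4 := hj.2
    have e5 : 0 ≤ x i * x j := mul_nonneg e1 e3
    have e6 : x i * x j ≤ 1 := by nlinarith
    calc x i * (Q i j * x j) = Q i j * (x i * x j) := by ring
      _ ≤ |Q i j| * (x i * x j) := mul_le_mul_of_nonneg_right (le_abs_self _) e5
      _ ≤ |Q i j| * 1 := mul_le_mul_of_nonneg_left e6 (abs_nonneg _)
      _ = |Q i j| := mul_one _
  have h10 := norm_setIntegral_le_of_norm_le_const (μ := volume) (s := cube n)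
    (f := dsq R) (C := ∑ i, ∑ j, |Q i j|) (by rw [vol_cube]; exact ENNReal.one_lt_top) h2
  rw [Measure.real, vol_cube, ENNReal.toReal_one, mul_one] at h10
  exact h10

theorem P12_zero (Q : Matrix (Fin 0) (Fin 0) ℝ) : P12 Q = 0 := by
  unfold P12 FF
  have h : ∀ x, dsq Q x = 0 := by
    intro x
    unfold dsq
    have h1 : ∀ l : Fin 0 → ℤ, qf Q (x - ic l) = 0 := by
      intro l
      unfold qf dotProduct
      simp
    simp only [h1]
    exact ciInf_const
  simp [h]

/-- **The recursion.** -/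
theorem P12_rec : ∀ (n : ℕ) (Q : Matrix (Fin n) (Fin n) ℝ), Q.PosDef → FK Q →
    P12 Q = Rec.P n Q := by
  intro n
  induction n with
  | zero =>
    intro Q _ _
    rw [P12_zero]
    rfl
  | succ n ih =>
    intro Q hQ h
    have h1 : ∀ s : ℝ, 0 < s → s ≤ 1 → P12 Q - P12 (Zp Q s 0) = HH Q s := by
      intro s h0 h1
      have h2 : ∑ k ∈ Finset.range (n + 1), (P12 (Zp Q s (k + 1)) - P12 (Zp Q s k)) =
          P12 Q - P12 (Zp Q s 0) := by
        rw [Finset.sum_range_sub (fun k => P12 (Zp Q s k)), Zp_top]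
      rw [← h2, Finset.sum_range]
      unfold HH
      refine Finset.sum_congr rfl fun i _ => ?_
      have h3 := pd_Zp hQ h h0 h1 i.val
      have h4 := fk_Zp h h0.le h1 i.val
      have h5 : 0 ≤ (1 - s) * ∑ j, Q i j := mul_nonneg (by linarith) (h.2.2 i)
      rw [Zp_succ, P12_add h3 h4 i h5, ih _ (posDef_del h3 i) (fk_del h4 i)]
      ring
    have h2 : Tendsto (fun s : ℝ => P12 (Zp Q s 0)) (𝓝[>] 0) (𝓝 0) := by
      have h3 : Tendsto (fun s : ℝ => 12 * (Zp Q s 0).det * ∑ i, ∑ j, |Q i j|) (𝓝[>] 0)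
          (𝓝 (12 * (Zp Q 0 0).det * ∑ i, ∑ j, |Q i j|)) :=
        ((((Continuous.matrix_det (Zp_cont Q 0)).const_mul 12).mul_const _).tendsto 0).mono_left
          nhdsWithin_le_nhds
      rw [det_Z0, mul_zero, zero_mul] at h3
      refine squeeze_zero_norm' ?_ h3
      have h5 : ∀ᶠ s : ℝ in 𝓝[>] (0 : ℝ), s < 1 := nhdsWithin_le_nhds (eventually_lt_nhds one_pos)
      filter_upwards [self_mem_nhdsWithin, h5] with s hs hs1
      have h6 := pd_Zp hQ h hs hs1.le 0
      have h7 : |FF (Zp Q s 0)| ≤ ∑ i, ∑ j, |Q i j| := by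
        refine FF_bound h6 fun x => ?_
        have h8 := qf_fk (fk_Zp h (le_of_lt hs) hs1.le 0).1 x
        have h9 := qf_fk h.1 x
        have h10 : qf (Zp Q s 0) x = qf Q x - ∑ a, (1 - s) * (∑ j, Q a j) * x a ^ 2 := by
          unfold Zp qf
          rw [Matrix.sub_mulVec, dotProduct_sub]
          congr 1
          unfold dotProduct
          refine Finset.sum_congr rfl fun a _ => ?_
          rw [Matrix.mulVec_diagonal]
          simp
          ring
        rw [h10]
        have h11 : 0 ≤ ∑ a, (1 - s) * (∑ j, Q a j) * x a ^ 2 :=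
          Finset.sum_nonneg fun a _ => mul_nonneg (mul_nonneg (by linarith) (h.2.2 a))
            (sq_nonneg _)
        linarith
      have h8 := h6.det_pos
      unfold P12
      rw [Real.norm_eq_abs, abs_mul, abs_of_pos (by positivity : 0 < 12 * (Zp Q s 0).det)]
      exact mul_le_mul_of_nonneg_left h7 (by positivity)
    have h3 : Tendsto (fun s : ℝ => P12 Q - P12 (Zp Q s 0)) (𝓝[>] 0) (𝓝 (P12 Q - 0)) :=
      tendsto_const_nhds.sub h2
    have h4 : Tendsto (HH Q) (𝓝[>] 0) (𝓝 (HH Q 0)) :=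
      ((HH_cont Q).tendsto 0).mono_left nhdsWithin_le_nhds
    have h5 : (fun s : ℝ => P12 Q - P12 (Zp Q s 0)) =ᶠ[𝓝[>] 0] HH Q := by
      have h5 : ∀ᶠ s : ℝ in 𝓝[>] (0 : ℝ), s < 1 := nhdsWithin_le_nhds (eventually_lt_nhds one_pos)
      filter_upwards [self_mem_nhdsWithin, h5] with s hs hs1
      exact h1 s hs hs1.le
    have h6 := tendsto_nhds_unique (h3.congr' h5) h4
    rw [sub_zero, HH_zero] at h6
    exact h6

end Pool.Agent.H99V
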