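import Pool.Agent.H99V.Rec
import Pool.Agent.H99V.Frm

set_option autoImplicit false

/-!
# Better lattices of Voronoi's first kind in dimensions four and five
-/

namespace Pool.Agent.H99V

open MeasureTheory Matrix Pool.Agent.D4Q Filter Topology

section map

variable {α β : Type*} [CommRing α] [CommRing β] (f : α →+* β)

theorem sm_map (n : ℕ) (g : Fin n → α) : Rec.sm n (fun i => f (g i)) = f (Rec.sm n g) := by
  rw [Rec.sm_eq, Rec.sm_eq, map_sum]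

theorem yd_map {n : ℕ} (i : Fin n) (Q : Matrix (Fin n) (Fin n) α) :
    Rec.yd i (Q.map f) = (Rec.yd i Q).map f := by
  funext a b
  show _ = f (Rec.yd i Q a b)
  unfold Rec.yd
  by_cases hab : a = b
  · rw [if_pos hab, if_pos hab]
    by_cases hai : a < i
    · rw [if_pos hai, if_pos hai]
      rfl
    · rw [if_neg hai, if_neg hai, map_neg, ← sm_map]
      congr 2
      funext j
      by_cases hj : j = a
      · rw [if_pos hj, if_pos hj, map_zero]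
      · rw [if_neg hj, if_neg hj]
        rfl
  · rw [if_neg hab, if_neg hab]
    rfl

theorem rs_map {n : ℕ} (Q : Matrix (Fin n) (Fin n) α) (a : Fin n) :
    Rec.rs (Q.map f) a = f (Rec.rs Q a) := sm_map f n (Q a)

theorem dl_map {n : ℕ} (i : Fin (n + 1)) (Q : Matrix (Fin (n + 1)) (Fin (n + 1)) α) :
    Rec.dl i (Q.map f) = (Rec.dl i Q).map f := rfl

theorem D_map : ∀ (n : ℕ) (Q : Matrix (Fin n) (Fin n) α), Rec.D n (Q.map f) = f (Rec.D n Q) := by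
  intro n
  induction n with
  | zero =>
    intro Q
    show (1 : β) = f 1
    rw [map_one]
  | succ n ih =>
    intro Q
    show Rec.sm (n + 1) _ = f (Rec.sm (n + 1) _)
    rw [← sm_map]
    congr 1
    funext i
    rw [map_mul, yd_map, dl_map, rs_map, ih]

theorem P_map : ∀ (n : ℕ) (Q : Matrix (Fin n) (Fin n) α), Rec.P n (Q.map f) = f (Rec.P n Q) := by
  intro n
  induction n with
  | zero =>
    intro Q
    show (0 : β) = f 0
    rw [map_zero]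
  | succ n ih =>
    intro Q
    show Rec.sm (n + 1) _ = f (Rec.sm (n + 1) _)
    rw [← sm_map]
    congr 1
    funext i
    rw [map_add, map_mul, map_add, map_mul, map_mul, map_mul, map_ofNat, yd_map, dl_map, rs_map,
      ih, D_map, D_map]

end map

/-- The integral matrix `A` as a real matrix. -/
def rl {n : ℕ} (A : Matrix (Fin n) (Fin n) ℤ) : Matrix (Fin n) (Fin n) ℝ :=
  A.map (Int.castRingHom ℝ)

theorem rl_apply {n : ℕ} (A : Matrix (Fin n) (Fin n) ℤ) (i j : Fin n) :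
    rl A i j = ((A i j : ℤ) : ℝ) := rfl

theorem rl_D {n : ℕ} (A : Matrix (Fin n) (Fin n) ℤ) : (rl A).det = ((Rec.D n A : ℤ) : ℝ) := by
  rw [← D_eq]
  exact D_map (Int.castRingHom ℝ) n A

theorem rl_fk {n : ℕ} {A : Matrix (Fin n) (Fin n) ℤ} (h1 : ∀ i j, A i j = A j i)
    (h2 : ∀ i j, i ≠ j → A i j ≤ 0) (h3 : ∀ i, 0 ≤ ∑ j, A i j) : FK (rl A) := by
  refine ⟨fun i j => ?_, fun i j hij => ?_, fun i => ?_⟩
  · rw [rl_apply, rl_apply, h1]
  · rw [rl_apply]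
    exact_mod_cast h2 i j hij
  · simp only [rl_apply]
    exact_mod_cast h3 i

theorem rl_pd {n : ℕ} {A : Matrix (Fin n) (Fin n) ℤ} (h : FK (rl A)) (hD : 0 < Rec.D n A) :
    (rl A).PosDef := by
  refine (fk_psd h).posDef_iff_det_ne_zero.2 ?_
  rw [rl_D]
  exact_mod_cast hD.ne'

theorem rl_P {n : ℕ} {A : Matrix (Fin n) (Fin n) ℤ} (h : FK (rl A)) (hD : 0 < Rec.D n A) :
    P12 (rl A) = ((Rec.P n A : ℤ) : ℝ) := by
  rw [P12_rec n _ (rl_pd h hD) h]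
  exact P_map (Int.castRingHom ℝ) n A

theorem star_rl (m : ℕ) (κ : ℝ) : star m κ = κ • rl (Rec.cg (m + 1)) := by
  ext i j
  unfold star
  rw [Matrix.smul_apply, rl_apply, Matrix.of_apply]
  unfold Rec.cg
  split_ifs
  · push_cast
    rw [smul_eq_mul]
    ring
  · push_cast
    rw [smul_eq_mul]
    ring

/-- The comparison of an integral form with the polar of `A_n`. -/
theorem form_small {m : ℕ} {A : Matrix (Fin (m + 1)) (Fin (m + 1)) ℤ} (hA : FK (rl A))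
    (hC : FK (rl (Rec.cg (m + 1)))) (hq : 0 < Rec.D (m + 1) A)
    (hq0 : 0 < Rec.D (m + 1) (Rec.cg (m + 1))) (hp0 : 0 ≤ Rec.P (m + 1) (Rec.cg (m + 1)))
    (hlt : Rec.P (m + 1) A ^ (m + 1) * Rec.D (m + 1) (Rec.cg (m + 1)) ^ (m + 2) <
      Rec.P (m + 1) (Rec.cg (m + 1)) ^ (m + 1) * Rec.D (m + 1) A ^ (m + 2))
    {κ : ℝ} (hκ : 0 < κ) (hdet : (star m κ).det = 1) :
    ∃ Q : Matrix (Fin (m + 1)) (Fin (m + 1)) ℝ, Q.PosDef ∧ FK Q ∧ Q.det = 1 ∧
      FF Q < FF (star m κ) := by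
  obtain ⟨q, hqd⟩ : ∃ q : ℝ, q = ((Rec.D (m + 1) A : ℤ) : ℝ) := ⟨_, rfl⟩
  obtain ⟨q0, hq0d⟩ : ∃ q : ℝ, q = ((Rec.D (m + 1) (Rec.cg (m + 1)) : ℤ) : ℝ) := ⟨_, rfl⟩
  obtain ⟨p, hpd⟩ : ∃ q : ℝ, q = ((Rec.P (m + 1) A : ℤ) : ℝ) := ⟨_, rfl⟩
  obtain ⟨p0, hp0d⟩ : ∃ q : ℝ, q = ((Rec.P (m + 1) (Rec.cg (m + 1)) : ℤ) : ℝ) := ⟨_, rfl⟩
  have hqp : 0 < q := by
    rw [hqd]
    exact_mod_cast hq
  have hq0p : 0 < q0 := by
    rw [hq0d]
    exact_mod_cast hq0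
  have hp0n : 0 ≤ p0 := by
    rw [hp0d]
    exact_mod_cast hp0
  have hltR : p ^ (m + 1) * q0 ^ (m + 2) < p0 ^ (m + 1) * q ^ (m + 2) := by
    rw [hqd, hq0d, hpd, hp0d]
    exact_mod_cast hlt
  have hm1 : ((m : ℝ) + 1) ≠ 0 := by positivity
  obtain ⟨l, hl0, hl⟩ : ∃ l : ℝ, 0 < l ∧ l ^ (m + 1) * q = 1 := by
    refine ⟨q ^ (-(1 / ((m : ℝ) + 1))), Real.rpow_pos_of_pos hqp _, ?_⟩
    rw [← Real.rpow_natCast, ← Real.rpow_mul hqp.le]
    push_cast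
    have : -(1 / ((m : ℝ) + 1)) * (m + 1) = -1 := by field_simp
    rw [this, Real.rpow_neg_one]
    exact inv_mul_cancel₀ hqp.ne'
  have hP := rl_pd hA hq
  have hP0 := rl_pd hC hq0
  refine ⟨l • rl A, hP.smul hl0, fk_smul hA hl0.le, ?_, ?_⟩
  · rw [Matrix.det_smul, Fintype.card_fin, rl_D, ← hqd]
    exact hl
  · rw [star_rl] at hdet ⊢
    rw [Matrix.det_smul, Fintype.card_fin, rl_D, ← hq0d] at hdet
    rw [FF_smul _ hl0.le, FF_smul _ hκ.le, FF_eq hP, FF_eq hP0, rl_P hA hq, rl_P hC hq0, rl_D,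
      rl_D, ← hqd, ← hq0d, ← hpd, ← hp0d]
    have h1 : l ^ (m + 1) = 1 / q := by
      rw [eq_div_iff hqp.ne']
      exact hl
    have h2 : κ ^ (m + 1) = 1 / q0 := by
      rw [eq_div_iff hq0p.ne']
      exact hdet
    have key : (l * (p / (12 * q))) ^ (m + 1) < (κ * (p0 / (12 * q0))) ^ (m + 1) := by
      rw [mul_pow, mul_pow, h1, h2, div_pow, div_pow, mul_pow, mul_pow, div_mul_div_comm,
        div_mul_div_comm, one_mul, one_mul, div_lt_div_iff₀ (by positivity) (by positivity)]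
      have h12 : (0 : ℝ) < 12 ^ (m + 1) := by positivity
      calc p ^ (m + 1) * (q0 * (12 ^ (m + 1) * q0 ^ (m + 1)))
          = 12 ^ (m + 1) * (p ^ (m + 1) * q0 ^ (m + 2)) := by ring
        _ < 12 ^ (m + 1) * (p0 ^ (m + 1) * q ^ (m + 2)) := by
          exact mul_lt_mul_of_pos_left hltR h12
        _ = p0 ^ (m + 1) * (q * (12 ^ (m + 1) * q ^ (m + 1))) := by ring
    exact lt_of_pow_lt_pow_left₀ (m + 1) (by positivity) key

theorem fk_cg (n : ℕ) : FK (rl (Rec.cg n)) := by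
  refine rl_fk (fun i j => ?_) (fun i j hij => ?_) fun i => ?_
  · unfold Rec.cg
    by_cases h : i = j
    · rw [if_pos h, if_pos h.symm]
    · rw [if_neg h, if_neg fun h' => h h'.symm]
  · unfold Rec.cg
    rw [if_neg hij]
    norm_num
  · unfold Rec.cg
    rw [← Finset.add_sum_erase _ _ (Finset.mem_univ i), if_pos rfl,
      Finset.sum_congr rfl fun j hj => if_neg (Finset.ne_of_mem_erase hj).symm, Finset.sum_const,
      Finset.card_erase_of_mem (Finset.mem_univ _), Finset.card_univ, Fintype.card_fin]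
    have : 1 ≤ n := by have := i.isLt; omega
    simp [Nat.cast_sub this]

theorem fk_wheel : FK (rl Rec.wheel) := by
  refine rl_fk ?_ ?_ ?_ <;> decide

theorem fk_bip : FK (rl Rec.bip) := by
  refine rl_fk ?_ ?_ ?_ <;> decide

theorem form_four {κ : ℝ} (hκ : 0 < κ) (hdet : (star 3 κ).det = 1) :
    ∃ Q : Matrix (Fin 4) (Fin 4) ℝ, Q.PosDef ∧ FK Q ∧ Q.det = 1 ∧ FF Q < FF (star 3 κ) := by
  refine form_small fk_wheel (fk_cg 4) ?_ ?_ ?_ ?_ hκ hdet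
  · show 0 < Rec.D 4 Rec.wheel
    rw [Rec.D_wheel]
    norm_num
  · show 0 < Rec.D 4 (Rec.cg 4)
    rw [Rec.D_cg4]
    norm_num
  · show 0 ≤ Rec.P 4 (Rec.cg 4)
    rw [Rec.P_cg4]
    norm_num
  · show Rec.P 4 Rec.wheel ^ 4 * Rec.D 4 (Rec.cg 4) ^ 5 < Rec.P 4 (Rec.cg 4) ^ 4 *
      Rec.D 4 Rec.wheel ^ 5
    rw [Rec.P_wheel, Rec.D_wheel, Rec.P_cg4, Rec.D_cg4]
    norm_num

theorem form_five {κ : ℝ} (hκ : 0 < κ) (hdet : (star 4 κ).det = 1) :
    ∃ Q : Matrix (Fin 5) (Fin 5) ℝ, Q.PosDef ∧ FK Q ∧ Q.det = 1 ∧ FF Q < FF (star 4 κ) := by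
  refine form_small fk_bip (fk_cg 5) ?_ ?_ ?_ ?_ hκ hdet
  · show 0 < Rec.D 5 Rec.bip
    rw [Rec.D_bip]
    norm_num
  · show 0 < Rec.D 5 (Rec.cg 5)
    rw [Rec.D_cg5]
    norm_num
  · show 0 ≤ Rec.P 5 (Rec.cg 5)
    rw [Rec.P_cg5]
    norm_num
  · show Rec.P 5 Rec.bip ^ 5 * Rec.D 5 (Rec.cg 5) ^ 6 < Rec.P 5 (Rec.cg 5) ^ 5 *
      Rec.D 5 Rec.bip ^ 6
    rw [Rec.P_bip, Rec.D_bip, Rec.P_cg5, Rec.D_cg5]
    norm_num

end Pool.Agent.H99V
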