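import Pool.Agent.H99V.Blk
import Pool.Agent.H99V.Asy
import Pool.Agent.H99V.Low
import Pool.Agent.H99V.Glo

set_option autoImplicit false

/-!
# Large dimensions: the loss of the polar of `A_d` in the class of Voronoi's first kind
-/

namespace Pool.Agent.H99V

open MeasureTheory Matrix Pool.Agent.D4Q Filter Topology

theorem fk_one (n : ℕ) : FK (1 : Matrix (Fin n) (Fin n) ℝ) := by
  refine ⟨fun i j => ?_, fun i j hij => ?_, fun i => ?_⟩
  · rw [Matrix.one_apply, Matrix.one_apply]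
    simp only [eq_comm]
  · rw [Matrix.one_apply_ne hij]
  · refine Finset.sum_nonneg fun j _ => ?_
    rw [Matrix.one_apply]
    split_ifs <;> norm_num

theorem FF_one_le (n : ℕ) : FF (1 : Matrix (Fin n) (Fin n) ℝ) ≤ n := by
  have h := FF_bound (Q := (1 : Matrix (Fin n) (Fin n) ℝ)) (R := 1) Matrix.PosDef.one
    fun x => le_rfl
  refine (le_abs_self _).trans (h.trans (le_of_eq ?_))
  simp [Matrix.one_apply, apply_ite abs]

/-- The lattice of `K_{3,3}` with determinant one. -/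
theorem exists_bip : ∃ R : Matrix (Fin 5) (Fin 5) ℝ, R.PosDef ∧ FK R ∧ R.det = 1 ∧
    FF R ≤ 3835 / 10000 := by
  have hq : 0 < Rec.D 5 Rec.bip := by
    rw [Rec.D_bip]
    norm_num
  have hP := rl_pd fk_bip hq
  have hp : (0 : ℝ) < 81 := by norm_num
  obtain ⟨l, hl0, hl⟩ : ∃ l : ℝ, 0 < l ∧ l ^ 5 * 81 = 1 := by
    refine ⟨(81 : ℝ) ^ (-(1 / (5 : ℝ))), Real.rpow_pos_of_pos hp _, ?_⟩
    rw [← Real.rpow_natCast, ← Real.rpow_mul hp.le]
    push_cast
    have : -(1 / (5 : ℝ)) * 5 = -1 := by norm_num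
    rw [this, Real.rpow_neg_one]
    exact inv_mul_cancel₀ hp.ne'
  refine ⟨l • rl Rec.bip, hP.smul hl0, fk_smul fk_bip hl0.le, ?_, ?_⟩
  · rw [Matrix.det_smul, Fintype.card_fin, rl_D, Rec.D_bip]
    push_cast
    exact hl
  · rw [FF_smul _ hl0.le, FF_eq hP, rl_P fk_bip hq, rl_D, Rec.P_bip, Rec.D_bip]
    have h1 : l ≤ 4155 / 10000 := by
      by_contra h
      push_neg at h
      have h2 : (4155 / 10000 : ℝ) ^ 5 < l ^ 5 :=
        pow_lt_pow_left₀ h (by norm_num) (by norm_num)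
      have h3 : (1 : ℝ) < (4155 / 10000 : ℝ) ^ 5 * 81 := by norm_num
      linarith
    push_cast
    have h2 : (897 : ℝ) / (12 * 81) ≤ 92285 / 100000 := by norm_num
    calc l * (897 / (12 * 81)) ≤ 4155 / 10000 * (92285 / 100000) := by
          exact mul_le_mul h1 h2 (by norm_num) (by norm_num)
      _ ≤ 3835 / 10000 := by norm_num

theorem exists_small : ∀ d : ℕ, ∃ Q : Matrix (Fin d) (Fin d) ℝ, Q.PosDef ∧ FK Q ∧ Q.det = 1 ∧
    FF Q ≤ 767 / 10000 * d + 4 := by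
  intro d
  induction d using Nat.strong_induction_on with
  | _ d ih =>
    by_cases hd : d < 5
    · refine ⟨1, Matrix.PosDef.one, fk_one d, Matrix.det_one, ?_⟩
      have h1 := FF_one_le d
      have h2 : (d : ℝ) ≤ 4 := by
        have : d ≤ 4 := by omega
        exact_mod_cast this
      have h3 : (0 : ℝ) ≤ d := Nat.cast_nonneg d
      linarith
    · obtain ⟨e, rfl⟩ : ∃ e, d = e + 5 := ⟨d - 5, by omega⟩
      obtain ⟨Q, hQ, hF, hD, hb⟩ := ih e (by omega)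
      obtain ⟨R, hR, hFR, hDR, hbR⟩ := exists_bip
      refine ⟨bs Q R, bs_posDef hQ hR, bs_fk hF hFR, ?_, ?_⟩
      · rw [bs_det, hD, hDR, one_mul]
      · have h1 := bs_FF hQ hR
        push_cast
        linarith

/-- **Large dimensions.** -/
theorem large (ε : ℝ) (hε : 0 < ε) : ∃ m0 : ℕ, ∀ m : ℕ, m0 ≤ m →
    ∀ (L : Submodule ℤ (EuclideanSpace ℝ (Fin (m + 1)))) (_ : DiscreteTopology L)
      (_ : IsZLattice ℝ L), ZLattice.covolume L = 1 → IsAStar L →
        (1 - ε) * (((m : ℝ) + 1) / 12) ≤ secondMoment L := by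
  obtain ⟨m0, h0⟩ := AA_small ε hε
  refine ⟨m0 + 1, fun m hm L j1 j2 hL hA => ?_⟩
  obtain ⟨κ, hκ, hf, hdet⟩ := aStar_form hL hA
  rw [sm_eq hf hL]
  refine le_trans ?_ (star_low m (by omega) hκ hdet)
  have h1 := h0 m (by omega)
  have h2 : (0 : ℝ) < ((m : ℝ) + 2) ^ (m + 1) := by positivity
  have h3 : AA m ((m : ℝ) + 2) / ((m : ℝ) + 2) ^ (m + 1) ≤ ε := by
    rw [div_le_iff₀ h2]
    exact h1
  have h4 : (0 : ℝ) ≤ ((m : ℝ) + 1) / 12 := by positivity
  rw [mul_comm]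
  exact mul_le_mul_of_nonneg_left (by linarith) h4

theorem loss : ∃ m0 : ℕ, ∀ m : ℕ, m0 ≤ m →
    ∀ (L : Submodule ℤ (EuclideanSpace ℝ (Fin (m + 1)))) (_ : DiscreteTopology L)
      (_ : IsZLattice ℝ L), ZLattice.covolume L = 1 → IsAStar L →
        ∃ (L' : Submodule ℤ (EuclideanSpace ℝ (Fin (m + 1)))) (_ : DiscreteTopology L')
          (_ : IsZLattice ℝ L'), ZLattice.covolume L' = 1 ∧ FirstKind L' ∧
            secondMoment L' < 93 / 100 * secondMoment L := by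
  obtain ⟨m0, h0⟩ := large (1 / 1000) (by norm_num)
  refine ⟨m0 + 6000, fun m hm L j1 j2 hL hA => ?_⟩
  have h1 := h0 m (by omega) L j1 j2 hL hA
  obtain ⟨κ, hκ, hf, hdet⟩ := aStar_form hL hA
  refine lat_of_form hL hf _ ?_
  rw [sm_eq hf hL] at h1
  obtain ⟨Q, hQ, hF, hD, hb⟩ := exists_small (m + 1)
  refine ⟨Q, hQ, hF, hD, lt_of_le_of_lt hb ?_⟩
  have h2 : (6000 : ℝ) ≤ m := by
    have : 6000 ≤ m := by omega
    exact_mod_cast this
  push_cast
  linarith

end Pool.Agent.H99V
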